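import Pool.Agent.Helper46.OF.GDefs

/-! # OFG-GP1 (0.5h): facts about t1, t2, gz
t1 gz = gz, t2 gz = gz: computation.  comm_t_ne: if t1^n t2^n = t2^n t1^n, apply both sides to ga: t1^n ga = ga, t1^n gb = gb ga^n, t2^n gb = gb, t2^n ga = ga gb^n (induction);
t1^n (t2^n ga) = ga (gb ga^n)^n, t2^n (t1^n ga) = ga gb^n; the exponent sum of `ga` (hom A → Multiplicative ℤ, of 0 ↦ ofAdd 1, of 1 ↦ 1) is 1 + n² resp. 1.
pow_mem: a finite index subgroup contains a positive power of each element: H.relIndex G0 ≠ 0 and x ∈ G0 (Subgroup.exists_pow_mem_of_relIndex_ne_zero or the like).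
`B3`-elements fix gz: not needed. -/

set_option autoImplicit false
namespace Pool.Agent.Helper46.OF
open Pool.Agent.Helper96.OF


private theorem t1_ga : t1 ga = ga := by simp [t1, ga]
private theorem t1_gb : t1 gb = gb * ga := by simp [t1, ga, gb]
private theorem t2_ga : t2 ga = ga * gb := by simp [t2, ga, gb]
private theorem t2_gb : t2 gb = gb := by simp [t2, gb]

theorem t1_gz : t1 gz = gz := by
  simp only [gz, map_mul, map_inv, t1_ga, t1_gb]
  group

theorem t2_gz : t2 gz = gz := by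
  simp only [gz, map_mul, map_inv, t2_ga, t2_gb]
  group

private theorem t1_pow_ga (n : ℕ) : (t1 ^ n) ga = ga := by
  induction n with
  | zero => simp
  | succ n ih => rw [pow_succ, MulAut.mul_apply, t1_ga, ih]

private theorem t1_pow_gb (n : ℕ) : (t1 ^ n) gb = gb * ga ^ n := by
  induction n with
  | zero => simp
  | succ n ih => rw [pow_succ, MulAut.mul_apply, t1_gb, map_mul, ih, t1_pow_ga, pow_succ, mul_assoc]

private theorem t2_pow_gb (n : ℕ) : (t2 ^ n) gb = gb := by
  induction n with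
  | zero => simp
  | succ n ih => rw [pow_succ, MulAut.mul_apply, t2_gb, ih]

private theorem t2_pow_ga (n : ℕ) : (t2 ^ n) ga = ga * gb ^ n := by
  induction n with
  | zero => simp
  | succ n ih => rw [pow_succ, MulAut.mul_apply, t2_ga, map_mul, ih, t2_pow_gb, pow_succ, mul_assoc]

/-- exponent sum of `ga` -/
private def exA : A →* Multiplicative ℤ := FreeGroup.lift ![Multiplicative.ofAdd 1, 1]

private theorem exA_ga : exA ga = Multiplicative.ofAdd 1 := by simp [exA, ga]
private theorem exA_gb : exA gb = 1 := by simp [exA, gb]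

theorem comm_t_ne (n : ℕ) (hn : 0 < n) : t1 ^ n * t2 ^ n * (t1 ^ n)⁻¹ * (t2 ^ n)⁻¹ ≠ 1 := by
  intro h
  have h1 : t1 ^ n * t2 ^ n = t2 ^ n * t1 ^ n := by
    rw [mul_inv_eq_one, mul_inv_eq_iff_eq_mul] at h
    exact h
  have h2 := DFunLike.congr_fun h1 ga
  rw [MulAut.mul_apply, MulAut.mul_apply, t2_pow_ga, t1_pow_ga, t2_pow_ga, map_mul, map_pow, t1_pow_ga,
    t1_pow_gb] at h2
  have h3 := congrArg exA h2
  simp only [map_mul, map_pow, exA_ga, exA_gb, one_pow, mul_one, one_mul] at h3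
  have h4 := congrArg Multiplicative.toAdd h3
  simp only [toAdd_mul, toAdd_pow, toAdd_ofAdd, smul_eq_mul, mul_one, nsmul_eq_mul] at h4
  have : (0 : ℤ) < n := by exact_mod_cast hn
  nlinarith

theorem exists_pow (H : Subgroup (MulAut A)) (h : H.relIndex G0 ≠ 0) (x : MulAut A) (hx : x ∈ G0) :
    ∃ n : ℕ, 0 < n ∧ x ^ n ∈ H := by
  obtain ⟨n, hn, -, hn2⟩ := Subgroup.exists_pow_mem_of_relIndex_ne_zero h hx
  exact ⟨n, hn, hn2.1⟩

theorem conj_mem_G0 (g : A) : MulAut.conj g ∈ G0 :=
  Subgroup.mem_sup_right ⟨g, rfl⟩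

theorem t1_mem : t1 ∈ G0 := Subgroup.mem_sup_left (Subgroup.subset_closure (by simp))

theorem t2_mem : t2 ∈ G0 := Subgroup.mem_sup_left (Subgroup.subset_closure (by simp))

end Pool.Agent.Helper46.OF
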