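import Pool.Agent.Helper46.OF.CADefs
import Pool.Agent.Helper46.OF.GP1

/-! # OFG-CA1 (0.5h): finite index and finite generation
ca_index: K0 H σ is the kernel of a hom from H to the finite group Q, so it has finite index in H; its image HQ in MulAut A has (HQ).relIndex H ≠ 0
(Subgroup.relIndex / subgroupOf of a map of the subtype), and relIndex_mul_relIndex (HQ ≤ H ≤ G0) gives (HQ).relIndex G0 ≠ 0.
aa1_index: AA1 = HQ.comap conj, index of a comap = HQ.relIndex (range conj) (Subgroup.index_comap), and range conj = Inn ≤ G0 (GP1: conj_mem_G0), relIndex monotone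
(Subgroup.relIndex_dvd_of_le_left or relIndex_ne_zero ... : finite index in G0 implies finite index in a subgroup of G0).
p0_fg: A = FreeGroup (Fin 2) is f.g., so its finite index subgroup AA1 is (Mathlib/GroupTheory/Schreier.lean: Subgroup.fg_of_index_ne_zero), and so is the range (Group.fg_range or Subgroup.FG.map). -/

set_option autoImplicit false
namespace Pool.Agent.Helper46.OF
open Pool.Agent.Helper96.OF

variable {Q Y : Type} [Group Q] [MulAction Q Y] (H : Subgroup (MulAut A)) (σ : H →* SD Q Y)

private theorem ca1_relIndex [Finite Q] : (HQ H σ).relIndex H ≠ 0 := by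
  have h1 : (HQ H σ).subgroupOf H = K0 H σ :=
    Subgroup.comap_map_eq_self_of_injective (Subgroup.subtype_injective H) _
  unfold Subgroup.relIndex
  rw [h1]
  unfold K0
  rw [Subgroup.index_ker]
  exact Nat.card_pos.ne'

theorem ca_index [Finite Q] (hH : H ≤ G0) (hfin : H.relIndex G0 ≠ 0) : (HQ H σ).relIndex G0 ≠ 0 := by
  rw [← Subgroup.relIndex_mul_relIndex (HQ H σ) H G0 (HQ_le H σ) hH]
  exact mul_ne_zero (ca1_relIndex H σ) hfin

theorem aa1_index [Finite Q] (hH : H ≤ G0) (hfin : H.relIndex G0 ≠ 0) : (AA1 H σ).index ≠ 0 := by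
  have h1 : (AA1 H σ).index = (HQ H σ).relIndex (MulAut.conj : A →* MulAut A).range :=
    Subgroup.index_comap _ _
  rw [h1]
  intro h2
  refine ca_index H σ hH hfin (Subgroup.relIndex_eq_zero_of_le_right ?_ h2)
  rintro x ⟨g, rfl⟩
  exact conj_mem_G0 g

theorem p0_fg [Finite Q] (hH : H ≤ G0) (hfin : H.relIndex G0 ≠ 0) : (p0 H σ).range.FG := by
  have : (AA1 H σ).FiniteIndex := ⟨aa1_index H σ hH hfin⟩
  have : Group.FG (AA1 H σ) := inferInstance
  exact (Group.fg_iff_subgroup_fg _).1 (Group.fg_range (p0 H σ))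

end Pool.Agent.Helper46.OF
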