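import Pool.Agent.Helper46.OF.GDefs

/-! # OFG-KS2 (1h): conjugating a fixed element by g of minimal length in its coset
w ≠ 1, |g| ≤ |g w|, |g| ≤ |g w⁻¹|.  Then the reduced word of g w g⁻¹ has a prefix p with |g⁻¹ p| ≤ |w| (indeed g = p · suffix).
Proof: write wd g = g1 ++ p⁻¹, wd w = p ++ r (p = maximal cancellation), so wd (g w) = g1 ++ r, |g w| = |g| + |w| - 2|p| ≥ |g| gives |p| ≤ |w|/2. The same for
g w⁻¹: wd w⁻¹ = q⁻¹ ++ r', wd g = g2 ++ q, i.e. wd w = r'⁻¹ ++ q, q maximal with wd g = g2 ++ q, |q| ≤ |w|/2.
If |p| + |q| < |w|: w = p m q, m ≠ [], and g w g⁻¹ = g1 ++ m ++ g2⁻¹ is reduced: prefix g1, g⁻¹ g1 = p (length ≤ |w|).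
If |p| + |q| = |w|: |p| = |q|, w = p q, g ends with p⁻¹ and with q, of the same length: q = p⁻¹, w = 1, contradiction. -/

set_option autoImplicit false
namespace Pool.Agent.Helper46.OF

open FreeGroup

private theorem wd_red {Y : Type} (x : FreeGroup Y) : IsReduced (wd x) := by
  classical
  exact isReduced_toWord

private theorem mk_wd {Y : Type} (x : FreeGroup Y) : mk (wd x) = x := by
  classical
  exact mk_toWord

private theorem wd_mk {Y : Type} {L : List (Y × Bool)} (h : IsReduced L) : wd (mk L) = L := by
  classical
  rw [wd, toWord_mk, h.reduce_eq]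

private theorem wd_mk_le {Y : Type} (L : List (Y × Bool)) : (wd (mk L)).length ≤ L.length := by
  classical
  exact norm_mk_le

private theorem wd_inv {Y : Type} (x : FreeGroup Y) : wd x⁻¹ = invRev (wd x) := by
  classical
  exact toWord_inv x

private theorem cancel_list {Y : Type} : ∀ (L₂ L₁ : List (Y × Bool)), IsReduced L₁ → IsReduced L₂ →
    ∃ a p b : List (Y × Bool), L₁ = a ++ invRev p ∧ L₂ = p ++ b ∧ IsReduced (a ++ b)
  | [], L₁, h1, _ => ⟨L₁, [], [], by simp [invRev], by simp, by simpa using h1⟩
  | c :: L₂, L₁, h1, h2 => by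
    rcases List.eq_nil_or_concat L₁ with h | ⟨L₁', d, hd⟩
    · subst h
      exact ⟨[], [], c :: L₂, by simp [invRev], by simp, by simpa using h2⟩
    · rw [List.concat_eq_append] at hd
      subst hd
      by_cases hdc : d.1 = c.1 → d.2 = c.2
      · refine ⟨L₁' ++ [d], [], c :: L₂, by simp [invRev], by simp, ?_⟩
        unfold FreeGroup.IsReduced at *
        refine List.isChain_append.2 ⟨h1, h2, ?_⟩
        intro x hx y hy
        simp only [List.getLast?_append, List.getLast?_singleton, Option.some_or, Option.mem_def,
          Option.some.injEq, List.head?_cons] at hx hy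
        subst hx hy
        exact hdc
      · push Not at hdc
        obtain ⟨hd1, hd2⟩ := hdc
        have h1' : IsReduced L₁' := (List.isChain_append.1 h1).1
        have h2' : IsReduced L₂ := (List.isChain_append.1 (show IsReduced ([c] ++ L₂) from h2)).2.1
        obtain ⟨a, p, b, e1, e2, e3⟩ := cancel_list L₂ L₁' h1' h2'
        refine ⟨a, c :: p, b, ?_, by rw [e2]; simp, e3⟩
        rw [e1, invRev_cons]
        have : [d] = invRev [c] := by
          have e : d = (c.1, !c.2) := by
            apply Prod.ext
            · exact hd1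
            · show d.2 = !c.2
              cases h5 : d.2 <;> cases h6 : c.2 <;> simp_all
          rw [e]
          simp [invRev]
        rw [this]
        simp

private theorem cancel_mul {Y : Type} (x y : FreeGroup Y) : ∃ a p b : List (Y × Bool),
    wd x = a ++ invRev p ∧ wd y = p ++ b ∧ wd (x * y) = a ++ b := by
  obtain ⟨a, p, b, e1, e2, e3⟩ := cancel_list (wd y) (wd x) (wd_red x) (wd_red y)
  refine ⟨a, p, b, e1, e2, ?_⟩
  have h : x * y = mk (a ++ b) := by
    rw [← mk_wd x, ← mk_wd y, e1, e2]
    simp only [← mul_mk]
    rw [← inv_mk]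
    group
  rw [h, wd_mk e3]

theorem ks_conj {Y : Type} (g w : FreeGroup Y) (hw : w ≠ 1)
    (h1 : (wd g).length ≤ (wd (g * w)).length) (h2 : (wd g).length ≤ (wd (g * w⁻¹)).length) :
    ∃ p s : List (Y × Bool), wd (g * w * g⁻¹) = p ++ s ∧
      (wd (g⁻¹ * FreeGroup.mk p)).length ≤ (wd w).length := by
  obtain ⟨g1, p, r, a1, a2, a3⟩ := cancel_mul g w
  obtain ⟨g2, q', r', b1, b2, b3⟩ := cancel_mul g w⁻¹
  have hwq : wd w = invRev r' ++ invRev q' := by
    have := wd_inv w⁻¹
    rw [inv_inv, b2, invRev_append] at this
    exact this
  have e := a2.symm.trans hwq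
  have hp : p.length ≤ r.length := by
    rw [a1, a3] at h1
    simp only [List.length_append, invRev_length] at h1
    omega
  have hq : q'.length ≤ r'.length := by
    rw [b1, b3] at h2
    simp only [List.length_append, invRev_length] at h2
    omega
  have hlen : p.length + r.length = r'.length + q'.length := by
    have := congrArg List.length e
    simpa [invRev_length] using this
  rcases lt_or_ge (p.length + q'.length) (wd w).length with hlt | hge
  · -- the middle part
    have hwl : (wd w).length = p.length + r.length := by rw [a2]; simp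
    rcases List.append_eq_append_iff.1 e with ⟨m, hm1, hm2⟩ | ⟨m, hm1, hm2⟩
    · -- invRev r' = p ++ m, r = m ++ invRev q'
      have hm : m ≠ [] := by
        rintro rfl
        have := congrArg List.length hm2
        simp [invRev_length] at this
        omega
      have c1 : IsReduced (g1 ++ m) := by
        have := wd_red (g * w)
        rw [a3, hm2] at this
        have h0 : IsReduced ((g1 ++ m) ++ invRev q') := by rw [List.append_assoc]; exact this
        exact (List.isChain_append.1 h0).1
      have c2 : IsReduced (m ++ invRev g2) := by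
        have h3 := wd_red (g * w⁻¹)⁻¹
        rw [wd_inv, b3, invRev_append, hm1] at h3
        have h0 : IsReduced (p ++ (m ++ invRev g2)) := by rw [← List.append_assoc]; exact h3
        exact (List.isChain_append.1 h0).2.1
      have c3 := c1.append_overlap c2 hm
      have h4 : g * w * g⁻¹ = mk (g1 ++ m ++ invRev g2) := by
        rw [← mk_wd (g * w), a3, hm2]
        nth_rewrite 1 [← mk_wd g]
        rw [b1, inv_mk, invRev_append]
        simp only [← mul_mk]
        rw [invRev_invRev]
        have : mk (invRev q') = (mk q')⁻¹ := by rw [inv_mk]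
        rw [this]
        group
      refine ⟨g1, m ++ invRev g2, ?_, ?_⟩
      · rw [h4, wd_mk c3]; simp
      · have h5 : g⁻¹ * mk g1 = mk p := by
          nth_rewrite 1 [← mk_wd g]
          rw [a1, ← mul_mk, ← inv_mk]
          group
        rw [h5, hwl]
        exact (wd_mk_le p).trans (by omega)
    · -- p = invRev r' ++ m
      exfalso
      have := congrArg List.length hm1
      simp [invRev_length] at this
      omega
  · exfalso
    have hwl : (wd w).length = p.length + r.length := by rw [a2]; simp
    have hpq : p.length = r'.length ∧ r.length = q'.length ∧ p.length = q'.length := by omega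
    have h3 := List.append_inj e (by rw [invRev_length]; exact hpq.1)
    have h4 := (a1.symm.trans b1)
    have h5 := List.append_inj' h4 (by rw [invRev_length, invRev_length]; exact hpq.2.2)
    apply hw
    have h6 := invRev_injective h5.2
    rw [← mk_wd w, a2, h3.2, ← h6, ← mul_mk, ← inv_mk]
    group

end Pool.Agent.Helper46.OF
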