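import Pool.Agent.Helper46.OF.KS1
import Pool.Agent.Helper46.OF.KS2

/-! # OFG-KS3 (0.8h): a f.g. nontrivial normal subgroup of a subgroup P of a free group of finite rank has finite index in P
ell from ks_prefix, w0 ∈ F, w0 ≠ 1.  Let g ∈ P have minimal length in the coset gF (= Fg since F is normalised by P).  g w0^{±1} ∈ gF, so ks_conj applies: the reduced word
of g w0 g⁻¹ ∈ F has a prefix p with |g⁻¹ p| ≤ |w0|; ks_prefix: p = f u, |u| ≤ ell, f ∈ F.  So f⁻¹ g = u (p⁻¹ g), of length ≤ ell + |w0|, and f⁻¹ g = g (g⁻¹ f⁻¹ g) ∈ gF; minimality: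
|g| ≤ ell + |w0|.  There are finitely many elements of length ≤ ell + |w0| (Y finite; words of bounded length: `List.finite_length_le`, wd injective).  So
P/F has finitely many cosets: F.relIndex P ≠ 0 (index of F.subgroupOf P; `Subgroup.index_ne_zero_of_finite`, a surjection from a finite set of representatives).
(length of products: |x y| ≤ |x| + |y|: FreeGroup.norm_mul_le.) -/

set_option autoImplicit false
namespace Pool.Agent.Helper46.OF

private theorem ks3_mul {Y : Type} (x y : FreeGroup Y) :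
    (wd (x * y)).length ≤ (wd x).length + (wd y).length := by
  classical
  exact FreeGroup.norm_mul_le x y

private theorem ks3_inv {Y : Type} (x : FreeGroup Y) :
    (wd x⁻¹).length = (wd x).length := by
  classical
  exact FreeGroup.norm_inv_eq (x := x)

private theorem ks3_inj {Y : Type} : Function.Injective (wd : FreeGroup Y → List (Y × Bool)) := by
  classical
  exact FreeGroup.toWord_injective

theorem ks {Y : Type} [Finite Y] (P F : Subgroup (FreeGroup Y)) (hFP : F ≤ P)
    (hn : ∀ p ∈ P, ∀ x ∈ F, p * x * p⁻¹ ∈ F) (hfg : F.FG) (h1 : F ≠ ⊥) : F.relIndex P ≠ 0 := by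
  classical
  obtain ⟨ell, hell⟩ := ks_prefix F hfg
  obtain ⟨w0, hw0F, hw0⟩ : ∃ w0 ∈ F, w0 ≠ 1 := by
    rcases F.bot_or_exists_ne_one with h | h
    · exact absurd h h1
    · exact h
  have key : ∀ g ∈ P, ∃ g' : FreeGroup Y, (wd g').length ≤ ell + (wd w0).length ∧ g⁻¹ * g' ∈ F := by
    intro g hg
    have hex : ∃ k : ℕ, ∃ g' : FreeGroup Y, g⁻¹ * g' ∈ F ∧ (wd g').length = k :=
      ⟨_, g, by simpa using F.one_mem, rfl⟩
    obtain ⟨g', hg', hk⟩ := Nat.find_spec hex
    have hg'P : g' ∈ P := by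
      have := P.mul_mem hg (hFP hg')
      simpa using this
    have hmin : ∀ x ∈ F, (wd g').length ≤ (wd (g' * x)).length := by
      intro x hx
      rw [hk]
      apply Nat.find_min' hex
      refine ⟨g' * x, ?_, rfl⟩
      rw [← mul_assoc]
      exact F.mul_mem hg' hx
    obtain ⟨p, s, hps, hlen⟩ := ks_conj g' w0 hw0 (hmin _ hw0F) (hmin _ (F.inv_mem hw0F))
    obtain ⟨f, hf, hfl⟩ := hell _ (hn g' hg'P w0 hw0F) p s hps
    have hmem : g'⁻¹ * f⁻¹ * g' ∈ F := by
      have := hn g'⁻¹ (P.inv_mem hg'P) f⁻¹ (F.inv_mem hf)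
      rwa [inv_inv] at this
    have h3 := hmin _ hmem
    have h4 : g' * (g'⁻¹ * f⁻¹ * g') = (f⁻¹ * FreeGroup.mk p) * (g'⁻¹ * FreeGroup.mk p)⁻¹ := by group
    rw [h4] at h3
    have h5 := ks3_mul (f⁻¹ * FreeGroup.mk p) (g'⁻¹ * FreeGroup.mk p)⁻¹
    rw [ks3_inv] at h5
    exact ⟨g', by omega, hg'⟩
  have hfin : {x : FreeGroup Y | (wd x).length ≤ ell + (wd w0).length}.Finite := by
    have := List.finite_length_le (Y × Bool) (ell + (wd w0).length)
    exact this.preimage (ks3_inj.injOn)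
  have : Finite {x : FreeGroup Y | (wd x).length ≤ ell + (wd w0).length} := hfin
  have key2 : ∀ c : P ⧸ (F.subgroupOf P), ∃ g' : FreeGroup Y, (wd g').length ≤ ell + (wd w0).length ∧
      ∀ g : P, (QuotientGroup.mk g : P ⧸ (F.subgroupOf P)) = c → (g : FreeGroup Y)⁻¹ * g' ∈ F := by
    intro c
    obtain ⟨g, rfl⟩ := QuotientGroup.mk_surjective c
    obtain ⟨g', h1, h2⟩ := key g g.2
    refine ⟨g', h1, ?_⟩
    intro k hk
    have h3 : (k⁻¹ * g : P) ∈ F.subgroupOf P := QuotientGroup.eq.1 hk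
    have h4 : (k : FreeGroup Y)⁻¹ * g ∈ F := by
      simpa [Subgroup.mem_subgroupOf] using h3
    have := F.mul_mem h4 h2
    rwa [mul_assoc, mul_inv_cancel_left] at this
  choose r hr1 hr2 using key2
  have hinj : Function.Injective (fun c : P ⧸ (F.subgroupOf P) =>
      (⟨r c, hr1 c⟩ : {x : FreeGroup Y | (wd x).length ≤ ell + (wd w0).length})) := by
    intro c d hcd
    have hcd' : r c = r d := congrArg Subtype.val hcd
    obtain ⟨g, rfl⟩ := QuotientGroup.mk_surjective c
    obtain ⟨k, rfl⟩ := QuotientGroup.mk_surjective d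
    have h1 := hr2 _ g rfl
    have h2 := hr2 _ k rfl
    rw [← hcd'] at h2
    apply QuotientGroup.eq.2
    rw [Subgroup.mem_subgroupOf]
    have := F.mul_mem h1 (F.inv_mem h2)
    simp only [mul_inv_rev, inv_inv] at this
    rw [mul_assoc, mul_inv_cancel_left] at this
    simpa using this
  have : Finite (P ⧸ (F.subgroupOf P)) := Finite.of_injective _ hinj
  exact Subgroup.index_ne_zero_of_finite

end Pool.Agent.Helper46.OF
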