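import Pool.Agent.Helper46.OF.CA1
import Pool.Agent.Helper46.OF.KS3

/-! # OFG-CA2 (0.8h): F = π(H_Q ∩ Inn) has finite index in P = π(H_Q), and M·Inn has finite index in G0
ca_ks: apply `ks` to P := (pi0 H σ).range, F := (p0 H σ).range.  F ≤ P: p0 g = pi0 ⟨⟨conj g, _⟩, _⟩.  F is normalised by P: for x ∈ K0, g ∈ AA1: (x : MulAut A) * conj g * x⁻¹ = conj (x g), which is in HQ
(HQ_conj), so x g ∈ AA1 and pi0 x * p0 g * (pi0 x)⁻¹ = p0 ⟨x g, _⟩.  F.FG: p0_fg.
ca_m2: H' := {x ∈ HQ | π x ∈ F} = ((p0 H σ).range.comap (pi0 H σ)) mapped to MulAut A: finite index in HQ (index of comap = relIndex of the range: Subgroup.index_comap), hence in G0 (ca_index).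
H' ≤ MM ⊔ Inn: π x = p0 g = π (conj g) => x * (conj g)⁻¹ ∈ MM (pi0_eq_one), so x ∈ MM ⊔ Inn.  A larger subgroup has finite index: relIndex_ne_zero of H' ≤ MM ⊔ Inn
(Subgroup.relIndex_dvd_of_le_left / relIndex antitone). -/

set_option autoImplicit false
namespace Pool.Agent.Helper46.OF
open Pool.Agent.Helper96.OF

variable {Q Y : Type} [Group Q] [MulAction Q Y] (H : Subgroup (MulAut A)) (σ : H →* SD Q Y)

/-- `ad_g` as an element of `K0` -/
private def adK (g : AA1 H σ) : K0 H σ :=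
  ⟨⟨MulAut.conj (g : A), HQ_le H σ g.2⟩, by
    obtain ⟨h, h1⟩ := (mem_HQ H σ _).1 g.2
    exact (mem_K0 H σ _).2 h1⟩

private theorem p0_eq_pi0 (g : AA1 H σ) : p0 H σ g = pi0 H σ (adK H σ g) := rfl

private theorem conj_aut (x : MulAut A) (g : A) :
    x * MulAut.conj g * x⁻¹ = MulAut.conj (x g) := by
  apply MulEquiv.ext
  intro y
  simp [MulAut.mul_apply, MulAut.conj_apply]

theorem ca_ks [Finite Q] [Finite Y] (hH : H ≤ G0) (hfin : H.relIndex G0 ≠ 0) (hne : (p0 H σ).range ≠ ⊥) :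
    (p0 H σ).range.relIndex (pi0 H σ).range ≠ 0 := by
  apply ks
  · rintro _ ⟨g, rfl⟩
    exact ⟨adK H σ g, rfl⟩
  · rintro _ ⟨x, rfl⟩ _ ⟨g, rfl⟩
    have hmem : ((x : H) : MulAut A) (g : A) ∈ AA1 H σ := by
      rw [mem_AA1, ← conj_aut]
      exact HQ_conj H σ x.1.2 ((mem_AA1 H σ _).1 g.2)
    refine ⟨⟨((x : H) : MulAut A) (g : A), hmem⟩, ?_⟩
    rw [p0_eq_pi0, p0_eq_pi0, ← map_mul, ← map_inv, ← map_mul]
    congr 1
    apply Subtype.ext
    apply Subtype.ext
    exact (conj_aut _ _).symm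
  · exact p0_fg H σ hH hfin
  · exact hne

theorem ca_m2 [Finite Q] [Finite Y] (hH : H ≤ G0) (hfin : H.relIndex G0 ≠ 0) (hne : (p0 H σ).range ≠ ⊥) :
    (MM H σ ⊔ Inn).relIndex G0 ≠ 0 := by
  set K1 : Subgroup (K0 H σ) := (p0 H σ).range.comap (pi0 H σ) with hK1
  set j : K0 H σ →* MulAut A := H.subtype.comp (K0 H σ).subtype with hj
  have hjinj : Function.Injective j := by
    rw [hj]
    exact (Subtype.val_injective).comp Subtype.val_injective
  have hjr : j.range = HQ H σ := by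
    rw [hj, MonoidHom.range_comp, Subgroup.range_subtype]
    rfl
  -- K1 has finite index
  have h1 : K1.index ≠ 0 := by
    rw [hK1, Subgroup.index_comap]
    exact ca_ks H σ hH hfin hne
  have h2 : (K1.map j).relIndex (HQ H σ) ≠ 0 := by
    rw [← hjr, MonoidHom.range_eq_map, Subgroup.relIndex_map_map_of_injective _ _ hjinj,
      Subgroup.relIndex_top_right]
    exact h1
  have h3 : (K1.map j).relIndex G0 ≠ 0 := by
    have hle : K1.map j ≤ HQ H σ := by
      rw [← hjr, MonoidHom.range_eq_map]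
      exact Subgroup.map_mono le_top
    have hle2 : HQ H σ ≤ G0 := (HQ_le H σ).trans hH
    rw [← Subgroup.relIndex_mul_relIndex _ _ _ hle hle2]
    exact mul_ne_zero h2 (ca_index H σ hH hfin)
  have h4 : K1.map j ≤ MM H σ ⊔ Inn := by
    rintro _ ⟨x, ⟨g, hg⟩, rfl⟩
    rw [p0_eq_pi0] at hg
    have h5 : pi0 H σ (x * (adK H σ g)⁻¹) = 1 := by
      rw [map_mul, map_inv, hg, mul_inv_cancel]
    have h6 := (pi0_eq_one H σ _).1 h5
    have h7 : j x * (MulAut.conj (g : A))⁻¹ ∈ MM H σ := by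
      rw [mem_MM]
      refine ⟨?_, ?_⟩
      · exact H.mul_mem x.1.2 (H.inv_mem (HQ_le H σ g.2))
      · exact h6
    have h8 : j x = j x * (MulAut.conj (g : A))⁻¹ * MulAut.conj (g : A) := by group
    rw [h8]
    exact Subgroup.mul_mem _ (Subgroup.mem_sup_left h7) (Subgroup.mem_sup_right ⟨g, rfl⟩)
  exact fun h => h3 (Nat.eq_zero_of_zero_dvd (h ▸ Subgroup.relIndex_dvd_of_le_left G0 h4))

end Pool.Agent.Helper46.OF
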