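import Pool.Agent.Helper46.OF.CA2

/-! # OFG-CA3 (0.5h): condition (M4)
q ∈ H fixes gz, σ q has infinite order.  q^i ∈ K0 for some i ≥ 1 (i := Nat.card Q; (σ (q^i)).right = (σ q).right^i = 1); pi0 (q^i) ∈ P := (pi0).range; F := (p0).range has finite index in P (ca_ks), so a positive
power lies in F: (pi0 (q^i))^j ∈ F, j ≥ 1 (F may be not normal as a subgroup of P in the API: Subgroup.exists_pow_mem_of_index_ne_zero or relIndex version).  So with n := i j: q^n ∈ K0 and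
pi0 (q^n) = p0 g0 for a g0 ∈ AA1; σ (q^n) = (σ q)^n ≠ 1 (infinite order), so p0 g0 = pi0 (q^n) ≠ 1 (pi0_eq_one) and g0 ∉ RR1 (p0_eq_one).  m0 := (conj g0)⁻¹ * q^n ∈ MM (pi0 of it is 1).
m0 gz = (conj g0)⁻¹ (q^n gz) = (conj g0)⁻¹ gz = g0⁻¹ gz g0. -/

set_option autoImplicit false
namespace Pool.Agent.Helper46.OF
open Pool.Agent.Helper96.OF

variable {Q Y : Type} [Group Q] [MulAction Q Y] (H : Subgroup (MulAut A)) (σ : H →* SD Q Y)

theorem ca_m4 [Finite Q] [Finite Y] (hH : H ≤ G0) (hfin : H.relIndex G0 ≠ 0) (hne : (p0 H σ).range ≠ ⊥)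
    (q : H) (hq : (q : MulAut A) gz = gz) (hinf : ¬ IsOfFinOrder (σ q)) :
    ∃ m0 ∈ MM H σ, ∃ g0 ∈ AA1 H σ, g0 ∉ RR1 H σ ∧ m0 gz = g0⁻¹ * gz * g0 := by
  have hi : 0 < Nat.card Q := Nat.card_pos
  have hqi : q ^ (Nat.card Q) ∈ K0 H σ := by
    rw [mem_K0, map_pow]
    have h1 : (σ q ^ (Nat.card Q)).right = (σ q).right ^ (Nat.card Q) :=
      map_pow (SemidirectProduct.rightHom : SD Q Y →* Q) (σ q) (Nat.card Q)
    rw [h1]
    exact pow_card_eq_one'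
  obtain ⟨j, hj, -, hmem⟩ := Subgroup.exists_pow_mem_of_relIndex_ne_zero
    (ca_ks H σ hH hfin hne) (a := pi0 H σ ⟨q ^ (Nat.card Q), hqi⟩) ⟨_, rfl⟩
  obtain ⟨g0, hg0⟩ := hmem.1
  obtain ⟨k, hkdef⟩ : ∃ k : K0 H σ, k = (⟨q ^ (Nat.card Q), hqi⟩ : K0 H σ) ^ j := ⟨_, rfl⟩
  have hk : pi0 H σ k = p0 H σ g0 := by rw [hg0, hkdef, map_pow]
  have hkq : (k : H) = q ^ (Nat.card Q * j) := by
    rw [hkdef, pow_mul]; rfl
  have hσ : σ (k : H) ≠ 1 := by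
    intro h
    apply hinf
    rw [hkq, map_pow] at h
    exact isOfFinOrder_iff_pow_eq_one.2 ⟨_, Nat.mul_pos hi hj, h⟩
  have hne1 : p0 H σ g0 ≠ 1 := by
    rw [← hk]
    exact fun h => hσ ((pi0_eq_one H σ k).1 h)
  have hfix : ∀ n : ℕ, ((q ^ n : H) : MulAut A) gz = gz := by
    intro n
    induction n with
    | zero => simp
    | succ n ih =>
      rw [pow_succ, Subgroup.coe_mul, MulAut.mul_apply, hq, ih]
  have hcH : MulAut.conj (g0 : A) ∈ H := HQ_le H σ g0.2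
  have hσeq : σ ⟨MulAut.conj (g0 : A), hcH⟩ = σ k.1 := by
    obtain ⟨hx1, hx⟩ := (mem_HQ H σ _).1 g0.2
    apply SemidirectProduct.ext
    · exact hk.symm
    · rw [(mem_K0 H σ k.1).1 k.2]
      exact hx
  refine ⟨(MulAut.conj (g0 : A))⁻¹ * ((k : H) : MulAut A), ?_, g0, g0.2,
    fun h => hne1 ((p0_eq_one H σ g0).2 h), ?_⟩
  · rw [mem_MM]
    refine ⟨H.mul_mem (H.inv_mem hcH) k.1.2, ?_⟩
    change σ ((⟨MulAut.conj (g0 : A), hcH⟩ : H)⁻¹ * k.1) = 1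
    rw [map_mul, map_inv, hσeq, inv_mul_cancel]
  · rw [MulAut.mul_apply, hkq, hfix, ← map_inv, MulAut.conj_apply, inv_inv]

end Pool.Agent.Helper46.OF
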