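import Pool.Agent.Helper46.OF.GDefs

/-! # OFG-FG4: a f.g. nonabelian subgroup of a free group has a finite basis with two elements -/

set_option autoImplicit false
namespace Pool.Agent.Helper46.OF

theorem finite_of_fg (ι : Type) (h : Group.FG (FreeGroup ι)) : Finite ι := by
  let φ : FreeGroup ι →* Multiplicative (ι →₀ ℤ) :=
    FreeGroup.lift (fun i => Multiplicative.ofAdd (Finsupp.single i (1:ℤ)))
  have hsurj : Function.Surjective φ := by
    intro f
    have key : ∀ g : ι →₀ ℤ, ∃ w, φ w = Multiplicative.ofAdd g := by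
      intro g
      induction g using Finsupp.induction_linear with
      | zero => exact ⟨1, by simp⟩
      | add a b ha hb =>
        obtain ⟨x, hx⟩ := ha
        obtain ⟨y, hy⟩ := hb
        exact ⟨x * y, by rw [map_mul, hx, hy, ofAdd_add]⟩
      | single i n =>
        refine ⟨(FreeGroup.of i) ^ n, ?_⟩
        rw [map_zpow]
        have h1 : φ (FreeGroup.of i) = Multiplicative.ofAdd (Finsupp.single i (1:ℤ)) :=
          FreeGroup.lift_apply_of
        rw [h1, ← ofAdd_zsmul]
        congr 1
        simp
    exact key f.toAdd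
  have h1 : Group.FG (Multiplicative (ι →₀ ℤ)) := Group.fg_of_surjective hsurj
  have h2 : AddGroup.FG (ι →₀ ℤ) := AddGroup.fg_iff_mul_fg.2 h1
  have h3 : Module.Finite ℤ (ι →₀ ℤ) := Module.Finite.iff_addGroup_fg.2 h2
  exact Module.Finite.finite_basis (Finsupp.basisSingleOne (R := ℤ) (ι := ι))

private theorem FG4_comm (ι : Type) (h : ∀ i j : ι, i = j) (x y : FreeGroup ι) : Commute x y := by
  have h1 : ∀ (j : ι) (x : FreeGroup ι), Commute x (FreeGroup.of j) := by
    intro j x
    induction x using FreeGroup.induction_on with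
    | C1 => exact Commute.one_left _
    | of i => rw [h i j]
    | inv_of i hi => exact hi.inv_left
    | mul a b ha hb => exact ha.mul_left hb
  induction y using FreeGroup.induction_on with
  | C1 => exact Commute.one_right _
  | of i => exact h1 i x
  | inv_of i hi => exact hi.inv_right
  | mul a b ha hb => exact ha.mul_right hb

theorem fg_basis {Y : Type} (F : Subgroup (FreeGroup Y)) (hfg : F.FG) (hnc : ∃ x ∈ F, ∃ y ∈ F, x * y ≠ y * x) :
    ∃ (ι : Type) (_ : Finite ι) (_ : F ≃* FreeGroup ι), ∃ i j : ι, i ≠ j := by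
  have hfree : IsFreeGroup F := subgroupIsFreeOfIsFree F
  let e : F ≃* FreeGroup (IsFreeGroup.Generators F) := IsFreeGroup.toFreeGroup F
  have hF : Group.FG F := (Group.fg_iff_subgroup_fg F).2 hfg
  have hG : Group.FG (FreeGroup (IsFreeGroup.Generators F)) :=
    Group.fg_of_surjective (f := e.toMonoidHom) e.surjective
  refine ⟨IsFreeGroup.Generators F, finite_of_fg _ hG, e, ?_⟩
  by_contra hcon
  push Not at hcon
  obtain ⟨x, hx, y, hy, hxy⟩ := hnc
  apply hxy
  have h1 := (FG4_comm _ hcon (e ⟨x, hx⟩) (e ⟨y, hy⟩)).eq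
  rw [← map_mul, ← map_mul] at h1
  exact congrArg Subtype.val (e.injective h1)

end Pool.Agent.Helper46.OF
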