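import Pool.Agent.Helper46.OF.CA3
import Pool.Agent.Helper46.OF.FG4

/-! # OFG-CA4 (0.9h): consequence of Theorem M for a hom σ : H → F(Y) ⋊ Q
Data: y = conj (gz^N) ∈ H with σ y of finite order; q ∈ H fixing gz with σ q of infinite order; s, s' : A with conj s, conj s' ∈ H_Q and p0 s, p0 s' not commuting.  Conclusion: for every g ∈ AA1:
g⁻¹ * (gz^N * g * gz^(-N)) ∈ RR1.  Apply TheoremM with A1 := AA1 H σ, R := RR1 H σ:
 R ≤ A1 (MM_le); A1.index ≠ 0 (aa1_index); R normalised by A1: conj (g r g⁻¹) = conj g * conj r * (conj g)⁻¹ ∈ MM (MM_conj, conj g ∈ HQ ≤ H);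
 ι, e, i ≠ j from fg_basis for F := (p0 H σ).range (FG: p0_fg; non commuting elements p0 s, p0 s'); p := e.toMonoidHom.comp (p0 H σ).rangeRestrict : A1 →* FreeGroup ι, surjective; p g = 1 ↔ p0 g = 1 ↔ g ∈ R (p0_eq_one);
 M := MM H σ ≤ HQ ≤ H ≤ G0; (M1) m ∈ M, g ∈ A1: conj (g⁻¹ * m g) = (conj g)⁻¹ * (m * conj g * m⁻¹), σ of it is (σ conj g)⁻¹ * 1 * σ (conj g) * 1 = 1;
 (M2) ca_m2 (range ≠ ⊥ since p0 s ≠ 1); (M3) σ y has finite order: (σ y)^n = 1, n > 0, so conj (gz^(N n)) ∈ MM, gz^(N n) ∈ R, and gz^(|N| n) ∈ R (inverse); N ≠ 0 is needed: |N| n > 0 as a natural number;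
 (M4) ca_m4; (M5) conj (gz^N g gz^(-N)) = y * conj g * y⁻¹, y, y⁻¹ ∈ H: HQ_conj, MM_conj in both directions. -/

set_option autoImplicit false
namespace Pool.Agent.Helper46.OF
open Pool.Agent.Helper96.OF

variable {Q Y : Type} [Group Q] [MulAction Q Y] (H : Subgroup (MulAut A)) (σ : H →* SD Q Y)

theorem ca_conj_conj (m : MulAut A) (g : A) : MulAut.conj (m g) = m * MulAut.conj g * m⁻¹ := by
  ext x
  simp [MulAut.mul_apply]

theorem ca_conj_z (N : ℤ) (g : A) : MulAut.conj (gz ^ N * g * gz ^ (-N)) =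
    MulAut.conj (gz ^ N) * MulAut.conj g * (MulAut.conj (gz ^ N))⁻¹ := by
  rw [map_mul, map_mul, zpow_neg, map_inv]

theorem ca_main (hM : TheoremM) [Finite Q] [Finite Y] (hH : H ≤ G0) (hfin : H.relIndex G0 ≠ 0)
    (N : ℤ) (hN : N ≠ 0) (hy : MulAut.conj (gz ^ N) ∈ H) (hell : IsOfFinOrder (σ ⟨MulAut.conj (gz ^ N), hy⟩))
    (q : H) (hq : (q : MulAut A) gz = gz) (hinf : ¬ IsOfFinOrder (σ q))
    (s s' : AA1 H σ) (hss : p0 H σ s * p0 H σ s' ≠ p0 H σ s' * p0 H σ s) :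
    ∀ g ∈ AA1 H σ, g⁻¹ * (gz ^ N * g * gz ^ (-N)) ∈ RR1 H σ := by
  have hne : (p0 H σ).range ≠ ⊥ := by
    intro h
    have h1 : ∀ x : AA1 H σ, p0 H σ x = 1 := fun x => by
      have h2 : p0 H σ x ∈ (p0 H σ).range := ⟨x, rfl⟩
      rw [h, Subgroup.mem_bot] at h2
      exact h2
    apply hss
    rw [h1 s, h1 s']
  obtain ⟨ι, hι, e, i, j, hij⟩ := fg_basis (p0 H σ).range (p0_fg H σ hH hfin)
    ⟨p0 H σ s, ⟨s, rfl⟩, p0 H σ s', ⟨s', rfl⟩, hss⟩
  have hAH : ∀ g ∈ AA1 H σ, MulAut.conj g ∈ H := fun g hg => HQ_le H σ hg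
  refine hM (AA1 H σ) (RR1 H σ) (fun g hg => MM_le H σ hg) (aa1_index H σ hH hfin) ?_ ι hι
    (e.toMonoidHom.comp (p0 H σ).rangeRestrict)
    (e.surjective.comp (MonoidHom.rangeRestrict_surjective _)) ?_ ⟨i, j, hij⟩ (MM H σ)
    ((MM_le H σ).trans ((HQ_le H σ).trans hH)) ?_ (ca_m2 H σ hH hfin hne) ?_
    (ca_m4 H σ hH hfin hne q hq hinf) N ?_ ?_
  · intro g hg r hr
    rw [mem_RR1, map_mul, map_mul, map_inv]
    exact MM_conj H σ (hAH g hg) hr
  · intro g
    rw [← p0_eq_one]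
    simp only [MonoidHom.comp_apply]
    constructor
    · intro h
      have h1 : (p0 H σ).rangeRestrict g = 1 := by
        apply e.injective
        rw [map_one]
        exact h
      exact congrArg Subtype.val h1
    · intro h
      have h1 : (p0 H σ).rangeRestrict g = 1 := Subtype.ext h
      rw [h1, map_one]
  · intro m hm g hg
    rw [mem_RR1, map_mul, map_inv, ca_conj_conj]
    have h1 := MM_conj H σ (H.inv_mem (hAH g hg)) hm
    have h2 := (MM H σ).mul_mem h1 ((MM H σ).inv_mem hm)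
    have h3 : (MulAut.conj g)⁻¹ * m * ((MulAut.conj g)⁻¹)⁻¹ * m⁻¹ =
        (MulAut.conj g)⁻¹ * (m * MulAut.conj g * m⁻¹) := by group
    rw [h3] at h2
    exact h2
  · obtain ⟨n, hn, hpow⟩ := isOfFinOrder_iff_pow_eq_one.mp hell
    have h1 : MulAut.conj (gz ^ (N * (n : ℤ))) ∈ MM H σ := by
      rw [mem_MM]
      have h2 : (⟨MulAut.conj (gz ^ N), hy⟩ : H) ^ n =
          ⟨MulAut.conj (gz ^ (N * (n : ℤ))), by
            rw [zpow_mul, zpow_natCast, map_pow]; exact H.pow_mem hy n⟩ := by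
        apply Subtype.ext
        show (MulAut.conj (gz ^ N)) ^ n = MulAut.conj (gz ^ (N * (n : ℤ)))
        rw [zpow_mul, zpow_natCast, map_pow]
      rw [← map_pow, h2] at hpow
      exact ⟨_, hpow⟩
    refine ⟨N.natAbs * n, Nat.mul_pos (Int.natAbs_pos.mpr hN) hn, ?_⟩
    have h3 : gz ^ (N * (n : ℤ)) ∈ RR1 H σ := h1
    rcases Int.natAbs_eq N with h4 | h4
    · have h5 : gz ^ (N.natAbs * n) = gz ^ (N * (n : ℤ)) := by
        conv_rhs => rw [h4]
        rw [← zpow_natCast]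
        push_cast
        rfl
      rw [h5]; exact h3
    · have h5 : gz ^ (N.natAbs * n) = (gz ^ (N * (n : ℤ)))⁻¹ := by
        conv_rhs => rw [h4]
        rw [← zpow_natCast, ← zpow_neg]
        congr 1
        push_cast
        ring
      rw [h5]; exact (RR1 H σ).inv_mem h3
  · intro g
    rw [mem_AA1, mem_AA1, ca_conj_z]
    constructor
    · intro h
      exact HQ_conj H σ hy h
    · intro h
      have h1 := HQ_conj H σ (H.inv_mem hy) h
      have h2 : (MulAut.conj (gz ^ N))⁻¹ *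
          (MulAut.conj (gz ^ N) * MulAut.conj g * (MulAut.conj (gz ^ N))⁻¹) *
          ((MulAut.conj (gz ^ N))⁻¹)⁻¹ = MulAut.conj g := by group
      rw [h2] at h1
      exact h1
  · intro g
    rw [mem_RR1, mem_RR1, ca_conj_z]
    constructor
    · intro h
      exact MM_conj H σ hy h
    · intro h
      have h1 := MM_conj H σ (H.inv_mem hy) h
      have h2 : (MulAut.conj (gz ^ N))⁻¹ *
          (MulAut.conj (gz ^ N) * MulAut.conj g * (MulAut.conj (gz ^ N))⁻¹) *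
          ((MulAut.conj (gz ^ N))⁻¹)⁻¹ = MulAut.conj g := by group
      rw [h2] at h1
      exact h1

end Pool.Agent.Helper46.OF
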