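import Pool.Agent.Helper46.OF.GDefs

/-! # OFG/CADefs: the subgroups H_Q, M, A1, R of Claim A (I.10) -/

set_option autoImplicit false
namespace Pool.Agent.Helper46.OF
open Pool.Agent.Helper96.OF

section
variable {Q Y : Type} [Group Q] [MulAction Q Y] (H : Subgroup (MulAut A)) (σ : H →* SD Q Y)

/-- `H_Q` as a subgroup of `H` -/
def K0 : Subgroup H := ((SemidirectProduct.rightHom : SD Q Y →* Q).comp σ).ker

/-- `H_Q` -/
def HQ : Subgroup (MulAut A) := (K0 H σ).map H.subtype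

/-- `M = ker σ` -/
def MM : Subgroup (MulAut A) := σ.ker.map H.subtype

/-- `A1` -/
def AA1 : Subgroup A := (HQ H σ).comap MulAut.conj

/-- `R` -/
def RR1 : Subgroup A := (MM H σ).comap MulAut.conj

theorem mem_K0 (x : H) : x ∈ K0 H σ ↔ (σ x).right = 1 := by
  simp [K0, MonoidHom.mem_ker, SemidirectProduct.rightHom]

theorem mem_HQ (x : MulAut A) : x ∈ HQ H σ ↔ ∃ h : x ∈ H, (σ ⟨x, h⟩).right = 1 := by
  constructor
  · rintro ⟨y, hy, rfl⟩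
    exact ⟨y.2, (mem_K0 H σ y).1 hy⟩
  · rintro ⟨h, hx⟩
    exact ⟨⟨x, h⟩, (mem_K0 H σ _).2 hx, rfl⟩

theorem mem_MM (x : MulAut A) : x ∈ MM H σ ↔ ∃ h : x ∈ H, σ ⟨x, h⟩ = 1 := by
  constructor
  · rintro ⟨y, hy, rfl⟩
    exact ⟨y.2, hy⟩
  · rintro ⟨h, hx⟩
    exact ⟨⟨x, h⟩, hx, rfl⟩

theorem HQ_le : HQ H σ ≤ H := fun x hx => ((mem_HQ H σ x).1 hx).1

theorem MM_le : MM H σ ≤ HQ H σ := by
  intro x hx
  obtain ⟨h, h1⟩ := (mem_MM H σ x).1 hx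
  exact (mem_HQ H σ x).2 ⟨h, by rw [h1]; rfl⟩

theorem HQ_conj {h x : MulAut A} (hh : h ∈ H) (hx : x ∈ HQ H σ) : h * x * h⁻¹ ∈ HQ H σ := by
  obtain ⟨y, hy, rfl⟩ := hx
  haveI : (K0 H σ).Normal := by unfold K0; infer_instance
  exact ⟨⟨h, hh⟩ * y * ⟨h, hh⟩⁻¹, Subgroup.Normal.conj_mem this y hy ⟨h, hh⟩, rfl⟩

theorem MM_conj {h x : MulAut A} (hh : h ∈ H) (hx : x ∈ MM H σ) : h * x * h⁻¹ ∈ MM H σ := by
  obtain ⟨y, hy, rfl⟩ := hx
  haveI : (σ.ker).Normal := by infer_instance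
  exact ⟨⟨h, hh⟩ * y * ⟨h, hh⟩⁻¹, Subgroup.Normal.conj_mem this y hy ⟨h, hh⟩, rfl⟩

/-- `π : H_Q → F(Y)` -/
def pi0 : K0 H σ →* FreeGroup Y where
  toFun x := (σ x.1).left
  map_one' := by simp
  map_mul' := by
    intro x y
    have hx := (mem_K0 H σ x.1).1 x.2
    simp [SemidirectProduct.mul_left, hx]

theorem pi0_apply (x : K0 H σ) : pi0 H σ x = (σ x.1).left := rfl

theorem pi0_eq_one (x : K0 H σ) : pi0 H σ x = 1 ↔ σ x.1 = 1 := by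
  have hx := (mem_K0 H σ x.1).1 x.2
  rw [pi0_apply]
  constructor
  · intro h
    exact SemidirectProduct.ext h hx
  · intro h
    rw [h]; rfl

theorem mem_AA1 (g : A) : g ∈ AA1 H σ ↔ MulAut.conj g ∈ HQ H σ := Iff.rfl
theorem mem_RR1 (g : A) : g ∈ RR1 H σ ↔ MulAut.conj g ∈ MM H σ := Iff.rfl

/-- `g ↦ π (ad_g)` on `A1` -/
def p0 : AA1 H σ →* FreeGroup Y where
  toFun g := (σ ⟨MulAut.conj (g : A), HQ_le H σ g.2⟩).left
  map_one' := by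
    have : (⟨MulAut.conj ((1 : AA1 H σ) : A), HQ_le H σ (1 : AA1 H σ).2⟩ : H) = 1 := by
      apply Subtype.ext; simp
    rw [this]; simp
  map_mul' := by
    intro x y
    obtain ⟨hx1, hx⟩ := (mem_HQ H σ _).1 x.2
    have : (⟨MulAut.conj ((x * y : AA1 H σ) : A), HQ_le H σ (x * y).2⟩ : H) =
        ⟨MulAut.conj (x : A), HQ_le H σ x.2⟩ * ⟨MulAut.conj (y : A), HQ_le H σ y.2⟩ := by
      apply Subtype.ext; simp
    rw [this, map_mul, SemidirectProduct.mul_left, hx]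
    simp

theorem p0_eq_one (g : AA1 H σ) : p0 H σ g = 1 ↔ (g : A) ∈ RR1 H σ := by
  obtain ⟨hx1, hx⟩ := (mem_HQ H σ _).1 g.2
  rw [mem_RR1, mem_MM]
  constructor
  · intro h
    exact ⟨hx1, SemidirectProduct.ext h hx⟩
  · rintro ⟨h1, h2⟩
    change (σ _).left = 1
    rw [h2]; rfl

end

end Pool.Agent.Helper46.OF
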