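import Pool.Agent.Helper46.OF.GDefs

/-! # OFG-FG1 (1h): free groups: commutation lemmas
Mathlib has `IsMulTorsionFree (FreeGroup X)` (unique roots: `pow_left_injective`; Mathlib/GroupTheory/FreeGroup/CyclicallyReduced)
and Nielsen-Schreier (`subgroupIsFreeOfIsFree : IsFreeGroup H`).
(1) `comm_cyclic`: a commutative subgroup K of a free group is cyclic: K is free (`IsFreeGroup.toFreeGroup K : K ≃* FreeGroup (Generators)`),
    two different generators of a free group do not commute, so the set of generators is a subsingleton; FreeGroup of an empty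
    type is trivial, FreeGroup of a unique type is `zpowers (of default)`.
(2) `comm_trans`: x ≠ 1, a and b commute with x => a and b commute.  <a,x> is commutative, so <a,x> = <u> by (1), also <b,x> = <w>;
    x = u^i = w^j, i,j ≠ 0.  w^j = x commutes with u, so (u w u⁻¹)^j = w^j and u w u⁻¹ = w by unique roots; a in <u>, b in <w>.
(3) `comm_pow`: n ≠ 0, a commutes with x^n => a commutes with x (unique roots: (a x a⁻¹)^n = x^n).
(4) `comm_conj`: if s commutes with g s g⁻¹ then s commutes with g.  Assume s ≠ 1, g ≠ 1.  C := centralizer of s is commutative by (2), so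
    C = <c> by (1), c ≠ 1.  The centralizer of g s g⁻¹ is g C g⁻¹ and equals C by (2) (g s g⁻¹ ≠ 1 is in C).  So g c g⁻¹ generates <c>:
    g c g⁻¹ = c or c⁻¹ (generators of an infinite cyclic group), so g² commutes with c, g commutes with c by (3) used for
    the pair (c, g) [c commutes with g^2 => c commutes with g]. s in <c>. -/

set_option autoImplicit false
namespace Pool.Agent.Helper46.OF

private theorem gens_subsingleton {ι : Type} (h : ∀ x y : FreeGroup ι, x * y = y * x) :
    Subsingleton ι := by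
  classical
  by_contra hn
  rw [not_subsingleton_iff_nontrivial] at hn
  obtain ⟨i, j, hij⟩ := hn
  let f : ι → Equiv.Perm (Fin 3) := fun k => if k = i then Equiv.swap 0 1 else Equiv.swap 1 2
  have h1 := congrArg (FreeGroup.lift f) (h (FreeGroup.of i) (FreeGroup.of j))
  rw [map_mul, map_mul, FreeGroup.lift_apply_of, FreeGroup.lift_apply_of] at h1
  simp only [f, if_true, if_neg (Ne.symm hij)] at h1
  exact absurd h1 (by decide)

theorem comm_cyclic {X : Type} (K : Subgroup (FreeGroup X)) (h : ∀ x ∈ K, ∀ y ∈ K, x * y = y * x) :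
    ∃ r : FreeGroup X, K = Subgroup.zpowers r := by
  have hfree : IsFreeGroup K := subgroupIsFreeOfIsFree K
  let e : K ≃* FreeGroup (IsFreeGroup.Generators K) := IsFreeGroup.toFreeGroup K
  have hc : ∀ x y : FreeGroup (IsFreeGroup.Generators K), x * y = y * x := by
    intro x y
    have : e.symm x * e.symm y = e.symm y * e.symm x := by
      apply Subtype.ext
      exact h _ (e.symm x).2 _ (e.symm y).2
    have := congrArg e this
    simpa using this
  have hs : Subsingleton (IsFreeGroup.Generators K) := gens_subsingleton hc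
  have hcyc : ∃ r : FreeGroup (IsFreeGroup.Generators K), ∀ x, x ∈ Subgroup.zpowers r := by
    rcases isEmpty_or_nonempty (IsFreeGroup.Generators K) with he | ⟨⟨i⟩⟩
    · refine ⟨1, fun x => ?_⟩
      rw [Subsingleton.elim x 1]
      exact Subgroup.one_mem _
    · have : Unique (IsFreeGroup.Generators K) := { default := i, uniq := fun j => Subsingleton.elim _ _ }
      have hcy : IsCyclic (FreeGroup (IsFreeGroup.Generators K)) := inferInstance
      exact hcy.exists_generator
  obtain ⟨r, hr⟩ := hcyc
  refine ⟨(e.symm r : FreeGroup X), ?_⟩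
  ext x
  constructor
  · intro hx
    obtain ⟨n, hn⟩ := Subgroup.mem_zpowers_iff.mp (hr (e ⟨x, hx⟩))
    rw [Subgroup.mem_zpowers_iff]
    refine ⟨n, ?_⟩
    have := congrArg e.symm hn
    rw [map_zpow, MulEquiv.symm_apply_apply] at this
    have h2 := congrArg (Subtype.val) this
    simpa using h2
  · intro hx
    obtain ⟨n, hn⟩ := Subgroup.mem_zpowers_iff.mp hx
    rw [← hn]
    exact K.zpow_mem (e.symm r).2 n

private theorem zinj {X : Type} {n : ℤ} (hn : n ≠ 0) {x y : FreeGroup X} (h : x ^ n = y ^ n) : x = y := by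
  obtain ⟨m, rfl | rfl⟩ := n.eq_nat_or_neg
  · have hm : m ≠ 0 := by rintro rfl; exact hn rfl
    rw [zpow_natCast, zpow_natCast] at h
    exact pow_left_injective hm h
  · have hm : m ≠ 0 := by rintro rfl; exact hn rfl
    rw [zpow_neg, zpow_neg, zpow_natCast, zpow_natCast, inv_inj] at h
    exact pow_left_injective hm h

private theorem comm_common {X : Type} {a x : FreeGroup X} (h : Commute a x) :
    ∃ (u : FreeGroup X) (i j : ℤ), a = u ^ i ∧ x = u ^ j := by
  have hk : ∀ y ∈ ({a, x} : Set (FreeGroup X)), ∀ z ∈ ({a, x} : Set (FreeGroup X)), y * z = z * y := by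
    rintro y (rfl | rfl) z (rfl | rfl)
    · rfl
    · exact h
    · exact h.symm
    · rfl
  have hcl : ∀ y ∈ Subgroup.closure ({a, x} : Set (FreeGroup X)),
      ∀ z ∈ Subgroup.closure ({a, x} : Set (FreeGroup X)), y * z = z * y := by
    intro y hy z hz
    let inst := Subgroup.closureCommGroupOfComm hk
    have := inst.mul_comm ⟨y, hy⟩ ⟨z, hz⟩
    exact congrArg Subtype.val this
  obtain ⟨u, hu⟩ := comm_cyclic _ hcl
  have ha : a ∈ Subgroup.zpowers u := by rw [← hu]; exact Subgroup.subset_closure (by simp)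
  have hx : x ∈ Subgroup.zpowers u := by rw [← hu]; exact Subgroup.subset_closure (by simp)
  obtain ⟨i, hi⟩ := Subgroup.mem_zpowers_iff.mp ha
  obtain ⟨j, hj⟩ := Subgroup.mem_zpowers_iff.mp hx
  exact ⟨u, i, j, hi.symm, hj.symm⟩

theorem comm_pow {X : Type} {a x : FreeGroup X} {n : ℤ} (hn : n ≠ 0) (h : Commute a (x ^ n)) :
    Commute a x := by
  have h1 : (a * x * a⁻¹) ^ n = x ^ n := by
    rw [conj_zpow, h.eq, mul_inv_cancel_right]
  have h2 := zinj hn h1
  exact mul_inv_eq_iff_eq_mul.mp h2

theorem comm_trans {X : Type} {x a b : FreeGroup X} (hx : x ≠ 1) (h1 : Commute a x) (h2 : Commute b x) :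
    Commute a b := by
  obtain ⟨u, i, j, ha, hxu⟩ := comm_common h1
  obtain ⟨w, k, l, hb, hxw⟩ := comm_common h2
  have hj : j ≠ 0 := by rintro rfl; rw [zpow_zero] at hxu; exact hx hxu
  have hl : l ≠ 0 := by rintro rfl; rw [zpow_zero] at hxw; exact hx hxw
  have c1 : Commute u x := by rw [hxu]; exact (Commute.refl u).zpow_right j
  have c2 : Commute u w := by
    apply comm_pow hl
    rw [← hxw]
    exact c1
  rw [ha, hb]
  exact c2.zpow_zpow i k

theorem comm_conj {X : Type} {s g : FreeGroup X} (h : Commute s (g * s * g⁻¹)) : Commute s g := by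
  by_cases hs : s = 1
  · rw [hs]; exact Commute.one_left g
  have hgs : g * s * g⁻¹ ≠ 1 := by
    intro hc
    apply hs
    rw [mul_inv_eq_one] at hc
    exact mul_eq_left.mp hc
  obtain ⟨c, hc⟩ := comm_cyclic (Subgroup.centralizer {s}) (by
    intro x hx y hy
    have hx' : Commute x s := (Subgroup.mem_centralizer_singleton_iff.mp hx)
    have hy' : Commute y s := (Subgroup.mem_centralizer_singleton_iff.mp hy)
    exact comm_trans hs hx' hy')
  have mem_iff : ∀ d, Commute d s ↔ ∃ n : ℤ, c ^ n = d := by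
    intro d
    rw [← Subgroup.mem_zpowers_iff, ← hc]
    exact Subgroup.mem_centralizer_singleton_iff.symm
  have hcs : Commute c s := (mem_iff c).mpr ⟨1, zpow_one c⟩
  obtain ⟨m, hm⟩ := (mem_iff s).mp (Commute.refl s)
  have hc1 : c ≠ 1 := by rintro rfl; rw [one_zpow] at hm; exact hs hm.symm
  have k1 : Commute (g * c * g⁻¹) s := by
    have e1 : Commute (g * c * g⁻¹) (g * s * g⁻¹) := by
      have := hcs.eq
      change g * c * g⁻¹ * (g * s * g⁻¹) = g * s * g⁻¹ * (g * c * g⁻¹)
      calc g * c * g⁻¹ * (g * s * g⁻¹) = g * (c * s) * g⁻¹ := by group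
        _ = g * (s * c) * g⁻¹ := by rw [this]
        _ = _ := by group
    exact comm_trans hgs e1 h
  have k2 : Commute (g⁻¹ * c * g) s := by
    have e1 : Commute c (g * s * g⁻¹) := comm_trans hs hcs h.symm
    have := e1.eq
    change g⁻¹ * c * g * s = s * (g⁻¹ * c * g)
    calc g⁻¹ * c * g * s = g⁻¹ * (c * (g * s * g⁻¹)) * g := by group
      _ = g⁻¹ * (g * s * g⁻¹ * c) * g := by rw [this]
      _ = _ := by group
  obtain ⟨k, hk⟩ := (mem_iff _).mp k1
  obtain ⟨l, hl⟩ := (mem_iff _).mp k2
  have hkl : c ^ (k * l) = c := by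
    rw [zpow_mul, hk, conj_zpow, hl]
    group
  have hkl1 : k * l = 1 := by
    have h3 : c ^ (k * l - 1) = 1 := by rw [zpow_sub, hkl, zpow_one, mul_inv_cancel]
    by_contra hne
    have : k * l - 1 ≠ 0 := fun h0 => hne (by linarith)
    exact hc1 (zinj this (by rw [h3, one_zpow]))
  have hkk : k * k = 1 := by
    rcases Int.eq_one_or_neg_one_of_mul_eq_one hkl1 with h4 | h4 <;> rw [h4] <;> norm_num
  have hg2 : Commute c (g ^ (2 : ℤ)) := by
    have e2 : g ^ (2 : ℤ) * c * (g ^ (2 : ℤ))⁻¹ = c := by
      calc g ^ (2 : ℤ) * c * (g ^ (2 : ℤ))⁻¹ = g * (g * c * g⁻¹) * g⁻¹ := by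
            rw [zpow_two]; simp only [mul_inv_rev, mul_assoc]
        _ = g * c ^ k * g⁻¹ := by rw [hk]
        _ = (g * c * g⁻¹) ^ k := by rw [conj_zpow]
        _ = (c ^ k) ^ k := by rw [hk]
        _ = c := by rw [← zpow_mul, hkk, zpow_one]
    exact (mul_inv_eq_iff_eq_mul.mp e2).symm
  have hcg : Commute c g := comm_pow (by norm_num) hg2
  rw [← hm]
  exact hcg.zpow_left m

end Pool.Agent.Helper46.OF
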