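import Pool.Agent.Helper46.OF.GDefs

/-! # OFG-FG5 (1h): free groups are residually finite
w ≠ 1 in FreeGroup X with reduced word [x_1,…,x_n] (n ≥ 1, letters x_i = (a_i, s_i)).  For every letter a ∈ X there is a permutation σ_a of Fin (n+1)
with σ_a(i) = i-1 resp. the right direction whenever x_i = (a, true), and σ_a(i-1) = i when x_i = (a,false) (choose orientation so that the word w
maps n to 0, letters being applied from the right to the left): the required values form a partial INJECTION because the word is reduced;
a partial injection of a finite type extends to a permutation (e.g. `Equiv.Perm.extendDomain`/`Function.Embedding.exists_extend`/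
`Equiv.extendSubtype` for finite types).  hom φ : FreeGroup X →* Equiv.Perm (Fin (n+1)), φ(of a) = σ_a, φ(w) n = 0 ≠ n, so φ(w) ≠ 1; N := ker φ has
finite index (`Subgroup.index_ker`, finite range). Other proofs are welcome. -/

set_option autoImplicit false
namespace Pool.Agent.Helper46.OF

theorem rf_free (X : Type) : RF (FreeGroup X) := by
  classical
  intro w hw
  set L : List (X × Bool) := FreeGroup.toWord w with hL
  set n : ℕ := L.length with hn
  have hL0 : L ≠ [] := fun h => hw (FreeGroup.toWord_eq_nil_iff.mp h)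
  have hn0 : 0 < n := List.length_pos_iff.mpr hL0
  have hred : ∀ (i : ℕ) (h : i + 1 < L.length), L[i].1 = L[i + 1].1 → L[i].2 = L[i + 1].2 := by
    have h1 : FreeGroup.IsReduced L := FreeGroup.isReduced_toWord
    unfold FreeGroup.IsReduced at h1
    rw [List.isChain_iff_getElem] at h1
    exact h1
  -- source and target of the letter with index `i`
  let src : Fin n → Fin (n + 1) := fun i => if (L[(i : ℕ)]'i.2).2 then i.succ else i.castSucc
  let tgt : Fin n → Fin (n + 1) := fun i => if (L[(i : ℕ)]'i.2).2 then i.castSucc else i.succ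
  have hinj : ∀ (F : Fin n → Fin (n + 1)) (b : Bool),
      (∀ i, F i = if (L[(i : ℕ)]'i.2).2 = b then i.succ else i.castSucc) →
      ∀ i j : Fin n, (L[(i : ℕ)]'i.2).1 = (L[(j : ℕ)]'j.2).1 → F i = F j → i = j := by
    intro F b hF
    have key : ∀ i j : Fin n, (i : ℕ) < j → (L[(i : ℕ)]'i.2).1 = (L[(j : ℕ)]'j.2).1 → F i ≠ F j := by
      intro i j hij he hFij
      rw [hF i, hF j] at hFij
      by_cases hi : (L[(i : ℕ)]'i.2).2 = b
      · rw [if_pos hi] at hFij
        by_cases hj : (L[(j : ℕ)]'j.2).2 = b
        · rw [if_pos hj] at hFij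
          have := congrArg Fin.val hFij
          simp at this
          omega
        · rw [if_neg hj] at hFij
          have h1 : (i : ℕ) + 1 = j := by
            have := congrArg Fin.val hFij
            simpa using this
          have h2 : (i : ℕ) + 1 < L.length := by rw [h1]; exact j.2
          have h3 := hred i h2
          have h4 : L[(i : ℕ) + 1] = L[(j : ℕ)]'j.2 := by congr 1
          rw [h4] at h3
          exact hj ((h3 he).symm.trans hi)
      · rw [if_neg hi] at hFij
        by_cases hj : (L[(j : ℕ)]'j.2).2 = b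
        · rw [if_pos hj] at hFij
          have := congrArg Fin.val hFij
          simp at this
          omega
        · rw [if_neg hj] at hFij
          have := congrArg Fin.val hFij
          simp at this
          omega
    intro i j he hFij
    rcases lt_trichotomy (i : ℕ) j with h | h | h
    · exact absurd hFij (key i j h he)
    · exact Fin.ext h
    · exact absurd hFij.symm (key j i h he.symm)
  have hsrc := hinj src true (fun i => rfl)
  have htgt := hinj tgt false (fun i => by
    show (if (L[(i : ℕ)]'i.2).2 then i.castSucc else i.succ) = _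
    rcases h : (L[(i : ℕ)]'i.2).2 with _ | _ <;> simp)
  have hσ : ∀ a : X, ∃ σ : Equiv.Perm (Fin (n + 1)), ∀ i : Fin n, (L[(i : ℕ)]'i.2).1 = a →
      σ (src i) = tgt i := by
    intro a
    obtain ⟨σ, h⟩ := Equiv.Perm.exists_extending_pair
      (α := {i : Fin n // (L[(i : ℕ)]'i.2).1 = a})
      (fun i => src i.1) (fun i => tgt i.1)
      (fun i j hij => Subtype.ext (hsrc i.1 j.1 (i.2.trans j.2.symm) hij))
      (fun i j hij => Subtype.ext (htgt i.1 j.1 (i.2.trans j.2.symm) hij))
    exact ⟨σ, fun i hi => h ⟨i, hi⟩⟩
  choose σ hσ using hσ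
  let φ : FreeGroup X →* Equiv.Perm (Fin (n + 1)) := FreeGroup.lift σ
  have hφmk : ∀ (x : X × Bool) (l : List (X × Bool)), φ (FreeGroup.mk (x :: l)) =
      (cond x.2 (σ x.1) (σ x.1)⁻¹) * φ (FreeGroup.mk l) := by
    intro x l
    simp [φ, FreeGroup.lift_mk]
  have hstep : ∀ (k i : ℕ) (_ : i + k = n) (hi : i < n + 1), φ (FreeGroup.mk (L.drop i)) (Fin.last n) =
      ⟨i, hi⟩ := by
    intro k
    induction k with
    | zero =>
      intro i hik hi
      have h1 : L.drop i = [] := List.drop_eq_nil_of_le (by omega)
      rw [h1]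
      have h2 : φ (FreeGroup.mk []) = 1 := by
        simp [φ, FreeGroup.lift_mk]
      rw [h2, Equiv.Perm.one_apply]
      ext
      simp; omega
    | succ k ih =>
      intro i hik hi
      have h1 : i < L.length := by omega
      rw [List.drop_eq_getElem_cons h1, hφmk, Equiv.Perm.mul_apply,
        ih (i + 1) (by omega) (by omega)]
      have h3 := hσ (L[i].1) ⟨i, h1⟩ rfl
      rcases h : L[i].2 with _ | _
      · have h4 : src ⟨i, h1⟩ = ⟨i, hi⟩ := by
          show (if (L[i]'h1).2 then (Fin.succ ⟨i, h1⟩ : Fin (n + 1)) else Fin.castSucc ⟨i, h1⟩) = _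
          rw [h]; rfl
        have h5 : tgt ⟨i, h1⟩ = ⟨i + 1, by omega⟩ := by
          show (if (L[i]'h1).2 then (Fin.castSucc ⟨i, h1⟩ : Fin (n + 1)) else Fin.succ ⟨i, h1⟩) = _
          rw [h]; rfl
        rw [h4, h5] at h3
        simp only [cond_false]
        rw [← h3]
        exact (σ (L[i].1)).symm_apply_apply _
      · have h4 : src ⟨i, h1⟩ = ⟨i + 1, by omega⟩ := by
          show (if (L[i]'h1).2 then (Fin.succ ⟨i, h1⟩ : Fin (n + 1)) else Fin.castSucc ⟨i, h1⟩) = _
          rw [h]; rfl
        have h5 : tgt ⟨i, h1⟩ = ⟨i, hi⟩ := by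
          show (if (L[i]'h1).2 then (Fin.castSucc ⟨i, h1⟩ : Fin (n + 1)) else Fin.succ ⟨i, h1⟩) = _
          rw [h]; rfl
        rw [h4, h5] at h3
        simp only [cond_true]
        exact h3
  have hw0 : φ w (Fin.last n) = ⟨0, by omega⟩ := by
    have h1 := hstep n 0 (by omega) (by omega)
    rw [List.drop_zero, hL, FreeGroup.mk_toWord] at h1
    exact h1
  refine ⟨φ.ker, inferInstance, ?_, ?_⟩
  · rw [Subgroup.index_ker]
    exact Nat.card_pos.ne'
  · intro h
    rw [MonoidHom.mem_ker] at h
    rw [h, Equiv.Perm.one_apply] at hw0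
    have := congrArg Fin.val hw0
    simp at this
    omega

end Pool.Agent.Helper46.OF
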