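import Pool.Agent.Helper46.OF.FG5

/-! # OFG-FG6 (1h): F(Y) ⋊ Q is residually finite for Y, Q finite
g ≠ 1.  If g.right ≠ 1: N := kernel of `SemidirectProduct.rightHom` (finite index since Q is finite).  If g.right = 1, g.left = w ≠ 1: N0 normal of finite
index in FreeGroup Y with w ∉ N0 (rf_free); N1 := ⨅ q : Q, comap of N0 under `actF Q Y q` (finite intersection of finite index normal subgroups: normal, finite
index, invariant under the action, w ∉ N1 (q = 1)).  N := N1.map SemidirectProduct.inl: normal in SD Q Y (inl x * inl n * inl x⁻¹ and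
inr q * inl n * inr q⁻¹ = inl (actF q n)), index = (index of N1) * (card Q) finite: e.g. N is the kernel-like subgroup {g | g.right = 1 ∧ g.left ∈ N1};
finite index because {g | g.right = 1} = range inl ≅ FreeGroup Y has finite index and N1 has finite index in it (relIndex_mul_index). g ∉ N. -/

set_option autoImplicit false
namespace Pool.Agent.Helper46.OF

private theorem fg6_ker_index (Q Y : Type) [Group Q] [Finite Q] [MulAction Q Y] :
    (SemidirectProduct.rightHom : SD Q Y →* Q).ker.index ≠ 0 := by
  rw [Subgroup.index_ker]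
  exact Nat.card_pos.ne'

theorem rf_sd (Q Y : Type) [Group Q] [Finite Q] [Finite Y] [MulAction Q Y] : RF (SD Q Y) := by
  intro g hg
  by_cases h : g.right = 1
  · have hw : g.left ≠ 1 := by
      intro h'
      apply hg
      exact SemidirectProduct.ext h' h
    obtain ⟨N0, hN, hi, hm⟩ := rf_free Y g.left hw
    set N1 : Subgroup (FreeGroup Y) := ⨅ q : Q, N0.comap (actF Q Y q).toMonoidHom with hN1
    have hmem : ∀ x, x ∈ N1 ↔ ∀ q : Q, actF Q Y q x ∈ N0 := by
      intro x
      rw [hN1, Subgroup.mem_iInf]
      rfl
    have hidx : N1.index ≠ 0 := by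
      rw [hN1]
      apply Subgroup.index_iInf_ne_zero
      intro q
      rw [Subgroup.index_comap_of_surjective]
      · exact hi
      · exact (actF Q Y q).surjective
    have hinv : ∀ (q : Q) (x : FreeGroup Y), x ∈ N1 → actF Q Y q x ∈ N1 := by
      intro q x hx
      rw [hmem] at hx ⊢
      intro r
      have : actF Q Y r (actF Q Y q x) = actF Q Y (r * q) x := by
        rw [map_mul, MulAut.mul_apply]
      rw [this]
      exact hx _
    have hconj : ∀ (x y : FreeGroup Y), x ∈ N1 → y * x * y⁻¹ ∈ N1 := by
      intro x y hx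
      rw [hmem] at hx ⊢
      intro q
      rw [map_mul, map_mul, map_inv]
      exact hN.conj_mem _ (hx q) _
    refine ⟨N1.map (SemidirectProduct.inl : FreeGroup Y →* SD Q Y), ?_, ?_, ?_⟩
    · constructor
      rintro n ⟨x, hx, rfl⟩ k
      refine ⟨k.left * actF Q Y k.right x * k.left⁻¹, hconj _ _ (hinv _ _ hx), ?_⟩
      apply SemidirectProduct.ext
      · simp [mul_assoc]
      · simp
    · rw [Subgroup.index_map]
      apply mul_ne_zero
      · intro h0
        apply hidx
        exact Nat.eq_zero_of_zero_dvd (h0 ▸ Subgroup.index_dvd_of_le le_sup_left)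
      · rw [SemidirectProduct.range_inl_eq_ker_rightHom]
        exact fg6_ker_index Q Y
    · rintro ⟨x, hx, hxg⟩
      have h1 : x = g.left := by
        rw [← hxg]
        rfl
      rw [h1] at hx
      have h2 := (hmem g.left).1 hx 1
      rw [map_one, MulAut.one_apply] at h2
      exact hm h2
  · refine ⟨(SemidirectProduct.rightHom : SD Q Y →* Q).ker, inferInstance, fg6_ker_index Q Y, ?_⟩
    rw [MonoidHom.mem_ker]
    exact h

end Pool.Agent.Helper46.OF
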