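import Pool.Agent.Helper96.OF.Defs

/-!
# OFG/GDefs: definitions for the group part (Part I) of the proof of S02082 (MP_804d81_al)
Plan: /team-store/804d81_plan.md, Part I.  helper46.
-/

set_option autoImplicit false

namespace Pool.Agent.Helper46.OF

open Pool.Agent.Helper96.OF

/-- residual finiteness -/
def RF (G : Type) [Group G] : Prop :=
  ∀ g : G, g ≠ 1 → ∃ N : Subgroup G, N.Normal ∧ N.index ≠ 0 ∧ g ∉ N

section raag
variable {V : Type} (Γ : SimpleGraph V)

/-- a generator -/
def og (w : V) : Raag Γ := PresentedGroup.of w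

theorem og_comm {a b : V} (h : Γ.Adj a b) : og Γ a * og Γ b = og Γ b * og Γ a := by
  have h1 : (PresentedGroup.mk {r : FreeGroup V | ∃ a b : V, Γ.Adj a b ∧
      r = FreeGroup.of a * FreeGroup.of b * (FreeGroup.of a)⁻¹ * (FreeGroup.of b)⁻¹})
      (FreeGroup.of a * FreeGroup.of b * (FreeGroup.of a)⁻¹ * (FreeGroup.of b)⁻¹) = 1 :=
    PresentedGroup.one_of_mem ⟨a, b, h, rfl⟩
  rw [map_mul, map_mul, map_mul, map_inv, map_inv] at h1
  have h2 : og Γ a * og Γ b * (og Γ a)⁻¹ * (og Γ b)⁻¹ = 1 := h1
  rw [mul_inv_eq_one, mul_inv_eq_iff_eq_mul] at h2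
  exact h2

/-- universal property -/
noncomputable def lft {G : Type} [Group G] (F : V → G)
    (hF : ∀ a b, Γ.Adj a b → F a * F b = F b * F a) : Raag Γ →* G :=
  PresentedGroup.toGroup (f := F) (by
    rintro r ⟨a, b, hab, rfl⟩
    simp only [map_mul, map_inv, FreeGroup.lift_apply_of]
    rw [hF a b hab]
    group)

@[simp] theorem lft_og {G : Type} [Group G] (F : V → G)
    (hF : ∀ a b, Γ.Adj a b → F a * F b = F b * F a) (w : V) : lft Γ F hF (og Γ w) = F w :=
  PresentedGroup.toGroup.of _

theorem hom_ext {G : Type} [Group G] {φ ψ : Raag Γ →* G} (h : ∀ w, φ (og Γ w) = ψ (og Γ w)) :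
    φ = ψ := PresentedGroup.ext h

theorem mem_of_og (K : Subgroup (Raag Γ)) (h : ∀ w, og Γ w ∈ K) (x : Raag Γ) : x ∈ K :=
  PresentedGroup.generated_by _ K h x

variable (v : V)

/-- inclusion of the RAAG of `Γ - v` -/
noncomputable def inc : Raag (Gm Γ v) →* Raag Γ :=
  lft (Gm Γ v) (fun w => og Γ (w : V)) (fun _ _ h => og_comm Γ h)

open Classical in
/-- retraction killing `v` -/
noncomputable def ret : Raag Γ →* Raag (Gm Γ v) :=
  lft Γ (fun w => if h : w = v then 1 else og (Gm Γ v) ⟨w, h⟩) (by
    intro a b hab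
    by_cases ha : a = v
    · simp [ha]
    · by_cases hb : b = v
      · simp [hb]
      · rw [dif_neg ha, dif_neg hb]
        exact og_comm (Gm Γ v) (a := ⟨a, ha⟩) (b := ⟨b, hb⟩) hab)

theorem inc_og (w : Vm v) : inc Γ v (og (Gm Γ v) w) = og Γ (w : V) := lft_og _ _ _ _

theorem ret_v : ret Γ v (og Γ v) = 1 := by simp [ret]

theorem ret_ne (w : V) (h : w ≠ v) : ret Γ v (og Γ w) = og (Gm Γ v) ⟨w, h⟩ := by simp [ret, h]

theorem ret_inc (x : Raag (Gm Γ v)) : ret Γ v (inc Γ v x) = x := by
  have : (ret Γ v).comp (inc Γ v) = MonoidHom.id _ := by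
    apply hom_ext
    intro w
    simp only [MonoidHom.comp_apply, inc_og, MonoidHom.id_apply]
    rw [ret_ne Γ v w w.2]
  exact DFunLike.congr_fun this x

/-- `v`-elliptic: conjugate into the RAAG of `Γ - v` -/
def VEll (g : Raag Γ) : Prop := ∃ (x : Raag Γ) (h : Raag (Gm Γ v)), g = x * inc Γ v h * x⁻¹

/-- subgroup of the RAAG of `Γ - v` generated by the neighbours of `v` -/
def Lk : Subgroup (Raag (Gm Γ v)) :=
  Subgroup.closure {x | ∃ w : Vm v, Γ.Adj v (w : V) ∧ x = og (Gm Γ v) w}

end raag

section semi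

/-- permutations act on the free group -/
def permAut (X : Type) : Equiv.Perm X →* MulAut (FreeGroup X) where
  toFun e := FreeGroup.freeGroupCongr e
  map_one' := by
    apply MulEquiv.ext
    intro x
    simp [FreeGroup.freeGroupCongr]
  map_mul' := by
    intro e f
    apply MulEquiv.ext
    intro x
    simp [FreeGroup.freeGroupCongr, FreeGroup.map.comp]

theorem permAut_of (X : Type) (e : Equiv.Perm X) (x : X) :
    permAut X e (FreeGroup.of x) = FreeGroup.of (e x) := by
  simp [permAut]

theorem permAut_apply (X : Type) (e : Equiv.Perm X) (w : FreeGroup X) :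
    permAut X e w = FreeGroup.map e w := rfl

/-- action of a group on the free group on a set on which it acts -/
def actF (B X : Type) [Group B] [MulAction B X] : B →* MulAut (FreeGroup X) :=
  (permAut X).comp (MulAction.toPermHom B X)

theorem actF_apply (B X : Type) [Group B] [MulAction B X] (b : B) (w : FreeGroup X) :
    actF B X b w = FreeGroup.map (fun x => b • x) w := rfl

/-- the semidirect product `F(X) ⋊ B` -/
abbrev SD (B X : Type) [Group B] [MulAction B X] : Type := FreeGroup X ⋊[actF B X] B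

/-- functoriality of `SD` -/
def sdMap {B X C Y : Type} [Group B] [MulAction B X] [Group C] [MulAction C Y]
    (q : B →* C) (p : X → Y) (h : ∀ b x, p (b • x) = q b • p x) : SD B X →* SD C Y :=
  SemidirectProduct.map (FreeGroup.map p) q (by
    intro b
    apply FreeGroup.ext_hom
    intro x
    simp [actF_apply, h])

theorem sdMap_left {B X C Y : Type} [Group B] [MulAction B X] [Group C] [MulAction C Y]
    (q : B →* C) (p : X → Y) (h : ∀ b x, p (b • x) = q b • p x) (g : SD B X) :
    (sdMap q p h g).left = FreeGroup.map p g.left := rfl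

theorem sdMap_right {B X C Y : Type} [Group B] [MulAction B X] [Group C] [MulAction C Y]
    (q : B →* C) (p : X → Y) (h : ∀ b x, p (b • x) = q b • p x) (g : SD B X) :
    (sdMap q p h g).right = q g.right := rfl

open Classical in
/-- the reduced word (classical decidability) -/
noncomputable def wd {X : Type} (w : FreeGroup X) : List (X × Bool) := w.toWord

/-- twisted reduced: `w ≠ 1` and the word `w · (b • w)` is reduced -/
def TR {B X : Type} [Group B] [MulAction B X] (w : FreeGroup X) (b : B) : Prop :=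
  w ≠ 1 ∧ FreeGroup.IsReduced (wd w ++ wd (actF B X b w))

end semi

end Pool.Agent.Helper46.OF
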