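import Pool.Agent.Helper46.OF.GP1
import Pool.Agent.Helper46.OF.FG1

/-! # OFG-GP6 (1h): reduction of the frozen statement to Emb
F3 := FreeGroup (Fin 3), i0 : A →* F3 := FreeGroup.map Fin.castSucc (0 ↦ 0, 1 ↦ 1), c := of 2.  For φ : MulAut A let J φ : F3 →* F3 := FreeGroup.lift (fun i => if i = 2 then c else i0 (φ (of …)))
(e.g. `Fin.lastCases` or `![i0 (φ ga), i0 (φ gb), c]`).  J φ (i0 x) = i0 (φ x), J φ c = c, J (φ ψ) = J φ ∘ J ψ, J 1 = id (FreeGroup.ext_hom, fin_cases), so j : MulAut A →* MulAut F3.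
Given (K, V, Γ, f): H := K.comap j ⊓ G0; H ≤ G0; H.relIndex G0 = (K.comap j).relIndex G0 ≠ 0 because (K.comap j).index = K.relIndex j.range ≠ 0 (K.index ≠ 0).  f' : H →* Raag Γ, f' h = f ⟨j h, _⟩.
Injective: f' h = 1 => j h = conj w for some w : F3.  c = j h c = w c w⁻¹, so w commutes with c; <w,c> is commutative, so = <u> (comm_cyclic for the closure of {w, c}, or comm_trans), c = u^n; the exponent sum of
letter 2 gives n = ±1, so w = c^k.  Let r : F3 →* A kill c (0 ↦ ga, 1 ↦ gb, 2 ↦ 1): r w = 1, r (i0 x) = x: h x = r (i0 (h x)) = r (j h (i0 x)) = r (w i0 x w⁻¹) = x, so h = 1.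
(Raag Γ is by definition the PresentedGroup in the statement: abbrev.) -/

set_option autoImplicit false
namespace Pool.Agent.Helper46.OF
open Pool.Agent.Helper96.OF

namespace GP6h

/-- free group of rank three -/
abbrev F3 := FreeGroup (Fin 3)

/-- inclusion of the first two letters -/
def i0 : A →* F3 := FreeGroup.lift ![FreeGroup.of 0, FreeGroup.of 1]

/-- third letter -/
def cc : F3 := FreeGroup.of 2

/-- retraction -/
def r3 : F3 →* A := FreeGroup.lift ![ga, gb, 1]

/-- extension of an endomorphism -/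
def Jh (φ : A →* A) : F3 →* F3 := FreeGroup.lift ![i0 (φ ga), i0 (φ gb), cc]

theorem i0_ga : i0 ga = FreeGroup.of 0 := by simp [i0, ga]
theorem i0_gb : i0 gb = FreeGroup.of 1 := by simp [i0, gb]

theorem Jh_c (φ : A →* A) : Jh φ cc = cc := by simp [Jh, cc]

theorem Jh_i0 (φ : A →* A) (x : A) : Jh φ (i0 x) = i0 (φ x) := by
  have : (Jh φ).comp i0 = i0.comp φ := by
    apply FreeGroup.ext_hom
    intro i
    fin_cases i
    · simp [Jh, i0, ga]
    · simp [Jh, i0, gb]
  exact DFunLike.congr_fun this x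

theorem r3_i0 (x : A) : r3 (i0 x) = x := by
  have : r3.comp i0 = MonoidHom.id A := by
    apply FreeGroup.ext_hom
    intro i
    fin_cases i
    · simp [r3, i0, ga]
    · simp [r3, i0, gb]
  exact DFunLike.congr_fun this x

theorem r3_c : r3 cc = 1 := by simp [r3, cc]

theorem Jh_comp (φ ψ : A →* A) : (Jh φ).comp (Jh ψ) = Jh (φ.comp ψ) := by
  apply FreeGroup.ext_hom
  intro i
  fin_cases i
  · have h1 : Jh ψ (FreeGroup.of 0) = i0 (ψ ga) := by simp [Jh]
    have h2 : Jh (φ.comp ψ) (FreeGroup.of 0) = i0 (φ (ψ ga)) := by simp [Jh]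
    change Jh φ (Jh ψ (FreeGroup.of 0)) = Jh (φ.comp ψ) (FreeGroup.of 0)
    rw [h1, h2, Jh_i0]
  · have h1 : Jh ψ (FreeGroup.of 1) = i0 (ψ gb) := by simp [Jh]
    have h2 : Jh (φ.comp ψ) (FreeGroup.of 1) = i0 (φ (ψ gb)) := by simp [Jh]
    change Jh φ (Jh ψ (FreeGroup.of 1)) = Jh (φ.comp ψ) (FreeGroup.of 1)
    rw [h1, h2, Jh_i0]
  · change Jh φ (Jh ψ cc) = Jh (φ.comp ψ) cc
    rw [Jh_c, Jh_c, Jh_c]

theorem Jh_id : Jh (MonoidHom.id A) = MonoidHom.id F3 := by
  apply FreeGroup.ext_hom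
  intro i
  fin_cases i
  · simp [Jh, i0_ga]
  · simp [Jh, i0_gb]
  · simp [Jh, cc]

/-- the map on automorphisms -/
def jj : MulAut A →* MulAut F3 where
  toFun φ := MonoidHom.toMulEquiv (Jh φ.toMonoidHom) (Jh φ.symm.toMonoidHom)
    (by
      rw [Jh_comp]
      have : φ.symm.toMonoidHom.comp φ.toMonoidHom = MonoidHom.id A := by ext x; simp
      rw [this, Jh_id])
    (by
      rw [Jh_comp]
      have : φ.toMonoidHom.comp φ.symm.toMonoidHom = MonoidHom.id A := by ext x; simp
      rw [this, Jh_id])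
  map_one' := by
    apply MulEquiv.ext
    intro x
    change Jh (MonoidHom.id A) x = x
    rw [Jh_id]; rfl
  map_mul' φ ψ := by
    apply MulEquiv.ext
    intro x
    change Jh ((φ * ψ : MulAut A).toMonoidHom) x = Jh φ.toMonoidHom (Jh ψ.toMonoidHom x)
    have h := Jh_comp φ.toMonoidHom ψ.toMonoidHom
    have h2 := DFunLike.congr_fun h x
    exact h2.symm

theorem jj_apply (φ : MulAut A) (x : F3) : jj φ x = Jh φ.toMonoidHom x := rfl

/-- exponent sum of the third letter -/
def e2 : F3 →* Multiplicative ℤ := FreeGroup.lift ![1, 1, Multiplicative.ofAdd 1]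

theorem cc_ne : cc ≠ 1 := by
  intro h
  have := congrArg e2 h
  simp [e2, cc] at this

theorem comm_c {w : F3} (h : Commute w cc) : ∃ k : ℤ, w = cc ^ k := by
  obtain ⟨r, hr⟩ := comm_cyclic (Subgroup.centralizer {cc}) (by
    intro x hx y hy
    rw [Subgroup.mem_centralizer_singleton_iff] at hx hy
    exact comm_trans cc_ne hx hy)
  have hc : cc ∈ Subgroup.centralizer {cc} := by
    rw [Subgroup.mem_centralizer_singleton_iff]
  have hw : w ∈ Subgroup.centralizer {cc} := by
    rw [Subgroup.mem_centralizer_singleton_iff]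
    exact h
  rw [hr] at hc hw
  obtain ⟨m, hm⟩ := Subgroup.mem_zpowers_iff.1 hc
  obtain ⟨n, hn⟩ := Subgroup.mem_zpowers_iff.1 hw
  have h1 : m * Multiplicative.toAdd (e2 r) = 1 := by
    have := congrArg (fun z => Multiplicative.toAdd (e2 z)) hm
    simpa [e2, cc] using this
  have h2 : m * m = 1 := by
    rcases Int.isUnit_iff.1 (IsUnit.of_mul_eq_one _ h1) with h | h <;> rw [h] <;> norm_num
  refine ⟨m * n, ?_⟩
  rw [← hm, ← hn, ← zpow_mul]
  congr 1
  rw [← mul_assoc, h2, one_mul]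

end GP6h

open GP6h in
theorem reduction (h : ∃ (K : Subgroup (MulAut (FreeGroup (Fin 3)))) (V : Type) (_ : Finite V) (Γ : SimpleGraph V)
      (f : K →* PresentedGroup
        {r : FreeGroup V | ∃ a b : V, Γ.Adj a b ∧
          r = FreeGroup.of a * FreeGroup.of b * (FreeGroup.of a)⁻¹ * (FreeGroup.of b)⁻¹}),
      K.index ≠ 0 ∧
      (MulAut.conj : FreeGroup (Fin 3) →* MulAut (FreeGroup (Fin 3))).range ≤ K ∧
      ∀ k : K, f k = 1 ↔
        (k : MulAut (FreeGroup (Fin 3))) ∈
          (MulAut.conj : FreeGroup (Fin 3) →* MulAut (FreeGroup (Fin 3))).range) :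
    ∃ (V : Type) (_ : Finite V) (Γ : SimpleGraph V), Emb Γ := by
  obtain ⟨K, V, hV, Γ, f, hK, -, hf⟩ := h
  refine ⟨V, hV, Γ, K.comap jj ⊓ G0, f.comp (MonoidHom.codRestrict (jj.comp (K.comap jj ⊓ G0).subtype) K
    (fun x => x.2.1)), inf_le_right, ?_, ?_⟩
  · rw [Subgroup.inf_relIndex_right]
    intro h0
    have h1 := Subgroup.index_eq_zero_of_relIndex_eq_zero h0
    rw [Subgroup.index_comap] at h1
    exact hK (Subgroup.index_eq_zero_of_relIndex_eq_zero h1)
  · rw [injective_iff_map_eq_one]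
    intro x hx
    have h1 := (hf _).1 hx
    obtain ⟨w, hw⟩ := h1
    have hw' : ∀ y : F3, jj (x : MulAut A) y = w * y * w⁻¹ := by
      intro y
      have : (jj (x : MulAut A)) = MulAut.conj w := hw.symm
      rw [this]; rfl
    have h2 : cc = w * cc * w⁻¹ := by
      rw [← hw' cc, jj_apply, Jh_c]
    have h3 : Commute w cc := by
      have := congrArg (fun z => z * w) h2
      simp only [inv_mul_cancel_right] at this
      exact this.symm
    obtain ⟨k, hk⟩ := comm_c h3
    have h4 : r3 w = 1 := by rw [hk, map_zpow, r3_c, one_zpow]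
    apply Subtype.ext
    apply MulEquiv.ext
    intro y
    have h5 : r3 (jj (x : MulAut A) (i0 y)) = (x : MulAut A) y := by
      rw [jj_apply, Jh_i0, r3_i0]; rfl
    rw [← h5, hw', map_mul, map_mul, map_inv, h4, r3_i0]
    simp

end Pool.Agent.Helper46.OF
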