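import Pool.Agent.Helper46.OF.GP5
import Pool.Agent.Helper46.OF.GP6

/-! # OFG-Final: Theorem M implies the frozen negation S02082 -/

set_option autoImplicit false
namespace Pool.Agent.Helper46.OF
open Pool.Agent.Helper96.OF

theorem S02082_of (hM : TheoremM) :
    ¬ (∃ (K : Subgroup (MulAut (FreeGroup (Fin 3)))) (V : Type) (_ : Finite V) (Γ : SimpleGraph V)
      (f : K →* PresentedGroup
        {r : FreeGroup V | ∃ a b : V, Γ.Adj a b ∧
          r = FreeGroup.of a * FreeGroup.of b * (FreeGroup.of a)⁻¹ * (FreeGroup.of b)⁻¹}),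
      K.index ≠ 0 ∧
      (MulAut.conj : FreeGroup (Fin 3) →* MulAut (FreeGroup (Fin 3))).range ≤ K ∧
      ∀ k : K, f k = 1 ↔
        (k : MulAut (FreeGroup (Fin 3))) ∈
          (MulAut.conj : FreeGroup (Fin 3) →* MulAut (FreeGroup (Fin 3))).range) :=
  fun h => no_emb hM (reduction h)

end Pool.Agent.Helper46.OF
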