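import Pool.Agent.Helper46.OF.GP1
import Pool.Agent.Helper46.OF.FG1

/-! # OFG-GP2 (0.8h): elements of K ∩ Inn
x ∈ K, x ≠ 1: there is g : A with x g ≠ g; exists_pow: m > 0 with conj g ^ m = conj (g^m) ∈ H.  x * conj (g^m) * x⁻¹ * conj (g^m)⁻¹ = conj (x (g^m) * (g^m)⁻¹) ∈ K (K normal in H:
x * (h x⁻¹ h⁻¹)), and s1 := x (g^m) * (g^m)⁻¹ ≠ 1 (unique roots: x (g^m) = (x g)^m ≠ g^m; IsMulTorsionFree A).  S := {s | conj s ∈ K}: for g with conj g ∈ H, s ∈ S: g s g⁻¹ ∈ S.
First claim: if all elements of S commute: for u = ga, gb: m > 0 with conj (u^m) ∈ H; s1 commutes with u^m s1 u^{-m}, so with u^m (comm_conj), so with u (comm_pow).  So ga and gb commute with s1 ≠ 1,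
so with each other (comm_trans): false (e.g. a hom to Equiv.Perm (Fin 3), or reduced words, `decide`).
Second claim: gz^N ≠ 1 (gz ≠ 1 and unique roots); if all s ∈ S commute with gz^N they commute with each other (comm_trans), contradiction with the first claim. -/

set_option autoImplicit false
namespace Pool.Agent.Helper46.OF
open Pool.Agent.Helper96.OF

private theorem gp2_ne : ¬ Commute ga gb := by
  intro h
  have h1 := congrArg (FreeGroup.lift ![Equiv.swap (0 : Fin 3) 1, Equiv.swap (1 : Fin 3) 2]) h.eq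
  simp only [ga, gb, map_mul, FreeGroup.lift_apply_of] at h1
  revert h1
  decide

private theorem gp2_gz_ne : gz ≠ 1 := by
  intro h
  apply gp2_ne
  unfold gz at h
  rw [mul_inv_eq_one, mul_inv_eq_iff_eq_mul] at h
  exact h.symm

private theorem gp2_conj_apply (x : MulAut A) (g : A) :
    x * MulAut.conj g * x⁻¹ = MulAut.conj (x g) := by
  apply MulEquiv.ext
  intro y
  simp only [MulAut.mul_apply, MulAut.conj_apply, map_mul, map_inv]
  rw [MulAut.apply_inv_self]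

theorem kelem (H K : Subgroup (MulAut A)) (hfin : H.relIndex G0 ≠ 0) (hKH : K ≤ H)
    (hn : ∀ h ∈ H, ∀ k ∈ K, h * k * h⁻¹ ∈ K) (h1 : K ≠ ⊥) (N : ℤ) (hN : N ≠ 0) :
    (∃ s s' : A, MulAut.conj s ∈ K ∧ MulAut.conj s' ∈ K ∧ s * s' ≠ s' * s) ∧
    (∃ s : A, MulAut.conj s ∈ K ∧ gz ^ N * s ≠ s * gz ^ N) := by
  have hpow : ∀ g : A, ∃ m : ℕ, 0 < m ∧ MulAut.conj (g ^ m) ∈ H := by
    intro g
    obtain ⟨m, hm, hm2⟩ := exists_pow H hfin (MulAut.conj g) (conj_mem_G0 g)
    exact ⟨m, hm, by rwa [map_pow]⟩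
  have hfirst : ∃ s1 : A, s1 ≠ 1 ∧ MulAut.conj s1 ∈ K := by
    obtain ⟨⟨x, hxK⟩, hy⟩ := Subgroup.ne_bot_iff_exists_ne_one.1 h1
    have hx1 : x ≠ 1 := fun h => hy (Subtype.ext h)
    have hg : ∃ g : A, x g ≠ g := by
      by_contra hcon
      push Not at hcon
      exact hx1 (MulEquiv.ext hcon)
    obtain ⟨g, hg⟩ := hg
    obtain ⟨m, hm, hmH⟩ := hpow g
    refine ⟨x (g ^ m) * (g ^ m)⁻¹, ?_, ?_⟩
    · intro h
      rw [mul_inv_eq_one, map_pow] at h
      exact hg (pow_left_injective hm.ne' h)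
    · have e : MulAut.conj (x (g ^ m) * (g ^ m)⁻¹) =
          x * (MulAut.conj (g ^ m) * x⁻¹ * (MulAut.conj (g ^ m))⁻¹) := by
        rw [map_mul, map_inv, ← gp2_conj_apply]
        group
      rw [e]
      exact K.mul_mem hxK (hn _ hmH _ (K.inv_mem hxK))
  obtain ⟨s1, hs1, hs1K⟩ := hfirst
  have hA : ∃ s s' : A, MulAut.conj s ∈ K ∧ MulAut.conj s' ∈ K ∧ s * s' ≠ s' * s := by
    by_contra hcon
    push Not at hcon
    have hu : ∀ u : A, Commute u s1 := by
      intro u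
      obtain ⟨m, hm, hmH⟩ := hpow u
      have h2 : MulAut.conj (u ^ m * s1 * (u ^ m)⁻¹) ∈ K := by
        rw [map_mul, map_mul, map_inv]
        exact hn _ hmH _ hs1K
      have h3 : Commute s1 (u ^ m * s1 * (u ^ m)⁻¹) := hcon _ _ hs1K h2
      have h4 : Commute s1 (u ^ m) := comm_conj h3
      have h5 : Commute s1 (u ^ (m : ℤ)) := by rwa [zpow_natCast]
      exact (comm_pow (by exact_mod_cast hm.ne') h5).symm
    exact gp2_ne (comm_trans hs1 (hu ga) (hu gb))
  refine ⟨hA, ?_⟩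
  by_contra hcon
  push Not at hcon
  obtain ⟨s, s', hs, hs', hne⟩ := hA
  have hz : gz ^ N ≠ 1 := by
    intro h
    apply gp2_gz_ne
    have : gz ^ N = (1 : A) ^ N := by rw [h, one_zpow]
    exact zpow_left_injective hN this
  exact hne (comm_trans hz (Commute.symm (hcon s hs)) (Commute.symm (hcon s' hs'))).eq

end Pool.Agent.Helper46.OF
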