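import Pool.Agent.Helper46.OF.RA5

/-! # OFG-GP3 (0.3h): Claim B
By contradiction: c := x1 * x2 * x1⁻¹ * x2⁻¹ not v-elliptic.  deep with S = {y, c}, T = ∅ gives ρ with ρ y and ρ c of infinite order; ρ x1, ρ x2 commute with ρ y; comm_fin says that
ρ c = [ρ x1, ρ x2] has finite order. -/

set_option autoImplicit false
namespace Pool.Agent.Helper46.OF
open Pool.Agent.Helper96.OF

theorem claimB {V : Type} [Finite V] (Γ : SimpleGraph V) (v : V) (y x1 x2 : Raag Γ)
    (h1 : Commute x1 y) (h2 : Commute x2 y) (hy : ¬ VEll Γ v y) :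
    VEll Γ v (x1 * x2 * x1⁻¹ * x2⁻¹) := by
  classical
  by_contra hc
  obtain ⟨Q, Y, _, _, _, _, ρ, hS, -, -, -⟩ := deep Γ v {y, x1 * x2 * x1⁻¹ * x2⁻¹} ∅
    (by
      intro g hg
      rw [Finset.mem_insert, Finset.mem_singleton] at hg
      rcases hg with rfl | rfl
      · exact hy
      · exact hc)
    (by intro g hg; exact absurd hg (Finset.notMem_empty g))
  have hy' := hS y (Finset.mem_insert_self _ _)
  have hc' := hS _ (Finset.mem_insert_of_mem (Finset.mem_singleton_self (x1 * x2 * x1⁻¹ * x2⁻¹)))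
  rw [map_mul, map_mul, map_mul, map_inv, map_inv] at hc'
  exact hc' (comm_fin _ _ _ hy' (h1.map ρ) (h2.map ρ))

end Pool.Agent.Helper46.OF
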