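import Pool.Agent.Helper46.OF.GDefs

/-! # OFG-SD1 (1h): twisted reduced elements of F(X) ⋊ B have infinite order
SD B X = F(X) ⋊ B, B acts on F(X) by permuting the letters: actF B X b w = FreeGroup.map (b • ·) w, so wd (actF b w) = (wd w).map (fun l => (b • l.1, l.2)).
TR w b: w ≠ 1 and wd w ++ wd (actF b w) is reduced (FreeGroup.IsReduced = a chain condition on neighbouring letters).
g = ⟨w, b⟩: (g^(n+1)).left = w * actF b w * ... * actF (b^n) w (induction: g^(n+1) = g * g^n or g^n * g; SemidirectProduct.mul_left), and the concatenation of the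
reduced words wd w ++ wd (actF b w) ++ ... is reduced (each junction is the image under actF (b^i) of the junction in TR; the words are non-empty), hence
wd ((g^n).left) has length n * |w| > 0. Claim: ∀ n ≥ 1, (g^n).left ≠ 1, so g has infinite order. -/

set_option autoImplicit false
namespace Pool.Agent.Helper46.OF

private lemma SD1_wd_mk {X : Type} {L : List (X × Bool)} (h : FreeGroup.IsReduced L) :
    wd (FreeGroup.mk L) = L := by
  classical
  unfold wd
  rw [FreeGroup.toWord_mk]
  exact h.reduce_eq

private lemma SD1_mk_wd {X : Type} (w : FreeGroup X) : FreeGroup.mk (wd w) = w := by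
  classical
  unfold wd
  exact FreeGroup.mk_toWord

private lemma SD1_red_wd {X : Type} (w : FreeGroup X) : FreeGroup.IsReduced (wd w) := by
  classical
  unfold wd
  exact FreeGroup.isReduced_toWord

private lemma SD1_map {B X : Type} [Group B] [MulAction B X] (b : B) {L : List (X × Bool)}
    (h : FreeGroup.IsReduced L) :
    FreeGroup.IsReduced (L.map fun l => (b • l.1, l.2)) := by
  unfold FreeGroup.IsReduced at *
  rw [List.isChain_map]
  refine h.imp fun x y hxy h' => hxy ?_
  exact MulAction.injective b h'

private lemma SD1_wd_act {B X : Type} [Group B] [MulAction B X] (b : B) (w : FreeGroup X) :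
    wd (actF B X b w) = (wd w).map fun l => (b • l.1, l.2) := by
  have h : actF B X b w = FreeGroup.mk ((wd w).map fun l => (b • l.1, l.2)) := by
    rw [actF_apply]
    conv_lhs => rw [← SD1_mk_wd w]
    rw [FreeGroup.map.mk]
  rw [h, SD1_wd_mk (SD1_map b (SD1_red_wd w))]

private lemma SD1_pow {B X : Type} [Group B] [MulAction B X] (g : SD B X)
    (h : TR g.left g.right) (n : ℕ) :
    ∃ T : List (X × Bool), (g ^ (n + 1)).left = FreeGroup.mk (wd g.left ++ T) ∧
      FreeGroup.IsReduced (wd g.left ++ T) := by
  induction n with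
  | zero =>
    refine ⟨[], ?_, ?_⟩
    · rw [List.append_nil, SD1_mk_wd, zero_add, pow_one]
    · rw [List.append_nil]
      exact SD1_red_wd _
  | succ n ih =>
    obtain ⟨T, h1, h2⟩ := ih
    obtain ⟨hw, hr⟩ := h
    rw [SD1_wd_act] at hr
    refine ⟨(wd g.left ++ T).map fun l => (g.right • l.1, l.2), ?_, ?_⟩
    · rw [pow_succ' g (n + 1), SemidirectProduct.mul_left, h1, actF_apply, FreeGroup.map.mk,
        ← FreeGroup.mul_mk, SD1_mk_wd]
    · rw [List.map_append, ← List.append_assoc]
      refine hr.append_overlap ?_ ?_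
      · rw [← List.map_append]
        exact SD1_map _ h2
      · intro h0
        rw [List.map_eq_nil_iff] at h0
        apply hw
        rw [← SD1_mk_wd g.left, h0]
        rfl

theorem tr_inf {B X : Type} [Group B] [MulAction B X] (g : SD B X) (h : TR g.left g.right) :
    ¬ IsOfFinOrder g := by
  rw [isOfFinOrder_iff_pow_eq_one]
  rintro ⟨n, hn, h1⟩
  obtain ⟨m, rfl⟩ : ∃ m, n = m + 1 := ⟨n - 1, by omega⟩
  obtain ⟨T, e1, e2⟩ := SD1_pow g h m
  rw [h1, SemidirectProduct.one_left] at e1
  have h3 := SD1_wd_mk e2
  rw [← e1] at h3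
  have h4 : wd (1 : FreeGroup X) = [] := by
    classical
    unfold wd
    exact FreeGroup.toWord_one
  rw [h4] at h3
  have h5 : wd g.left = [] := (List.append_eq_nil_iff.1 h3.symm).1
  apply h.1
  rw [← SD1_mk_wd g.left, h5]
  rfl

end Pool.Agent.Helper46.OF
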