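import Pool.Agent.Helper46.OF.GDefs

/-! # OFG-SD2 (0.8h): normal form up to conjugation in F(X) ⋊ B
Strong induction on the length of wd g.left.  g = ⟨w, b⟩.  w = 1: g = inr b.  w ≠ 1 and TR w b: done (x = 1).  Otherwise wd w ++ wd (actF b w) is not reduced; wd w and
wd (actF b w) = (wd w).map (fun l => (b • l.1, l.2)) are reduced and non-empty, so the junction cancels: the last letter (a, s) of wd w and the first letter
(b • c, t) of wd (actF b w) ((c, t) first letter of wd w) satisfy a = b • c, s = !t.  So |w| ≥ 2 (if |w| = 1 then s = t), wd w = (c,t) :: m ++ [(a,s)], and conjugating by inl (letter (c,t)) :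
inl f⁻¹ * ⟨w, b⟩ * inl f = ⟨f⁻¹ * w * actF b f, b⟩ = ⟨mk m, b⟩, shorter. -/

set_option autoImplicit false
namespace Pool.Agent.Helper46.OF

private lemma SD2_wd_mk {X : Type} {L : List (X × Bool)} (h : FreeGroup.IsReduced L) :
    wd (FreeGroup.mk L) = L := by
  classical
  unfold wd
  rw [FreeGroup.toWord_mk]
  exact h.reduce_eq

private lemma SD2_mk_wd {X : Type} (w : FreeGroup X) : FreeGroup.mk (wd w) = w := by
  classical
  unfold wd
  exact FreeGroup.mk_toWord

private lemma SD2_red_wd {X : Type} (w : FreeGroup X) : FreeGroup.IsReduced (wd w) := by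
  classical
  unfold wd
  exact FreeGroup.isReduced_toWord

private lemma SD2_map {B X : Type} [Group B] [MulAction B X] (b : B) {L : List (X × Bool)}
    (h : FreeGroup.IsReduced L) :
    FreeGroup.IsReduced (L.map fun l => (b • l.1, l.2)) := by
  unfold FreeGroup.IsReduced at *
  rw [List.isChain_map]
  refine h.imp fun x y hxy h' => hxy ?_
  exact MulAction.injective b h'

private lemma SD2_wd_act {B X : Type} [Group B] [MulAction B X] (b : B) (w : FreeGroup X) :
    wd (actF B X b w) = (wd w).map fun l => (b • l.1, l.2) := by
  have h : actF B X b w = FreeGroup.mk ((wd w).map fun l => (b • l.1, l.2)) := by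
    rw [actF_apply]
    conv_lhs => rw [← SD2_mk_wd w]
    rw [FreeGroup.map.mk]
  rw [h, SD2_wd_mk (SD2_map b (SD2_red_wd w))]

private lemma SD2_aux {B X : Type} [Group B] [MulAction B X] (n : ℕ) :
    ∀ g : SD B X, (wd g.left).length ≤ n →
    (∃ (x : SD B X) (b : B), g = x * SemidirectProduct.inr b * x⁻¹) ∨
    (∃ (x h : SD B X), TR h.left h.right ∧ g = x * h * x⁻¹) := by
  induction n using Nat.strong_induction_on with
  | _ n ih =>
  intro g hg
  by_cases hw : g.left = 1
  · left
    refine ⟨1, g.right, ?_⟩
    apply SemidirectProduct.ext <;> simp [hw]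
  by_cases ht : TR g.left g.right
  · exact Or.inr ⟨1, g, ht, by simp⟩
  have hL : wd g.left ≠ [] := by
    intro h
    apply hw
    rw [← SD2_mk_wd g.left, h]
    rfl
  have hr : ¬ FreeGroup.IsReduced (wd g.left ++ (wd g.left).map fun l => (g.right • l.1, l.2)) := by
    intro h
    apply ht
    refine ⟨hw, ?_⟩
    rw [SD2_wd_act]
    exact h
  have hred := SD2_red_wd g.left
  have hmk := SD2_mk_wd g.left
  generalize hLL : wd g.left = L at *
  match L, hL with
  | (c, t) :: m', _ =>
    rcases List.eq_nil_or_concat m' with rfl | ⟨m, ⟨a, s⟩, rfl⟩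
    · exfalso
      apply hr
      simp [FreeGroup.IsReduced]
    · have hj : a = g.right • c ∧ s = !t := by
        by_contra hcon
        apply hr
        unfold FreeGroup.IsReduced
        rw [List.isChain_append]
        refine ⟨hred, SD2_map g.right hred, ?_⟩
        intro x hx y hy
        have e0 : (c, t) :: m.concat (a, s) = ((c, t) :: m) ++ [(a, s)] := by simp
        rw [e0, List.getLast?_concat] at hx
        simp at hx hy
        subst hx
        subst hy
        intro h1
        by_contra h2
        exact hcon ⟨h1, by cases s <;> cases t <;> simp_all⟩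
      obtain ⟨ha, hs⟩ := hj
      have hm : FreeGroup.IsReduced m := by
        have h0 : FreeGroup.IsReduced ([(c, t)] ++ (m ++ [(a, s)])) := by simpa using hred
        exact (List.isChain_append.1 (List.isChain_append.1 h0).2.1).1
      have hm2 : wd (FreeGroup.mk m) = m := SD2_wd_mk hm
      set f : FreeGroup X := FreeGroup.mk [(c, t)] with hf
      have key : g = SemidirectProduct.inl f * ⟨FreeGroup.mk m, g.right⟩ *
          (SemidirectProduct.inl f)⁻¹ := by
        rw [eq_mul_inv_iff_mul_eq]
        apply SemidirectProduct.ext
        · rw [SemidirectProduct.mul_left, SemidirectProduct.mul_left, SemidirectProduct.left_inl,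
            SemidirectProduct.right_inl, map_one, MulAut.one_apply, ← hmk, actF_apply, hf,
            FreeGroup.map.mk]
          simp only [List.map_cons, List.map_nil, FreeGroup.mul_mk]
          have e1 : (c, t) :: m.concat (a, s) ++ [(g.right • c, t)] =
              ((c, t) :: m) ++ [(a, s), (a, !s)] := by
            subst ha hs
            simp
          rw [e1, ← FreeGroup.mul_mk]
          have e2 : (FreeGroup.mk [(a, s), (a, !s)] : FreeGroup X) = 1 := by
            rw [FreeGroup.one_eq_mk]
            exact Quot.sound FreeGroup.Red.Step.cons_not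
          rw [e2, mul_one]
          simp
        · simp
      have hlen : m.length < n := by
        simp at hg
        omega
      have := ih m.length hlen ⟨FreeGroup.mk m, g.right⟩ (by
        show (wd (FreeGroup.mk m)).length ≤ _
        rw [hm2])
      rcases this with ⟨x, b, hx⟩ | ⟨x, h, h1, hx⟩
      · left
        refine ⟨SemidirectProduct.inl f * x, b, ?_⟩
        rw [key, hx]
        group
      · right
        refine ⟨SemidirectProduct.inl f * x, h, h1, ?_⟩
        rw [key, hx]
        group

theorem conj_tr {B X : Type} [Group B] [MulAction B X] (g : SD B X) :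
    (∃ (x : SD B X) (b : B), g = x * SemidirectProduct.inr b * x⁻¹) ∨
    (∃ (x h : SD B X), TR h.left h.right ∧ g = x * h * x⁻¹) :=
  SD2_aux _ g le_rfl

end Pool.Agent.Helper46.OF
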