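import Pool.Agent.Helper46.OF.FG1

/-! # OFG-SD5 (0.8h): commutators in centralisers in F(Y) ⋊ Q, Q finite
y of infinite order, x1, x2 commute with y => [x1,x2] has finite order.  n := card Q ≥ 1; for every g : SD Q Y, (g^n).right = g.right^n = 1, so g^n = inl (g^n).left.
C := centralizer {y} (subgroup of SD Q Y).  y^n = inl r0, r0 ≠ 1.  C0 := {u : FreeGroup Y | inl u ∈ C}: all u ∈ C0 commute with r0 (inl injective), so C0 is commutative (comm_trans) and
cyclic: C0 = <r> (comm_cyclic), r ≠ 1, r0 = r^k, k ≠ 0 (r0 ∈ C0).  For x ∈ C: x * inl r * x⁻¹ ∈ C and has right component 1, so it is inl (r^j) for some j; its k-th power is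
x * inl r0 * x⁻¹ = inl r0 (x commutes with y, hence with y^n), so r^(jk) = r^k, j = 1 (unique roots/infinite order).  So inl r is central in C.  Every element of C with
right component 1 is a power of inl r, so the center of C contains the kernel of C → Q: the center of C has finite index, the set of commutators of C is finite,
and by Schur (Mathlib/GroupTheory/Schreier.lean: instance Finite (commutator G) from Finite (commutatorSet G); commutatorSet finite because [g,h] depends only on the cosets of g,h modulo the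
centre) the commutator subgroup of C is finite; so [x1,x2] has finite order.
Also `inr_fin`: a conjugate of inr b has finite order when Q is finite. -/

set_option autoImplicit false
namespace Pool.Agent.Helper46.OF

open scoped commutatorElement

theorem inr_fin {Q Y : Type} [Group Q] [Finite Q] [MulAction Q Y] (x : SD Q Y) (b : Q) :
    IsOfFinOrder (x * SemidirectProduct.inr b * x⁻¹) := by
  have h1 : IsOfFinOrder (SemidirectProduct.inr b : SD Q Y) :=
    (SemidirectProduct.inr : Q →* SD Q Y).isOfFinOrder (isOfFinOrder_of_finite b)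
  exact (MulAut.conj x).toMonoidHom.isOfFinOrder h1

private theorem SD5_center_fin {G : Type} [Group G] [(Subgroup.center G).FiniteIndex] :
    Finite (commutatorSet G) := by
  classical
  let rep : G ⧸ Subgroup.center G → G := Quotient.out
  have hfin : Finite (G ⧸ Subgroup.center G) := Subgroup.finite_quotient_of_finiteIndex
  have hsub : commutatorSet G ⊆
      Set.range (fun p : (G ⧸ Subgroup.center G) × (G ⧸ Subgroup.center G) => ⁅rep p.1, rep p.2⁆) := by
    rintro _ ⟨a, b, rfl⟩
    refine ⟨(QuotientGroup.mk a, QuotientGroup.mk b), ?_⟩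
    have key : ∀ a : G, ∃ z ∈ Subgroup.center G, rep (QuotientGroup.mk a) = a * z := by
      intro a
      have : (QuotientGroup.mk a : G ⧸ Subgroup.center G) = QuotientGroup.mk (rep (QuotientGroup.mk a)) :=
        (Quotient.out_eq _).symm
      rw [QuotientGroup.eq] at this
      exact ⟨_, this, by simp⟩
    obtain ⟨z, hz, e1⟩ := key a
    obtain ⟨w, hw, e2⟩ := key b
    rw [Subgroup.mem_center_iff] at hz hw
    show ⁅rep (QuotientGroup.mk a), rep (QuotientGroup.mk b)⁆ = ⁅a, b⁆
    rw [e1, e2, commutatorElement_def, commutatorElement_def, mul_inv_rev, mul_inv_rev]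
    calc a * z * (b * w) * (z⁻¹ * a⁻¹) * (w⁻¹ * b⁻¹)
        = a * (z * (b * w)) * (z⁻¹ * a⁻¹) * (w⁻¹ * b⁻¹) := by group
      _ = a * ((b * w) * z) * (z⁻¹ * a⁻¹) * (w⁻¹ * b⁻¹) := by rw [hz]
      _ = a * b * (w * a⁻¹) * (w⁻¹ * b⁻¹) := by group
      _ = a * b * (a⁻¹ * w) * (w⁻¹ * b⁻¹) := by rw [hw]
      _ = a * b * a⁻¹ * b⁻¹ := by group
  exact (Set.finite_range _).subset hsub |>.to_subtype

theorem comm_fin {Q Y : Type} [Group Q] [Finite Q] [MulAction Q Y] (y x1 x2 : SD Q Y)
    (hy : ¬ IsOfFinOrder y) (h1 : Commute x1 y) (h2 : Commute x2 y) :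
    IsOfFinOrder (x1 * x2 * x1⁻¹ * x2⁻¹) := by
  classical
  set n := Nat.card Q with hn
  have hn0 : 0 < n := Nat.card_pos
  have hright : ∀ g : SD Q Y, (g ^ n).right = 1 := by
    intro g
    have : SemidirectProduct.rightHom (g ^ n) = (SemidirectProduct.rightHom g) ^ n := map_pow _ _ _
    rw [hn, pow_card_eq_one'] at this
    exact this
  have hinl : ∀ g : SD Q Y, g.right = 1 → g = SemidirectProduct.inl g.left := by
    intro g hg
    apply SemidirectProduct.ext
    · rfl
    · rw [hg]; rfl
  set C : Subgroup (SD Q Y) := Subgroup.centralizer {y} with hC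
  have memC : ∀ x : SD Q Y, x ∈ C ↔ Commute x y := by
    intro x
    rw [hC, Subgroup.mem_centralizer_singleton_iff]
    exact ⟨fun h => h.symm.symm, fun h => h.symm.symm⟩
  set r0 : FreeGroup Y := (y ^ n).left with hr0
  have hyn : y ^ n = SemidirectProduct.inl r0 := hinl _ (hright y)
  have hr01 : r0 ≠ 1 := by
    intro h
    apply hy
    rw [isOfFinOrder_iff_pow_eq_one]
    exact ⟨n, hn0, by rw [hyn, h, map_one]⟩
  set C0 : Subgroup (FreeGroup Y) := C.comap SemidirectProduct.inl with hC0
  have hcr0 : ∀ u ∈ C0, Commute u r0 := by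
    intro u hu
    have h3 : Commute (SemidirectProduct.inl u : SD Q Y) (y ^ n) := ((memC _).1 hu).pow_right n
    rw [hyn] at h3
    apply SemidirectProduct.inl_injective (φ := actF Q Y)
    have := h3.eq
    rw [← map_mul, ← map_mul] at this
    exact this
  have hcomm : ∀ x ∈ C0, ∀ w ∈ C0, x * w = w * x := fun x hx w hw =>
    comm_trans hr01 (hcr0 x hx) (hcr0 w hw)
  obtain ⟨r, hr⟩ := comm_cyclic C0 hcomm
  have hr0mem : r0 ∈ C0 := by
    rw [hC0, Subgroup.mem_comap, ← hyn, memC]
    exact (Commute.refl y).pow_left n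
  have hrmem : r ∈ C0 := by rw [hr]; exact Subgroup.mem_zpowers r
  obtain ⟨k, hk⟩ : ∃ k : ℤ, r ^ k = r0 := by
    rw [hr] at hr0mem
    exact Subgroup.mem_zpowers_iff.1 hr0mem
  have hk0 : k ≠ 0 := by
    rintro rfl
    exact hr01 (by rw [← hk, zpow_zero])
  -- inl r is central in C
  have hcen : ∀ x ∈ C, x * SemidirectProduct.inl r * x⁻¹ = SemidirectProduct.inl r := by
    intro x hx
    have hin : x * SemidirectProduct.inl r * x⁻¹ ∈ C :=
      C.mul_mem (C.mul_mem hx hrmem) (C.inv_mem hx)
    have hrt : (x * SemidirectProduct.inl r * x⁻¹).right = 1 := by simp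
    obtain ⟨u, hu⟩ : ∃ u : FreeGroup Y, x * SemidirectProduct.inl r * x⁻¹ = SemidirectProduct.inl u :=
      ⟨_, hinl _ hrt⟩
    have hu0 : u ∈ C0 := by rw [hC0, Subgroup.mem_comap, ← hu]; exact hin
    have hpow : u ^ k = r ^ k := by
      apply SemidirectProduct.inl_injective (φ := actF Q Y)
      rw [map_zpow, map_zpow, ← hu, conj_zpow, ← map_zpow, hk, ← hyn]
      have := ((memC x).1 hx).pow_right n
      rw [this.eq]
      group
    rw [zpow_left_inj hk0] at hpow
    rw [hu, hpow]
  -- the centre of C has finite index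
  let f : C →* Q := (SemidirectProduct.rightHom : SD Q Y →* Q).comp C.subtype
  have hker : f.ker ≤ Subgroup.center C := by
    intro x hx
    rw [MonoidHom.mem_ker] at hx
    have hx1 : (x : SD Q Y).right = 1 := hx
    have hxi := hinl _ hx1
    have hxm : (x : SD Q Y).left ∈ C0 := by
      rw [hC0, Subgroup.mem_comap, ← hxi]; exact x.2
    rw [hr] at hxm
    obtain ⟨j, hj⟩ := Subgroup.mem_zpowers_iff.1 hxm
    rw [Subgroup.mem_center_iff]
    intro g
    apply Subtype.ext
    show (g : SD Q Y) * x = x * g
    rw [hxi, ← hj, map_zpow]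
    have := hcen g g.2
    have hcg : Commute (g : SD Q Y) (SemidirectProduct.inl r) := by
      rw [mul_inv_eq_iff_eq_mul] at this
      exact this
    exact (hcg.zpow_right j).eq
  have hfi : (Subgroup.center C).FiniteIndex := Subgroup.finiteIndex_of_le hker
  have hcs : Finite (commutatorSet C) := SD5_center_fin
  have hcf : Finite (commutator C) := inferInstance
  let X1 : C := ⟨x1, (memC x1).2 h1⟩
  let X2 : C := ⟨x2, (memC x2).2 h2⟩
  have hmem : ⁅X1, X2⁆ ∈ commutator C :=
    Subgroup.commutator_mem_commutator (Subgroup.mem_top _) (Subgroup.mem_top _)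
  have hfo : IsOfFinOrder (⟨_, hmem⟩ : commutator C) := isOfFinOrder_of_finite _
  have h3 := C.subtype.isOfFinOrder ((commutator C).subtype.isOfFinOrder hfo)
  exact h3

end Pool.Agent.Helper46.OF
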