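import Pool.Agent.Helper46.OF.RA4
import Pool.Agent.Helper46.OF.SD1
import Pool.Agent.Helper46.OF.SD2
import Pool.Agent.Helper46.OF.SD5

/-! # OFG-RA5 (0.9h): the deep quotient theorem
B := Raag (Gm Γ v) is RF (rf_raag), L := Lk Γ v, ρ0 from lk_retract, Θ from exists_theta.
For g ∈ S: Θ g is not conjugate to an inr b (otherwise g = x * inc b * x⁻¹ is v-elliptic, as Θ (inc b) = inr b), so by conj_tr Θ g = x h x⁻¹ with TR h.left h.right; T_g from tr_map.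
For g ∈ T: (Θ g).right = ret g = 1, so (Θ g).left ≠ 1; T_g from map_ne_one.  deepQ for the union of all T_g (Finset.biUnion, or choose functions), S := ∅, gives Q, Y, q, p.
ρ := (sdMap q p h).comp Θ.  g ∈ S: ρ g is conjugate to sdMap h, which is TR, so not of finite order (tr_inf; conjugation: IsOfFinOrder iff, `isOfFinOrder_iff_pow_eq_one` / MulAut.conj).
g ∈ T: left ≠ 1.  ret g = 1 => (ρ g).right = q (ret g) = 1.  v-elliptic g = x inc b x⁻¹: ρ g = ρ x * inr (q b) * (ρ x)⁻¹ (sdMap of inr b is inr (q b)) : inr_fin. -/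

set_option autoImplicit false
namespace Pool.Agent.Helper46.OF
open Pool.Agent.Helper96.OF

private theorem sep_ell {V : Type} (Γ : SimpleGraph V) (v : V)
    (Θ : Raag Γ ≃* SD (Raag (Gm Γ v)) (Raag (Gm Γ v) ⧸ Lk Γ v))
    (hΘ : ∀ x, Θ (inc Γ v x) = SemidirectProduct.inr x) (g : Raag Γ) (hg : ¬ VEll Γ v g) :
    ∃ T : Finset (Raag (Gm Γ v) ⧸ Lk Γ v), ∀ (C Y : Type) [Group C] [MulAction C Y]
      (q : Raag (Gm Γ v) →* C) (p : (Raag (Gm Γ v) ⧸ Lk Γ v) → Y) (h : ∀ b x, p (b • x) = q b • p x),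
      Set.InjOn p (T : Set (Raag (Gm Γ v) ⧸ Lk Γ v)) → ¬ IsOfFinOrder (sdMap q p h (Θ g)) := by
  rcases conj_tr (Θ g) with ⟨x, b, hx⟩ | ⟨x, h', hTR, hx⟩
  · exfalso
    apply hg
    refine ⟨Θ.symm x, b, ?_⟩
    apply Θ.injective
    rw [hx, map_mul, map_mul, map_inv, hΘ, MulEquiv.apply_symm_apply]
  · obtain ⟨T, hT⟩ := tr_map _ _ hTR
    refine ⟨T, fun C Y _ _ q p h hinj hfin => ?_⟩
    have h1 := hT C Y q p h hinj
    have h2 : ¬ IsOfFinOrder (sdMap q p h h') := tr_inf (sdMap q p h h') h1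
    apply h2
    rw [hx, map_mul, map_mul, map_inv] at hfin
    rw [isOfFinOrder_iff_pow_eq_one] at hfin ⊢
    obtain ⟨n, hn, hpow⟩ := hfin
    refine ⟨n, hn, ?_⟩
    rw [conj_pow, mul_inv_eq_one] at hpow
    exact mul_eq_left.1 hpow

private theorem sep_ker {V : Type} (Γ : SimpleGraph V) (v : V)
    (Θ : Raag Γ ≃* SD (Raag (Gm Γ v)) (Raag (Gm Γ v) ⧸ Lk Γ v))
    (hΘ' : ∀ g, (Θ g).right = ret Γ v g) (g : Raag Γ) (hg : ret Γ v g = 1 ∧ g ≠ 1) :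
    ∃ T : Finset (Raag (Gm Γ v) ⧸ Lk Γ v), ∀ (C Y : Type) [Group C] [MulAction C Y]
      (q : Raag (Gm Γ v) →* C) (p : (Raag (Gm Γ v) ⧸ Lk Γ v) → Y) (h : ∀ b x, p (b • x) = q b • p x),
      Set.InjOn p (T : Set (Raag (Gm Γ v) ⧸ Lk Γ v)) → sdMap q p h (Θ g) ≠ 1 := by
  have hl : (Θ g).left ≠ 1 := by
    intro h0
    apply hg.2
    apply Θ.injective
    rw [map_one]
    refine SemidirectProduct.ext h0 ?_
    rw [hΘ', hg.1]
    rfl
  obtain ⟨T, hT⟩ := map_ne_one _ hl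
  refine ⟨T, fun C Y _ _ q p h hinj hone => hT Y p hinj ?_⟩
  rw [← sdMap_left q p h, hone]
  rfl

theorem deep {V : Type} [Finite V] (Γ : SimpleGraph V) (v : V) (S T : Finset (Raag Γ))
    (hS : ∀ g ∈ S, ¬ VEll Γ v g) (hT : ∀ g ∈ T, ret Γ v g = 1 ∧ g ≠ 1) :
    ∃ (Q Y : Type) (_ : Group Q) (_ : Finite Q) (_ : Finite Y) (_ : MulAction Q Y)
      (ρ : Raag Γ →* SD Q Y), (∀ g ∈ S, ¬ IsOfFinOrder (ρ g)) ∧ (∀ g ∈ T, ρ g ≠ 1) ∧
        (∀ g, ret Γ v g = 1 → (ρ g).right = 1) ∧ (∀ g, VEll Γ v g → IsOfFinOrder (ρ g)) := by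
  classical
  obtain ⟨Θ, hΘ, hΘ'⟩ := exists_theta Γ v
  obtain ⟨ρ0, hρ1, hρ2⟩ := lk_retract Γ v
  have hRF : RF (Raag (Gm Γ v)) := rf_raag (Gm Γ v)
  choose! TS hTS using fun g (hg : ¬ VEll Γ v g) => sep_ell Γ v Θ hΘ g hg
  choose! TT hTT using fun g (hg : ret Γ v g = 1 ∧ g ≠ 1) => sep_ker Γ v Θ hΘ' g hg
  obtain ⟨Q, Y, iQ, fQ, fY, iA, q, p, hqp, hinj, -⟩ :=
    deepQ hRF (Lk Γ v) ρ0 hρ1 hρ2 (S.biUnion TS ∪ T.biUnion TT) ∅ (by simp)
  refine ⟨Q, Y, iQ, fQ, fY, iA, (sdMap q p hqp).comp Θ.toMonoidHom, fun g hg => ?_, fun g hg => ?_,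
    fun g hg => ?_, fun g hg => ?_⟩
  · refine hTS g (hS g hg) Q Y q p hqp (hinj.mono ?_)
    intro x hx
    simp only [Finset.coe_union, Finset.coe_biUnion, Set.mem_union, Set.mem_iUnion]
    exact Or.inl ⟨g, hg, hx⟩
  · refine hTT g (hT g hg) Q Y q p hqp (hinj.mono ?_)
    intro x hx
    simp only [Finset.coe_union, Finset.coe_biUnion, Set.mem_union, Set.mem_iUnion]
    exact Or.inr ⟨g, hg, hx⟩
  · show (sdMap q p hqp (Θ g)).right = 1
    rw [sdMap_right, hΘ', hg, map_one]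
  · obtain ⟨x, h, rfl⟩ := hg
    show IsOfFinOrder (sdMap q p hqp (Θ (x * inc Γ v h * x⁻¹)))
    have h0 : Θ (x * inc Γ v h * x⁻¹) = Θ x * SemidirectProduct.inr h * (Θ x)⁻¹ := by
      rw [map_mul, map_mul, map_inv, hΘ]
    rw [h0, map_mul, map_mul, map_inv]
    have h1 : sdMap q p hqp (SemidirectProduct.inr h) = SemidirectProduct.inr (q h) := by
      refine SemidirectProduct.ext ?_ ?_
      · rw [sdMap_left]
        simp
      · rw [sdMap_right]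
        simp
    rw [h1]
    exact inr_fin _ _

end Pool.Agent.Helper46.OF
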