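import Pool.Agent.Helper46.OF.CA4
import Pool.Agent.Helper46.OF.GP2
import Pool.Agent.Helper46.OF.RA5

/-! # OFG-GP4 (0.8h): Claim A
By contradiction: f q not v-elliptic.  K := ((ret Γ v).comp f).ker.map H.subtype ≤ H, normalised by H, ≠ ⊥ (hK: not injective, so some x ≠ 1 in the kernel).  kelem H K … N gives s, s' with conj s, conj s' ∈ K,
s s' ≠ s' s, and s3 with conj s3 ∈ K, gz^N s3 ≠ s3 gz^N.  Put k := conj s, k' := conj s', k3 := conj s3 as elements of H; T := {f (k k' k⁻¹ k'⁻¹), f (y k3 y⁻¹ k3⁻¹)}, y := ⟨conj (gz^N), hy⟩: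
ret (f …) = 1 (k, k', k3 are in the kernel of ret ∘ f) and f … ≠ 1 (f injective; conj injective on A: `conj g = 1` means g central in A = FreeGroup (Fin 2), g = 1; or: the elements
k k' k⁻¹ k'⁻¹ = conj [s,s'] ≠ 1: if it were 1 then [s,s'] would be central, so trivial (center of FreeGroup (Fin 2): an element commuting with ga and gb is 1 by comm_trans)).
deep with S = {f q}, this T gives Q, Y, ρ; σ := ρ.comp f.  σ y of finite order (f y is v-elliptic: hell), σ q of infinite order.  conj s, conj s', conj s3 ∈ HQ H σ since ret (f k) = 1 => (σ k).right = 1.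
So s, s', s3 ∈ AA1; p0 s, p0 s' do not commute, because σ k, σ k' have right = 1 and σ (k k' k⁻¹ k'⁻¹) ≠ 1.  ca_main for g := s3: s3⁻¹ * (gz^N s3 gz^(-N)) ∈ RR1, i.e. σ of
k3⁻¹ * (y k3 y⁻¹) is 1, so σ (y k3 y⁻¹ k3⁻¹) = 1 (conjugate), contradiction to the choice of T. -/

set_option autoImplicit false
namespace Pool.Agent.Helper46.OF
open Pool.Agent.Helper96.OF


private theorem ga_gb_ne : ga * gb ≠ gb * ga := by decide

private theorem conj_one {g : A} (h : MulAut.conj g = 1) : g = 1 := by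
  by_contra hg
  have hc : ∀ x : A, Commute x g := by
    intro x
    have h1 : MulAut.conj g x = x := by rw [h]; rfl
    rw [MulAut.conj_apply] at h1
    have h2 : g * x = x * g := by
      calc g * x = (g * x * g⁻¹) * g := by group
        _ = x * g := by rw [h1]
    exact h2.symm
  exact ga_gb_ne (comm_trans hg (hc ga) (hc gb)).eq

theorem claimA (hM : TheoremM) {V : Type} [Finite V] (Γ : SimpleGraph V) (v : V) (H : Subgroup (MulAut A))
    (hH : H ≤ G0) (hfin : H.relIndex G0 ≠ 0) (f : H →* Raag Γ) (hf : Function.Injective f)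
    (hK : ¬ Function.Injective ((ret Γ v).comp f)) (N : ℤ) (hN : N ≠ 0) (hy : MulAut.conj (gz ^ N) ∈ H)
    (hell : VEll Γ v (f ⟨MulAut.conj (gz ^ N), hy⟩)) (q : H) (hq : (q : MulAut A) gz = gz) :
    VEll Γ v (f q) := by
  classical
  by_contra hq0
  obtain ⟨y, hydef⟩ : ∃ y : H, y = ⟨MulAut.conj (gz ^ N), hy⟩ := ⟨_, rfl⟩
  have hyc : (y : MulAut A) = MulAut.conj (gz ^ N) := by rw [hydef]
  obtain ⟨r, hr0⟩ : ∃ r : H →* Raag (Gm Γ v), r = (ret Γ v).comp f := ⟨_, rfl⟩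
  have hrap : ∀ x, r x = ret Γ v (f x) := by intro x; rw [hr0]; rfl
  rw [← hr0] at hK
  obtain ⟨K, hKdef⟩ : ∃ K : Subgroup (MulAut A), K = r.ker.map H.subtype := ⟨_, rfl⟩
  have hKH : K ≤ H := by
    rw [hKdef]; rintro _ ⟨x, -, rfl⟩; exact x.2
  have hn : ∀ h ∈ H, ∀ k ∈ K, h * k * h⁻¹ ∈ K := by
    rw [hKdef]
    rintro h hh _ ⟨x, hx, rfl⟩
    have hnorm : r.ker.Normal := inferInstance
    exact ⟨⟨h, hh⟩ * x * ⟨h, hh⟩⁻¹, Subgroup.Normal.conj_mem hnorm x hx ⟨h, hh⟩, rfl⟩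
  have h1 : K ≠ ⊥ := by
    intro hbot
    apply hK
    rw [← MonoidHom.ker_eq_bot_iff, eq_bot_iff]
    intro x hx
    have hxK : (x : MulAut A) ∈ K := by rw [hKdef]; exact ⟨x, hx, rfl⟩
    rw [hbot, Subgroup.mem_bot] at hxK
    exact Subgroup.mem_bot.2 (Subtype.ext hxK)
  obtain ⟨⟨s, s', hs, hs', hss⟩, s3, hs3, hz⟩ := kelem H K hfin hKH hn h1 N hN
  -- elements of `H`
  have hrK : ∀ (t : A) (ht : MulAut.conj t ∈ K), ret Γ v (f ⟨MulAut.conj t, hKH ht⟩) = 1 := by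
    intro t ht
    have ht' := ht
    rw [hKdef] at ht'
    obtain ⟨x, hx, hxt⟩ := ht'
    have : (⟨MulAut.conj t, hKH ht⟩ : H) = x := Subtype.ext hxt.symm
    rw [this, ← hrap]
    exact hx
  obtain ⟨k, hk⟩ : ∃ k : H, k = ⟨MulAut.conj s, hKH hs⟩ := ⟨_, rfl⟩
  obtain ⟨k', hk'⟩ : ∃ k' : H, k' = ⟨MulAut.conj s', hKH hs'⟩ := ⟨_, rfl⟩
  obtain ⟨k3, hk3⟩ : ∃ k3 : H, k3 = ⟨MulAut.conj s3, hKH hs3⟩ := ⟨_, rfl⟩
  have hkc : (k : MulAut A) = MulAut.conj s := by rw [hk]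
  have hkc' : (k' : MulAut A) = MulAut.conj s' := by rw [hk']
  have hkc3 : (k3 : MulAut A) = MulAut.conj s3 := by rw [hk3]
  have hrk : ret Γ v (f k) = 1 := by rw [hk]; exact hrK s hs
  have hrk' : ret Γ v (f k') = 1 := by rw [hk']; exact hrK s' hs'
  have hrk3 : ret Γ v (f k3) = 1 := by rw [hk3]; exact hrK s3 hs3
  have e1 : f (k * k' * k⁻¹ * k'⁻¹) ≠ 1 := by
    intro h
    have h2 : k * k' * k⁻¹ * k'⁻¹ = 1 := hf (by rw [h, map_one])
    have h3 := congrArg (Subtype.val) h2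
    simp only [Subgroup.coe_mul, Subgroup.coe_inv, hkc, hkc', Subgroup.coe_one, ← map_mul,
      ← map_inv] at h3
    have h4 := conj_one h3
    apply hss
    rw [mul_inv_eq_one, mul_inv_eq_iff_eq_mul] at h4
    exact h4
  have e2 : f (y * k3 * y⁻¹ * k3⁻¹) ≠ 1 := by
    intro h
    have h2 : y * k3 * y⁻¹ * k3⁻¹ = 1 := hf (by rw [h, map_one])
    have h3 := congrArg (Subtype.val) h2
    simp only [Subgroup.coe_mul, Subgroup.coe_inv, hyc, hkc3, Subgroup.coe_one, ← map_mul,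
      ← map_inv] at h3
    have h4 := conj_one h3
    apply hz
    rw [mul_inv_eq_one, mul_inv_eq_iff_eq_mul] at h4
    exact h4
  obtain ⟨Q, Y, iQ, fQ, fY, iA, ρ, hS, hT, hr, hell'⟩ :=
    deep Γ v {f q} {f (k * k' * k⁻¹ * k'⁻¹), f (y * k3 * y⁻¹ * k3⁻¹)}
      (by
        intro g hg
        rw [Finset.mem_singleton] at hg
        rw [hg]; exact hq0)
      (by
        intro g hg
        rw [Finset.mem_insert, Finset.mem_singleton] at hg
        rcases hg with rfl | rfl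
        · refine ⟨?_, e1⟩
          simp only [map_mul, map_inv, hrk, hrk']
          simp
        · refine ⟨?_, e2⟩
          simp only [map_mul, map_inv, hrk3]
          simp)
  have hTa := hT _ (Finset.mem_insert_self _ _)
  have hTb := hT _ (Finset.mem_insert_of_mem (Finset.mem_singleton_self _))
  have hSq := hS _ (Finset.mem_singleton_self _)
  obtain ⟨σ, hσ⟩ : ∃ σ : H →* SD Q Y, σ = ρ.comp f := ⟨_, rfl⟩
  have hσa : ∀ x, σ x = ρ (f x) := by intro x; rw [hσ]; rfl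
  rw [← hσa] at hTa hTb hSq
  have hk_r : (σ k).right = 1 := by rw [hσa]; exact hr _ hrk
  have hk'_r : (σ k').right = 1 := by rw [hσa]; exact hr _ hrk'
  have hk3_r : (σ k3).right = 1 := by rw [hσa]; exact hr _ hrk3
  have ms : s ∈ AA1 H σ := by
    rw [mem_AA1, mem_HQ]
    exact ⟨hKH hs, by rw [← hk]; exact hk_r⟩
  have ms' : s' ∈ AA1 H σ := by
    rw [mem_AA1, mem_HQ]
    exact ⟨hKH hs', by rw [← hk']; exact hk'_r⟩
  have ms3 : s3 ∈ AA1 H σ := by
    rw [mem_AA1, mem_HQ]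
    exact ⟨hKH hs3, by rw [← hk3]; exact hk3_r⟩
  have hp : p0 H σ ⟨s, ms⟩ = (σ k).left := by rw [hk]; rfl
  have hp' : p0 H σ ⟨s', ms'⟩ = (σ k').left := by rw [hk']; rfl
  have hncomm : p0 H σ ⟨s, ms⟩ * p0 H σ ⟨s', ms'⟩ ≠ p0 H σ ⟨s', ms'⟩ * p0 H σ ⟨s, ms⟩ := by
    intro h
    apply hTa
    rw [hp, hp'] at h
    have h5 : σ k * σ k' = σ k' * σ k := by
      apply SemidirectProduct.ext
      · rw [SemidirectProduct.mul_left, SemidirectProduct.mul_left, hk_r, hk'_r, map_one]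
        simpa using h
      · rw [SemidirectProduct.mul_right, SemidirectProduct.mul_right, hk_r, hk'_r]
    rw [map_mul, map_mul, map_mul, map_inv, map_inv, h5]
    group
  have hfin' := ca_main H σ hM hH hfin N hN hy (by rw [hσa]; exact hell' _ hell) q hq hSq ⟨s, ms⟩
    ⟨s', ms'⟩ hncomm s3 ms3
  rw [mem_RR1, mem_MM] at hfin'
  obtain ⟨hm, hm1⟩ := hfin'
  have h6 : (⟨MulAut.conj (s3⁻¹ * (gz ^ N * s3 * gz ^ (-N))), hm⟩ : H) = k3⁻¹ * (y * k3 * y⁻¹) := by
    apply Subtype.ext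
    simp only [Subgroup.coe_mul, Subgroup.coe_inv, hyc, hkc3, map_mul, map_inv, zpow_neg]
  rw [h6, map_mul, map_inv, inv_mul_eq_one] at hm1
  apply hTb
  rw [map_mul, map_inv, ← hm1, mul_inv_cancel]

end Pool.Agent.Helper46.OF
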