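import Pool.Agent.Helper46.OF.GDefs

/-! # OFG-RA6: an element of a RAAG which is v-elliptic for every v is trivial (helper83)
Induction on the number of vertices. -/

set_option autoImplicit false
namespace Pool.Agent.Helper46.OF
open Pool.Agent.Helper96.OF

open Classical in
/-- from the RAAG of `Γ - w` to the RAAG of `Γ - v - w`, killing `v` -/
private noncomputable def killH {V : Type} (Γ : SimpleGraph V) (v w : V) (hw : w ≠ v) :
    Raag (Gm Γ w) →* Raag (Gm (Gm Γ v) ⟨w, hw⟩) :=
  lft (Gm Γ w) (fun u => if h : (u : V) = v then 1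
    else og (Gm (Gm Γ v) ⟨w, hw⟩) ⟨⟨(u : V), h⟩, fun e => u.2 (congrArg Subtype.val e)⟩) (by
    intro a b hab
    by_cases ha : (a : V) = v
    · rw [dif_pos ha, one_mul, mul_one]
    · by_cases hb : (b : V) = v
      · rw [dif_pos hb, one_mul, mul_one]
      · rw [dif_neg ha, dif_neg hb]
        exact og_comm _ (by exact hab))

private theorem ret_inc_kill {V : Type} (Γ : SimpleGraph V) (v w : V) (hw : w ≠ v)
    (k : Raag (Gm Γ w)) :
    ret Γ v (inc Γ w k) = inc (Gm Γ v) ⟨w, hw⟩ (killH Γ v w hw k) := by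
  have : (ret Γ v).comp (inc Γ w) = (inc (Gm Γ v) ⟨w, hw⟩).comp (killH Γ v w hw) := by
    apply hom_ext
    intro u
    simp only [MonoidHom.comp_apply, inc_og, killH, lft_og]
    by_cases hu : (u : V) = v
    · rw [dif_pos hu, map_one, hu, ret_v]
    · rw [dif_neg hu, ret_ne Γ v _ hu, inc_og]
  exact DFunLike.congr_fun this k

private theorem all_ell_aux (n : ℕ) : ∀ (V : Type) [Finite V] (Γ : SimpleGraph V) (g : Raag Γ),
    Nat.card V = n → (∀ v, VEll Γ v g) → g = 1 := by
  induction n using Nat.strong_induction_on with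
  | _ n ih =>
    intro V _ Γ g hn hg
    rcases isEmpty_or_nonempty V with hV | ⟨⟨v⟩⟩
    · have := mem_of_og Γ ⊥ (fun w => (hV.false w).elim) g
      exact Subgroup.mem_bot.1 this
    · obtain ⟨x, h, hgx⟩ := hg v
      have hlt : Nat.card (Vm v) < n := by
        rw [← hn]
        exact Finite.card_subtype_lt (p := fun w => w ≠ v) (x := v) (by simp)
      have h1 : h = 1 := by
        apply ih _ hlt (Vm v) (Gm Γ v) h rfl
        rintro ⟨w, hw⟩
        obtain ⟨y, k, hy⟩ := hg w
        have e1 : inc Γ v h = (x⁻¹ * y) * inc Γ w k * (x⁻¹ * y)⁻¹ := by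
          have : inc Γ v h = x⁻¹ * g * x := by rw [hgx]; group
          rw [this, hy]; group
        have e2 := congrArg (ret Γ v) e1
        rw [ret_inc, map_mul, map_mul, map_inv, ret_inc_kill Γ v w hw] at e2
        exact ⟨_, _, e2⟩
      rw [hgx, h1]; simp

theorem all_ell {V : Type} [Finite V] (Γ : SimpleGraph V) (g : Raag Γ) (h : ∀ v, VEll Γ v g) : g = 1 :=
  all_ell_aux _ V Γ g rfl h

end Pool.Agent.Helper46.OF
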