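import Pool.Agent.Helper46.OF.GP3
import Pool.Agent.Helper46.OF.GP4
import Pool.Agent.Helper46.OF.RA6

/-! # OFG-GP5 (0.7h): no embedding
Strong induction on n = Nat.card V: no Emb Γ.  Emb Γ gives H, f.  For every v : V, (ret Γ v).comp f is not injective: otherwise it shows Emb (Gm Γ v) with card (Vm v) < card V (Vm v is finite; V is finite).
N := n1 n2 n3 > 0 with t1^N, t2^N, conj (gz)^N = conj (gz^N) ∈ H (exists_pow, t1_mem, t2_mem, conj_mem_G0; powers of powers).  y := ⟨conj (gz^N), _⟩ (write gz^(N:ℤ)), x1 := ⟨t1^N, _⟩, x2 := ⟨t2^N, _⟩; t1^N and t2^N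
fix gz (t1_gz, t2_gz, induction), so t_i^N * conj (gz^N) * t_i^{-N} = conj (t_i^N (gz^N)) = conj (gz^N): y commutes with x1, x2.  c := x1 x2 x1⁻¹ x2⁻¹ fixes gz.  For each v: f c is v-elliptic: if f y is v-elliptic: claimA
with q := c; otherwise claimB for f y, f x1, f x2 (f c = [f x1, f x2]).  all_ell: f c = 1, c = 1, contradiction to comm_t_ne. -/

set_option autoImplicit false
namespace Pool.Agent.Helper46.OF
open Pool.Agent.Helper96.OF

private lemma gp5_fix_pow (t : MulAut A) (g : A) (h : t g = g) (n : ℕ) : (t ^ n) g = g := by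
  induction n with
  | zero => simp
  | succ n ih => rw [pow_succ, MulAut.mul_apply, h, ih]

private lemma gp5_fix_inv (t : MulAut A) (g : A) (h : t g = g) : (t⁻¹) g = g := by
  have h1 : (t⁻¹) (t g) = g := by rw [← MulAut.mul_apply, inv_mul_cancel, MulAut.one_apply]
  rw [h] at h1
  exact h1

private lemma gp5_comm (t : MulAut A) (g : A) (h : t g = g) :
    t * MulAut.conj g = MulAut.conj g * t := by
  apply MulEquiv.ext
  intro x
  rw [MulAut.mul_apply, MulAut.mul_apply, MulAut.conj_apply, MulAut.conj_apply, map_mul, map_mul,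
    map_inv, h]

private lemma gp5_aux (hM : TheoremM) : ∀ (n : ℕ) (V : Type) (_ : Finite V) (Γ : SimpleGraph V),
    Nat.card V = n → ¬ Emb Γ := by
  intro n
  induction n using Nat.strong_induction_on with
  | _ n ih =>
  intro V _ Γ hn hE
  obtain ⟨H, f, hH, hfin, hf⟩ := hE
  have hK : ∀ v : V, ¬ Function.Injective ((ret Γ v).comp f) := by
    intro v hinj
    have hcard : Nat.card (Vm v) < n := by
      classical
      haveI := Fintype.ofFinite V
      rw [← hn, Nat.card_eq_fintype_card, Nat.card_eq_fintype_card]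
      exact Fintype.card_subtype_lt (x := v) (by simp)
    exact ih _ hcard (Vm v) inferInstance (Gm Γ v) rfl ⟨H, (ret Γ v).comp f, hH, hfin, hinj⟩
  obtain ⟨n1, hn1, h1⟩ := exists_pow H hfin t1 t1_mem
  obtain ⟨n2, hn2, h2⟩ := exists_pow H hfin t2 t2_mem
  obtain ⟨n3, hn3, h3⟩ := exists_pow H hfin (MulAut.conj gz) (conj_mem_G0 gz)
  set N : ℕ := n1 * n2 * n3 with hNdef
  have hN : 0 < N := Nat.mul_pos (Nat.mul_pos hn1 hn2) hn3
  have hx1 : t1 ^ N ∈ H := by
    have : t1 ^ N = (t1 ^ n1) ^ (n2 * n3) := by rw [← pow_mul, hNdef]; congr 1; ring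
    rw [this]
    exact H.pow_mem h1 _
  have hx2 : t2 ^ N ∈ H := by
    have : t2 ^ N = (t2 ^ n2) ^ (n1 * n3) := by rw [← pow_mul, hNdef]; congr 1; ring
    rw [this]
    exact H.pow_mem h2 _
  have hy : MulAut.conj (gz ^ (N : ℤ)) ∈ H := by
    have : MulAut.conj (gz ^ (N : ℤ)) = ((MulAut.conj gz) ^ n3) ^ (n1 * n2) := by
      rw [← pow_mul, zpow_natCast, map_pow, hNdef]; congr 1; ring
    rw [this]
    exact H.pow_mem h3 _
  have f1 : (t1 ^ N) gz = gz := gp5_fix_pow t1 gz t1_gz N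
  have f2 : (t2 ^ N) gz = gz := gp5_fix_pow t2 gz t2_gz N
  have g1 : (t1 ^ N) (gz ^ (N : ℤ)) = gz ^ (N : ℤ) := by rw [map_zpow, f1]
  have g2 : (t2 ^ N) (gz ^ (N : ℤ)) = gz ^ (N : ℤ) := by rw [map_zpow, f2]
  let y : H := ⟨MulAut.conj (gz ^ (N : ℤ)), hy⟩
  let x1 : H := ⟨t1 ^ N, hx1⟩
  let x2 : H := ⟨t2 ^ N, hx2⟩
  have c1 : Commute (f x1) (f y) := by
    have : x1 * y = y * x1 := Subtype.ext (gp5_comm (t1 ^ N) _ g1)
    have h := congrArg f this
    rw [map_mul, map_mul] at h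
    exact h
  have c2 : Commute (f x2) (f y) := by
    have : x2 * y = y * x2 := Subtype.ext (gp5_comm (t2 ^ N) _ g2)
    have h := congrArg f this
    rw [map_mul, map_mul] at h
    exact h
  let c : H := x1 * x2 * x1⁻¹ * x2⁻¹
  have hc : (c : MulAut A) = t1 ^ N * t2 ^ N * (t1 ^ N)⁻¹ * (t2 ^ N)⁻¹ := rfl
  have hcgz : (c : MulAut A) gz = gz := by
    rw [hc, MulAut.mul_apply, MulAut.mul_apply, MulAut.mul_apply, gp5_fix_inv _ _ f2,
      gp5_fix_inv _ _ f1, f2, f1]
  have hell : ∀ v, VEll Γ v (f c) := by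
    intro v
    by_cases hv : VEll Γ v (f y)
    · exact claimA hM Γ v H hH hfin f hf (hK v) (N : ℤ) (by exact_mod_cast hN.ne') hy hv c hcgz
    · have h := claimB Γ v (f y) (f x1) (f x2) c1 c2 hv
      have e : f c = f x1 * f x2 * (f x1)⁻¹ * (f x2)⁻¹ := by
        rw [← map_inv, ← map_inv, ← map_mul, ← map_mul, ← map_mul]
      rw [e]
      exact h
  have hfc : f c = 1 := all_ell Γ (f c) hell
  have hc1 : c = 1 := hf (by rw [hfc, map_one])
  apply comm_t_ne N hN
  rw [← hc, hc1]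
  rfl

theorem no_emb (hM : TheoremM) : ¬ ∃ (V : Type) (_ : Finite V) (Γ : SimpleGraph V), Emb Γ := by
  rintro ⟨V, hV, Γ, h⟩
  exact gp5_aux hM (Nat.card V) V hV Γ rfl h

end Pool.Agent.Helper46.OF
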