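import Pool.Agent.Helper46.OF.GDefs

/-! # OFG-KS1 (0.8h): prefixes of elements of a finitely generated subgroup
`wd x` = reduced word of x (classical), `(wd x).length` = length. F f.g. => there is ell such that every prefix p of the reduced word of an element x of F
is at distance ≤ ell from F: `p = f * u` with f ∈ F, |u| ≤ ell.
Proof: F = closure of a finite set S, ell := max length of the elements of S (and inverses: same length).
One letter l: a nonempty prefix p of wd (l * x) satisfies mk p = l * mk p' with p' a prefix of wd x.  Induction on the letters of q: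
every prefix p of wd (mk q * x) satisfies mk p = mk q * mk p' with p' a prefix of wd x, or mk p = mk q' with q' a prefix of q.
Then induction on the element of the closure, multiplying on the left by generators. -/

set_option autoImplicit false
namespace Pool.Agent.Helper46.OF

private lemma ks1_letter {Y : Type} (l : Y × Bool) (x : FreeGroup Y) (p s : List (Y × Bool))
    (h : wd (FreeGroup.mk [l] * x) = p ++ s) :
    p = [] ∨ ∃ p' s', wd x = p' ++ s' ∧ FreeGroup.mk p = FreeGroup.mk [l] * FreeGroup.mk p' := by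
  classical
  rcases p with _ | ⟨a, p⟩
  · exact Or.inl rfl
  right
  unfold wd at *
  rw [FreeGroup.toWord_mul, FreeGroup.toWord_mk, FreeGroup.reduce_singleton,
    List.singleton_append, FreeGroup.reduce.cons, FreeGroup.reduce_toWord] at h
  rcases hx : FreeGroup.toWord x with _ | ⟨b, t⟩
  · rw [hx] at h
    simp only [List.cons_append, List.cons.injEq] at h
    obtain ⟨rfl, h2⟩ := h
    have hp : p = [] := by
      rcases p with _ | ⟨c, p⟩
      · rfl
      · simp at h2
    subst hp
    exact ⟨[], [], rfl, by rw [← FreeGroup.one_eq_mk, mul_one]⟩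
  · rw [hx] at h
    simp only at h
    by_cases hc : l.1 = b.1 ∧ l.2 = !b.2
    · rw [if_pos hc] at h
      refine ⟨b :: a :: p, s, by rw [h]; simp, ?_⟩
      rw [FreeGroup.mul_mk]
      symm
      apply FreeGroup.reduce.exact
      apply FreeGroup.reduce.Step.eq
      obtain ⟨b1, b2⟩ := b
      obtain ⟨l1, l2⟩ := l
      simp only at hc
      obtain ⟨rfl, rfl⟩ := hc
      simpa using (FreeGroup.Red.Step.not (L₁ := []) (L₂ := a :: p) (x := l1) (b := !b2))
    · rw [if_neg hc] at h
      simp only [List.cons_append, List.cons.injEq] at h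
      obtain ⟨rfl, h2⟩ := h
      exact ⟨p, s, h2, by rw [FreeGroup.mul_mk]; rfl⟩

private lemma ks1_word {Y : Type} (q : List (Y × Bool)) (x : FreeGroup Y) :
    ∀ p s : List (Y × Bool), wd (FreeGroup.mk q * x) = p ++ s →
    (∃ p' s', wd x = p' ++ s' ∧ FreeGroup.mk p = FreeGroup.mk q * FreeGroup.mk p') ∨
    (∃ q' q'', q = q' ++ q'' ∧ FreeGroup.mk p = FreeGroup.mk q') := by
  induction q with
  | nil =>
    intro p s h
    rw [← FreeGroup.one_eq_mk, one_mul] at h
    exact Or.inl ⟨p, s, h, by rw [← FreeGroup.one_eq_mk, one_mul]⟩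
  | cons l q ih =>
    intro p s h
    have hl : FreeGroup.mk (l :: q) = FreeGroup.mk [l] * FreeGroup.mk q := by
      rw [FreeGroup.mul_mk]; rfl
    rw [hl, mul_assoc] at h
    rcases ks1_letter l _ p s h with rfl | ⟨p', s', h1, h2⟩
    · exact Or.inr ⟨[], l :: q, rfl, rfl⟩
    · rcases ih p' s' h1 with ⟨p'', s'', h3, h4⟩ | ⟨q', q'', h3, h4⟩
      · exact Or.inl ⟨p'', s'', h3, by rw [h2, h4, hl, mul_assoc]⟩
      · refine Or.inr ⟨l :: q', q'', by rw [h3]; rfl, ?_⟩
        rw [h2, h4, FreeGroup.mul_mk]
        rfl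

private lemma ks1_len {Y : Type} (q : List (Y × Bool)) :
    (wd (FreeGroup.mk q)).length ≤ q.length := by
  classical
  unfold wd
  exact FreeGroup.norm_mk_le

theorem ks_prefix {Y : Type} (F : Subgroup (FreeGroup Y)) (hfg : F.FG) :
    ∃ ell : ℕ, ∀ x ∈ F, ∀ p s : List (Y × Bool), wd x = p ++ s →
      ∃ f ∈ F, (wd (f⁻¹ * FreeGroup.mk p)).length ≤ ell := by
  classical
  obtain ⟨S, hS⟩ := hfg
  refine ⟨S.sup (fun x => (wd x).length), ?_⟩
  set ell := S.sup (fun x => (wd x).length) with hell
  have hmk : ∀ x : FreeGroup Y, FreeGroup.mk (wd x) = x := by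
    intro x
    unfold wd
    exact FreeGroup.mk_toWord
  have hstep : ∀ y : FreeGroup Y, y ∈ F → (wd y).length ≤ ell → ∀ x : FreeGroup Y,
      (∀ p s : List (Y × Bool), wd x = p ++ s →
        ∃ f ∈ F, (wd (f⁻¹ * FreeGroup.mk p)).length ≤ ell) →
      ∀ p s : List (Y × Bool), wd (y * x) = p ++ s →
        ∃ f ∈ F, (wd (f⁻¹ * FreeGroup.mk p)).length ≤ ell := by
    intro y hyF hy x hx p s hps
    rw [← hmk y] at hps
    rcases ks1_word (wd y) x p s hps with ⟨p', s', h1, h2⟩ | ⟨q', q'', h1, h2⟩
    · obtain ⟨f, hf, hfl⟩ := hx p' s' h1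
      refine ⟨y * f, F.mul_mem hyF hf, ?_⟩
      rw [h2, hmk, mul_inv_rev, mul_assoc, inv_mul_cancel_left]
      exact hfl
    · refine ⟨1, F.one_mem, ?_⟩
      rw [inv_one, one_mul, h2]
      refine (ks1_len q').trans ?_
      have : (wd y).length = q'.length + q''.length := by rw [h1, List.length_append]
      omega
  have hSF : ∀ y ∈ S, y ∈ F := fun y hy => hS ▸ Subgroup.subset_closure hy
  have hSl : ∀ y ∈ S, (wd y).length ≤ ell := fun y hy =>
    Finset.le_sup (f := fun x => (wd x).length) hy
  intro x hx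
  rw [← hS] at hx
  induction hx using Subgroup.closure_induction_left with
  | one =>
    intro p s hps
    refine ⟨1, F.one_mem, ?_⟩
    have h1 : wd (1 : FreeGroup Y) = [] := by
      unfold wd
      exact FreeGroup.toWord_one
    rw [h1] at hps
    have hp : p = [] := (List.append_eq_nil_iff.1 hps.symm).1
    rw [hp, ← FreeGroup.one_eq_mk, inv_one, one_mul, h1]
    exact Nat.zero_le _
  | mul_left y hy z hz ih =>
    exact hstep y (hSF y hy) (hSl y hy) z ih
  | inv_mul_cancel y hy z hz ih =>
    refine hstep y⁻¹ (F.inv_mem (hSF y hy)) ?_ z ih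
    have : (wd y⁻¹).length = (wd y).length := by
      unfold wd
      exact FreeGroup.norm_inv_eq
    rw [this]
    exact hSl y hy

end Pool.Agent.Helper46.OF
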