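import Mathlib

/-! # OFG-LA1 (0.4h): Schwarz lemma at a removable singularity
Removable singularity: G is bounded near 0 and holomorphic in the punctured disc, so the function G1 := Function.update G 0 (limUnder (𝓝[≠] 0) G) = Function.update G 0 G0 is holomorphic on the ball
(`Complex.differentiableOn_update_limUnder_of_bddAbove`, limUnder = G0 by Tendsto.limUnder_eq; or `Complex.differentiableOn_compl_singleton_and_continuousAt_iff` with continuousAt from hlim).  ‖G0‖ ≤ B
(limit), so G1 maps the ball of radius r0 into the open ball of radius 2B + ε around G1 0 = G0, and the Schwarz lemma (`Complex.dist_le_div_mul_dist_of_mapsTo_ball` ) gives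
‖G z - G0‖ ≤ ((2B+ε)/r0) ‖z‖ for all ε > 0; ε → 0. -/

set_option autoImplicit false
open Filter Topology
namespace Pool.Agent.Helper46.OF

theorem schwarz_punct (G : ℂ → ℂ) (G0 : ℂ) (r0 B : ℝ) (hr0 : 0 < r0)
    (hd : ∀ z, z ≠ 0 → ‖z‖ < r0 → DifferentiableAt ℂ G z) (hB : ∀ z, z ≠ 0 → ‖z‖ < r0 → ‖G z‖ ≤ B)
    (hlim : Tendsto G (𝓝[≠] 0) (𝓝 G0)) :
    ∀ z, z ≠ 0 → ‖z‖ < r0 → ‖G z - G0‖ ≤ (2 * B / r0) * ‖z‖ := by
  intro z hz hzr
  have hG0 : ‖G0‖ ≤ B := by
    refine le_of_tendsto hlim.norm ?_
    rw [eventually_nhdsWithin_iff]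
    filter_upwards [Metric.ball_mem_nhds (0 : ℂ) hr0] with w hw hw0
    exact hB w hw0 (by simpa using hw)
  have hcont : ContinuousAt (Function.update G 0 G0) 0 := continuousAt_update_same.mpr hlim
  have hdiff : DifferentiableOn ℂ (Function.update G 0 G0) (Metric.ball 0 r0) := by
    refine (Complex.differentiableOn_compl_singleton_and_continuousAt_iff
      (Metric.ball_mem_nhds (0 : ℂ) hr0)).mp ⟨?_, hcont⟩
    intro w hw
    have hw0 : w ≠ 0 := hw.2
    have hwr : ‖w‖ < r0 := by simpa using hw.1
    have h1 : DifferentiableAt ℂ (Function.update G 0 G0) w := by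
      refine (hd w hw0 hwr).congr_of_eventuallyEq ?_
      filter_upwards [isOpen_ne.mem_nhds hw0] with u hu
      exact Function.update_of_ne hu _ _
    exact h1.differentiableWithinAt
  have hmaps : Set.MapsTo (Function.update G 0 G0) (Metric.ball 0 r0)
      (Metric.closedBall ((Function.update G 0 G0) 0) (2 * B)) := by
    intro w hw
    have hwr : ‖w‖ < r0 := by simpa using hw
    rw [Function.update_self, Metric.mem_closedBall, dist_eq_norm]
    by_cases hw0 : w = 0
    · subst hw0
      rw [Function.update_self, sub_self, norm_zero]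
      have := norm_nonneg G0
      linarith
    · rw [Function.update_of_ne hw0]
      calc ‖G w - G0‖ ≤ ‖G w‖ + ‖G0‖ := norm_sub_le _ _
        _ ≤ B + B := add_le_add (hB w hw0 hwr) hG0
        _ = 2 * B := by ring
  have h := Complex.dist_le_div_mul_dist_of_mapsTo_ball hdiff hmaps
    (z := z) (by simpa using hzr)
  rw [Function.update_self, Function.update_of_ne hz, dist_eq_norm, dist_zero_right] at h
  exact h

end Pool.Agent.Helper46.OF
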