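import Pool.Agent.Helper46.OF.LDefs
import Pool.Agent.Helper96.OF.W2

/-! # OFG-LA2 (1.2h): first bound |g| ≤ C M / |p| and |p| |g| → 0 on a square integrable z_τ-holomorphic function on the punctured cone
‖p‖ = sup norm of (x,y).  For p ≠ 0, ‖p‖ < 1/2: if |p.2| = ‖p‖ (say p.2 > 0) the closed ball / ball around p of radius ‖p‖/2 lies in hU (|x| ≤ ‖p‖ so |x| + ‖p‖/2 < 1; y - ‖p‖/2 > 0), so zt_bound (W2) gives
‖gU i p‖² ≤ (4C/‖p‖²) ∫_{ball p (‖p‖/2)} ‖gU i‖² ≤ 4 C M²/‖p‖²; same for the other three cases with hD (p.2 < 0), hR (p.1 = ‖p‖), hL (p.1 = -‖p‖).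
`lp`: ‖p‖ ‖g‖ → 0: the integral over ball p (‖p‖/2) ⊆ hU ∩ {‖q‖ < 2‖p‖} tends to 0 as ‖p‖ → 0 (absolute continuity of the integral / dominated convergence for the indicator of {‖q‖ < ε}).
The statements are for the chart adapted to p: cone of U: |p.1| ≤ p.2, etc.  -/

set_option autoImplicit false
open MeasureTheory
namespace Pool.Agent.Helper46.OF
open Pool.Agent.Helper96.OF

/-- the four closed sectors -/
def sU (p : ℝ × ℝ) : Prop := 0 < p.2 ∧ |p.1| ≤ p.2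
def sR (p : ℝ × ℝ) : Prop := 0 < p.1 ∧ |p.2| ≤ p.1
def sL (p : ℝ × ℝ) : Prop := p.1 < 0 ∧ |p.2| ≤ -p.1
def sD (p : ℝ × ℝ) : Prop := p.2 < 0 ∧ |p.1| ≤ -p.2

private theorem LA2_ball_iff (p q : ℝ × ℝ) (r : ℝ) :
    q ∈ Metric.ball p r ↔ |q.1 - p.1| < r ∧ |q.2 - p.2| < r := by
  rw [Metric.mem_ball, Prod.dist_eq, max_lt_iff, Real.dist_eq, Real.dist_eq]

private theorem LA2_norm (p : ℝ × ℝ) : ‖p‖ = max |p.1| |p.2| := by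
  rw [Prod.norm_def, Real.norm_eq_abs, Real.norm_eq_abs]

private theorem LA2_U (p : ℝ × ℝ) (hp : ‖p‖ < 1 / 2) (h : sU p) :
    0 < ‖p‖ ∧ Metric.ball p (‖p‖ / 2) ⊆ hU := by
  obtain ⟨h1, h2⟩ := h
  have hn : ‖p‖ = p.2 := by rw [LA2_norm, abs_of_pos h1, max_eq_right h2]
  rw [hn] at hp ⊢
  refine ⟨h1, fun q hq => ?_⟩
  rw [LA2_ball_iff] at hq
  obtain ⟨a, b⟩ := hq
  rw [abs_lt] at a b
  rw [abs_le] at h2
  refine ⟨?_, ?_, ?_, ?_⟩ <;> linarith [a.1, a.2, b.1, b.2, h2.1, h2.2]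

private theorem LA2_R (p : ℝ × ℝ) (hp : ‖p‖ < 1 / 2) (h : sR p) :
    0 < ‖p‖ ∧ Metric.ball p (‖p‖ / 2) ⊆ hR := by
  obtain ⟨h1, h2⟩ := h
  have hn : ‖p‖ = p.1 := by rw [LA2_norm, abs_of_pos h1, max_eq_left h2]
  rw [hn] at hp ⊢
  refine ⟨h1, fun q hq => ?_⟩
  rw [LA2_ball_iff] at hq
  obtain ⟨a, b⟩ := hq
  rw [abs_lt] at a b
  rw [abs_le] at h2
  refine ⟨?_, ?_, ?_, ?_⟩ <;> linarith [a.1, a.2, b.1, b.2, h2.1, h2.2]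

private theorem LA2_L (p : ℝ × ℝ) (hp : ‖p‖ < 1 / 2) (h : sL p) :
    0 < ‖p‖ ∧ Metric.ball p (‖p‖ / 2) ⊆ hL := by
  obtain ⟨h1, h2⟩ := h
  have hn : ‖p‖ = -p.1 := by rw [LA2_norm, abs_of_neg h1, max_eq_left h2]
  rw [hn] at hp ⊢
  refine ⟨by linarith, fun q hq => ?_⟩
  rw [LA2_ball_iff] at hq
  obtain ⟨a, b⟩ := hq
  rw [abs_lt] at a b
  rw [abs_le] at h2
  refine ⟨?_, ?_, ?_, ?_⟩ <;> linarith [a.1, a.2, b.1, b.2, h2.1, h2.2]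

private theorem LA2_D (p : ℝ × ℝ) (hp : ‖p‖ < 1 / 2) (h : sD p) :
    0 < ‖p‖ ∧ Metric.ball p (‖p‖ / 2) ⊆ hD := by
  obtain ⟨h1, h2⟩ := h
  have hn : ‖p‖ = -p.2 := by rw [LA2_norm, abs_of_neg h1, max_eq_right h2]
  rw [hn] at hp ⊢
  refine ⟨by linarith, fun q hq => ?_⟩
  rw [LA2_ball_iff] at hq
  obtain ⟨a, b⟩ := hq
  rw [abs_lt] at a b
  rw [abs_le] at h2
  refine ⟨?_, ?_, ?_, ?_⟩ <;> linarith [a.1, a.2, b.1, b.2, h2.1, h2.2]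

/-- the basic estimate -/
private theorem LA2_base (K : Set ℂ) (hK : IsCompact K) (hKH : K ⊆ HH) :
    ∃ C : ℝ, 0 < C ∧ ∀ τ ∈ K, ∀ (Ω : Set (ℝ × ℝ)) (g : ℝ × ℝ → ℂ), ZHol τ Ω g →
      IntegrableOn (fun p => ‖g p‖ ^ 2) Ω → ∀ p : ℝ × ℝ, 0 < ‖p‖ → Metric.ball p (‖p‖ / 2) ⊆ Ω →
      (‖p‖ * ‖g p‖) ^ 2 ≤ C * ∫ q in Metric.ball p (‖p‖ / 2), ‖g q‖ ^ 2 := by
  obtain ⟨C, hC, H⟩ := zt_bound K hK hKH
  refine ⟨4 * C, by positivity, ?_⟩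
  intro τ hτ Ω g ⟨G, hG, hgG⟩ hi p hp hb
  have hmem : p ∈ Metric.ball p (‖p‖ / 2) := Metric.mem_ball_self (by positivity)
  have hEq : Set.EqOn (fun q => ‖g q‖ ^ 2) (fun q => ‖G (zt τ q)‖ ^ 2) (Metric.ball p (‖p‖ / 2)) := by
    intro q hq
    simp only
    rw [hgG q (hb hq)]
  have hi' : IntegrableOn (fun q => ‖G (zt τ q)‖ ^ 2) (Metric.ball p (‖p‖ / 2)) :=
    (hi.mono_set hb).congr_fun hEq Metric.isOpen_ball.measurableSet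
  have := (H τ hτ p (‖p‖ / 2) (by positivity) G (hG.mono (Set.image_mono hb)) hi').1
  rw [← hgG p (hb hmem), ← setIntegral_congr_fun Metric.isOpen_ball.measurableSet hEq] at this
  have h2 : C / (‖p‖ / 2) ^ 2 = 4 * C / ‖p‖ ^ 2 := by
    field_simp
    ring
  rw [h2, div_mul_eq_mul_div, le_div_iff₀ (by positivity)] at this
  calc (‖p‖ * ‖g p‖) ^ 2 = ‖g p‖ ^ 2 * ‖p‖ ^ 2 := by ring
    _ ≤ _ := this

private theorem LA2_fb (C : ℝ) (hC : 0 < C) (M : ℝ) (hM : 0 ≤ M) (Ω : Set (ℝ × ℝ)) (g : ℝ × ℝ → ℂ)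
    (hi : IntegrableOn (fun p => ‖g p‖ ^ 2) Ω) (hm : ∫ p in Ω, ‖g p‖ ^ 2 ≤ M ^ 2) (p : ℝ × ℝ) (hp : 0 < ‖p‖)
    (hb : Metric.ball p (‖p‖ / 2) ⊆ Ω)
    (H : (‖p‖ * ‖g p‖) ^ 2 ≤ C * ∫ q in Metric.ball p (‖p‖ / 2), ‖g q‖ ^ 2) :
    ‖g p‖ ≤ Real.sqrt C * M / ‖p‖ := by
  have h1 : ∫ q in Metric.ball p (‖p‖ / 2), ‖g q‖ ^ 2 ≤ ∫ q in Ω, ‖g q‖ ^ 2 :=
    setIntegral_mono_set hi (Filter.Eventually.of_forall fun q => by positivity) (Filter.Eventually.of_forall hb)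
  have h2 : (‖p‖ * ‖g p‖) ^ 2 ≤ (Real.sqrt C * M) ^ 2 := by
    rw [mul_pow (Real.sqrt C), Real.sq_sqrt hC.le]
    exact H.trans (mul_le_mul_of_nonneg_left (h1.trans hm) hC.le)
  have h3 : ‖p‖ * ‖g p‖ ≤ Real.sqrt C * M := by
    exact (pow_le_pow_iff_left₀ (by positivity) (by positivity) two_ne_zero).1 h2
  rw [le_div_iff₀ hp]
  linarith

private theorem LA2_meas (s : ℝ → Set (ℝ × ℝ)) (hs : ∀ r, s r = Metric.ball 0 r) :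
    Filter.Tendsto ((volume : Measure (ℝ × ℝ)) ∘ s) (nhdsWithin 0 (Set.Ioi 0)) (nhds 0) := by
  have h1 : ∀ r : ℝ, (volume : Measure (ℝ × ℝ)) (s r) = ENNReal.ofReal (2 * r) * ENNReal.ofReal (2 * r) := by
    intro r
    have : s r = Metric.ball (0 : ℝ) r ×ˢ Metric.ball (0 : ℝ) r := by
      rw [hs r, ball_prod_same]
      rfl
    rw [this, Measure.volume_eq_prod, Measure.prod_prod, Real.volume_ball]
  have h2 : (volume : Measure (ℝ × ℝ)) ∘ s = fun r : ℝ => ENNReal.ofReal (2 * r) * ENNReal.ofReal (2 * r) := funext h1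
  rw [h2]
  have h3 : Filter.Tendsto (fun r : ℝ => ENNReal.ofReal (2 * r)) (nhdsWithin 0 (Set.Ioi 0)) (nhds 0) := by
    have : Filter.Tendsto (fun r : ℝ => 2 * r) (nhdsWithin 0 (Set.Ioi 0)) (nhds 0) := by
      have h6 : Filter.Tendsto (fun r : ℝ => (2 : ℝ) * r) (nhds 0) (nhds (2 * 0)) :=
        (continuous_const.mul continuous_id).tendsto 0
      rw [mul_zero] at h6
      exact h6.mono_left nhdsWithin_le_nhds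
    have h4 := ENNReal.tendsto_ofReal this
    rwa [ENNReal.ofReal_zero] at h4
  have h5 := ENNReal.Tendsto.mul h3 (Or.inr ENNReal.zero_ne_top) h3 (Or.inr ENNReal.zero_ne_top)
  rwa [zero_mul] at h5

private theorem LA2_small (Ω : Set (ℝ × ℝ)) (g : ℝ × ℝ → ℂ)
    (hi : IntegrableOn (fun p => ‖g p‖ ^ 2) Ω) (δ : ℝ) (hδ : 0 < δ) :
    ∃ r : ℝ, 0 < r ∧ ∀ p : ℝ × ℝ, ‖p‖ < r → Metric.ball p (‖p‖ / 2) ⊆ Ω →
      ∫ q in Metric.ball p (‖p‖ / 2), ‖g q‖ ^ 2 ≤ δ := by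
  have h0 : Filter.Tendsto ((volume.restrict Ω : Measure (ℝ × ℝ)) ∘ (fun r : ℝ => Metric.ball (0 : ℝ × ℝ) r))
      (nhdsWithin 0 (Set.Ioi 0)) (nhds 0) := by
    refine tendsto_of_tendsto_of_tendsto_of_le_of_le tendsto_const_nhds (LA2_meas _ fun r => rfl) (fun r => zero_le) (fun r => ?_)
    exact Measure.restrict_apply_le _ _
  have h1 := hi.integrable.tendsto_setIntegral_nhds_zero h0
  have h2 : ∀ᶠ r : ℝ in nhdsWithin 0 (Set.Ioi 0), ∫ x in Metric.ball (0 : ℝ × ℝ) r, ‖g x‖ ^ 2 ∂(volume.restrict Ω) < δ :=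
    h1.eventually (gt_mem_nhds hδ)
  obtain ⟨r, hr1, hr2⟩ := (h2.and self_mem_nhdsWithin).exists
  have hr : 0 < r := hr2
  refine ⟨r / 2, by positivity, fun p hp hb => ?_⟩
  rw [Measure.restrict_restrict Metric.isOpen_ball.measurableSet] at hr1
  refine le_trans ?_ hr1.le
  refine setIntegral_mono_set (hi.mono_set Set.inter_subset_right) (Filter.Eventually.of_forall fun q => by positivity)
    (Filter.Eventually.of_forall ?_)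
  intro q hq
  refine ⟨?_, hb hq⟩
  have hq' : ‖q - p‖ < ‖p‖ / 2 := by rwa [← dist_eq_norm]
  have : ‖q‖ ≤ ‖q - p‖ + ‖p‖ := by
    calc ‖q‖ = ‖(q - p) + p‖ := by rw [sub_add_cancel]
      _ ≤ _ := norm_add_le _ _
  show q ∈ Metric.ball (0 : ℝ × ℝ) r
  rw [mem_ball_zero_iff]
  have hpn : 0 ≤ ‖p‖ := norm_nonneg p
  linarith

theorem first_bound (K : Set ℂ) (hK : IsCompact K) (hKH : K ⊆ HH) :
    ∃ C : ℝ, 0 < C ∧ ∀ τ ∈ K, ∀ (M : ℝ) (_ : 0 ≤ M) (I : Type) (σ : Equiv.Perm I) (gU gR gL gD : I → ℝ × ℝ → ℂ),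
      ConeHol τ M I σ gU gR gL gD → ∀ i, ∀ p : ℝ × ℝ, ‖p‖ < 1 / 2 →
        (sU p → ‖gU i p‖ ≤ C * M / ‖p‖) ∧ (sR p → ‖gR i p‖ ≤ C * M / ‖p‖) ∧
        (sL p → ‖gL i p‖ ≤ C * M / ‖p‖) ∧ (sD p → ‖gD i p‖ ≤ C * M / ‖p‖) := by
  obtain ⟨C, hC, H⟩ := LA2_base K hK hKH
  refine ⟨Real.sqrt C, Real.sqrt_pos.2 hC, ?_⟩
  intro τ hτ M hM I σ gU gR gL gD h i p hp
  refine ⟨fun hs => ?_, fun hs => ?_, fun hs => ?_, fun hs => ?_⟩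
  · obtain ⟨h1, h2⟩ := LA2_U p hp hs
    exact LA2_fb C hC M hM hU _ (h.intU i).1 (h.intU i).2 p h1 h2 (H τ hτ hU _ (h.holU i) (h.intU i).1 p h1 h2)
  · obtain ⟨h1, h2⟩ := LA2_R p hp hs
    exact LA2_fb C hC M hM hR _ (h.intR i).1 (h.intR i).2 p h1 h2 (H τ hτ hR _ (h.holR i) (h.intR i).1 p h1 h2)
  · obtain ⟨h1, h2⟩ := LA2_L p hp hs
    exact LA2_fb C hC M hM hL _ (h.intL i).1 (h.intL i).2 p h1 h2 (H τ hτ hL _ (h.holL i) (h.intL i).1 p h1 h2)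
  · obtain ⟨h1, h2⟩ := LA2_D p hp hs
    exact LA2_fb C hC M hM hD _ (h.intD i).1 (h.intD i).2 p h1 h2 (H τ hτ hD _ (h.holD i) (h.intD i).1 p h1 h2)

private theorem LA2_fl (C : ℝ) (hC : 0 < C) (ε : ℝ) (hε : 0 < ε) (g : ℝ × ℝ → ℂ) (p : ℝ × ℝ)
    (H : (‖p‖ * ‖g p‖) ^ 2 ≤ C * ∫ q in Metric.ball p (‖p‖ / 2), ‖g q‖ ^ 2)
    (h : ∫ q in Metric.ball p (‖p‖ / 2), ‖g q‖ ^ 2 ≤ ε ^ 2 / C) : ‖p‖ * ‖g p‖ ≤ ε := by
  have h1 : (‖p‖ * ‖g p‖) ^ 2 ≤ ε ^ 2 := by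
    refine H.trans ((mul_le_mul_of_nonneg_left h hC.le).trans (le_of_eq ?_))
    field_simp
  exact (pow_le_pow_iff_left₀ (by positivity) hε.le two_ne_zero).1 h1

theorem first_lim (τ : ℂ) (hτ : τ ∈ HH) (M : ℝ) (I : Type) (σ : Equiv.Perm I) (gU gR gL gD : I → ℝ × ℝ → ℂ)
    (h : ConeHol τ M I σ gU gR gL gD) (i : I) (ε : ℝ) (hε : 0 < ε) :
    ∃ r : ℝ, 0 < r ∧ ∀ p : ℝ × ℝ, ‖p‖ < r →
        (sU p → ‖p‖ * ‖gU i p‖ ≤ ε) ∧ (sR p → ‖p‖ * ‖gR i p‖ ≤ ε) ∧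
        (sL p → ‖p‖ * ‖gL i p‖ ≤ ε) ∧ (sD p → ‖p‖ * ‖gD i p‖ ≤ ε) := by
  obtain ⟨C, hC, H⟩ := LA2_base {τ} isCompact_singleton (Set.singleton_subset_iff.2 hτ)
  have H' := H τ (Set.mem_singleton τ)
  have hδ : 0 < ε ^ 2 / C := by positivity
  obtain ⟨r1, p1, s1⟩ := LA2_small hU (gU i) (h.intU i).1 _ hδ
  obtain ⟨r2, p2, s2⟩ := LA2_small hR (gR i) (h.intR i).1 _ hδ
  obtain ⟨r3, p3, s3⟩ := LA2_small hL (gL i) (h.intL i).1 _ hδ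
  obtain ⟨r4, p4, s4⟩ := LA2_small hD (gD i) (h.intD i).1 _ hδ
  refine ⟨min (1 / 2) (min (min r1 r2) (min r3 r4)), by positivity, ?_⟩
  intro p hp
  simp only [lt_min_iff] at hp
  obtain ⟨hp0, ⟨hp1, hp2⟩, hp3, hp4⟩ := hp
  refine ⟨fun hs => ?_, fun hs => ?_, fun hs => ?_, fun hs => ?_⟩
  · obtain ⟨h1, h2⟩ := LA2_U p hp0 hs
    exact LA2_fl C hC ε hε _ p (H' hU _ (h.holU i) (h.intU i).1 p h1 h2) (s1 p hp1 h2)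
  · obtain ⟨h1, h2⟩ := LA2_R p hp0 hs
    exact LA2_fl C hC ε hε _ p (H' hR _ (h.holR i) (h.intR i).1 p h1 h2) (s2 p hp2 h2)
  · obtain ⟨h1, h2⟩ := LA2_L p hp0 hs
    exact LA2_fl C hC ε hε _ p (H' hL _ (h.holL i) (h.intL i).1 p h1 h2) (s3 p hp3 h2)
  · obtain ⟨h1, h2⟩ := LA2_D p hp0 hs
    exact LA2_fl C hC ε hε _ p (H' hD _ (h.holD i) (h.intD i).1 p h1 h2) (s4 p hp4 h2)

end Pool.Agent.Helper46.OF
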