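import Pool.Agent.Helper46.OF.LA2

/-! # OFG-LA3 (1.2h): the product over the sheets is a holomorphic function on the punctured disc
τ ∈ HH; `zt τ : ℝ × ℝ → ℂ` is a real-linear bijection (z = x + τ y; y = im z / im τ, x = re z - re τ * y), with inverse `pz τ z`.  For X : ℂ let
G X z := ∏ i, (X - z * g_i(p)), p = pz τ z, where g_i(p) = gU i p if 0 < p.2, gD i p if p.2 < 0, gR i p if p.2 = 0, 0 < p.1, gL i p if p.2 = 0, p.1 < 0.
Claim 1: for z ≠ 0 with pz τ z in (-1,1)²: G X is complex differentiable at z.  If p.2 > 0: near z G is the product of X - z * (holomorphic function of z) [ZHol on hU, the image of the open set hU under the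
homeomorphism zt τ is open]. p.2 < 0: the same with hD.  p.2 = 0, p.1 > 0: near z all points q have q.1 > 0 and G X = ∏ (X - z * gR i q): for q.2 > 0 by q1, for q.2 < 0 by q4 and reindexing the product by σ
(Equiv.prod_comp / Fintype.prod_equiv), for q.2 = 0 by definition.  p.2 = 0, p.1 < 0: the same with gL (q2 and q3).
Claim 2 (values): in each closed sector the multiset of the values is that of the adapted chart: for p ≠ 0 in (-1,1)²: (sU p → G = ∏ (X - z gU i p)), (sR p → G = ∏ (X - z gR i p)), (sL p → … gL), (sD p → … gD).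
(For sR p with p.2 < 0: gD i p = gR (σ i) p by q4.) -/

set_option autoImplicit false
open MeasureTheory
namespace Pool.Agent.Helper46.OF
open Pool.Agent.Helper96.OF

private theorem la3_open : IsOpen hU ∧ IsOpen hR ∧ IsOpen hL ∧ IsOpen hD := by
  have a1 : ∀ a : ℝ, IsOpen {p : ℝ × ℝ | a < p.1} := fun a => isOpen_lt continuous_const continuous_fst
  have a2 : ∀ a : ℝ, IsOpen {p : ℝ × ℝ | p.1 < a} := fun a => isOpen_lt continuous_fst continuous_const
  have a3 : ∀ a : ℝ, IsOpen {p : ℝ × ℝ | a < p.2} := fun a => isOpen_lt continuous_const continuous_snd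
  have a4 : ∀ a : ℝ, IsOpen {p : ℝ × ℝ | p.2 < a} := fun a => isOpen_lt continuous_snd continuous_const
  refine ⟨?_, ?_, ?_, ?_⟩
  · exact (a3 0).inter ((a4 1).inter ((a1 (-1)).inter (a2 1)))
  · exact (a1 0).inter ((a2 1).inter ((a3 (-1)).inter (a4 1)))
  · exact (a1 (-1)).inter ((a2 0).inter ((a3 (-1)).inter (a4 1)))
  · exact (a3 (-1)).inter ((a4 0).inter ((a1 (-1)).inter (a2 1)))

private theorem la3_gen (τ : ℂ) (hτ : τ ∈ HH) (I : Type) [Fintype I] (X : ℂ) {Ω : Set (ℝ × ℝ)}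
    (hΩ : IsOpen Ω) (g : I → ℝ × ℝ → ℂ) (hg : ∀ i, ZHol τ Ω (g i)) (G : ℂ → ℂ)
    (hG : ∀ p ∈ Ω, G (zt τ p) = ∏ i, (X - zt τ p * g i p)) :
    ∀ p ∈ Ω, DifferentiableAt ℂ G (zt τ p) := by
  intro p hp
  choose H hH1 hH2 using hg
  have hopen : IsOpen (zt τ '' Ω) := (ztLE τ hτ).toHomeomorph.isOpenMap Ω hΩ
  have hmem : zt τ p ∈ zt τ '' Ω := ⟨p, hp, rfl⟩
  have h1 : DifferentiableOn ℂ (fun z => ∏ i, (X - z * H i z)) (zt τ '' Ω) := by
    intro z hz
    refine DifferentiableWithinAt.fun_finsetProd fun i _ => ?_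
    exact (differentiableWithinAt_const X).sub (differentiableWithinAt_id.mul (hH1 i z hz))
  refine (h1.differentiableAt (hopen.mem_nhds hmem)).congr_of_eventuallyEq ?_
  filter_upwards [hopen.mem_nhds hmem] with z hz
  obtain ⟨q, hq, rfl⟩ := hz
  rw [hG q hq]
  exact Finset.prod_congr rfl fun i _ => by rw [hH2 i q hq]

theorem prod_hol (τ : ℂ) (hτ : τ ∈ HH) (M : ℝ) (I : Type) [Fintype I] (σ : Equiv.Perm I) (gU gR gL gD : I → ℝ × ℝ → ℂ)
    (h : ConeHol τ M I σ gU gR gL gD) (X : ℂ) :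
    ∃ G : ℂ → ℂ, (∀ p : ℝ × ℝ, p ≠ 0 → ‖p‖ < 1 → DifferentiableAt ℂ G (zt τ p)) ∧
      ∀ p : ℝ × ℝ, ‖p‖ < 1 →
        (sU p → G (zt τ p) = ∏ i, (X - zt τ p * gU i p)) ∧ (sR p → G (zt τ p) = ∏ i, (X - zt τ p * gR i p)) ∧
        (sL p → G (zt τ p) = ∏ i, (X - zt τ p * gL i p)) ∧ (sD p → G (zt τ p) = ∏ i, (X - zt τ p * gD i p)) := by
  classical
  obtain ⟨oU, oR, oL, oD⟩ := la3_open
  set P : ℝ × ℝ → ℂ := fun p => ∏ i, (X - zt τ p * (if 0 < p.2 then gU i p else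
    if p.2 < 0 then gD i p else if 0 < p.1 then gR i p else gL i p)) with hP
  set G : ℂ → ℂ := fun z => P ((ztLE τ hτ).symm z) with hGdef
  have hG : ∀ p, G (zt τ p) = P p := by
    intro p
    rw [hGdef]
    change P ((ztLE τ hτ).symm (ztLE τ hτ p)) = P p
    rw [ContinuousLinearEquiv.symm_apply_apply]
  -- values in the half squares
  have vU : ∀ p ∈ hU, G (zt τ p) = ∏ i, (X - zt τ p * gU i p) := by
    intro p hp
    rw [hG, hP]
    refine Finset.prod_congr rfl fun i _ => ?_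
    rw [if_pos hp.1]
  have vD : ∀ p ∈ hD, G (zt τ p) = ∏ i, (X - zt τ p * gD i p) := by
    intro p hp
    rw [hG, hP]
    refine Finset.prod_congr rfl fun i _ => ?_
    rw [if_neg (not_lt.2 hp.2.1.le), if_pos hp.2.1]
  have vR : ∀ p ∈ hR, G (zt τ p) = ∏ i, (X - zt τ p * gR i p) := by
    intro p hp
    rcases lt_trichotomy p.2 0 with h0 | h0 | h0
    · have hpD : p ∈ hD := ⟨hp.2.2.1, h0, by linarith [hp.1], hp.2.1⟩
      rw [vD p hpD]
      have e1 : ∀ i, X - zt τ p * gD i p = X - zt τ p * gR (σ i) p := fun i => by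
        rw [h.glue.q4 i p hpD hp]
      simp only [e1]
      exact Equiv.prod_comp σ fun i => X - zt τ p * gR i p
    · rw [hG, hP]
      refine Finset.prod_congr rfl fun i _ => ?_
      rw [if_neg (by rw [h0]; exact lt_irrefl 0), if_neg (by rw [h0]; exact lt_irrefl 0),
        if_pos hp.1]
    · have hpU : p ∈ hU := ⟨h0, hp.2.2.2, by linarith [hp.1], hp.2.1⟩
      rw [vU p hpU]
      exact Finset.prod_congr rfl fun i _ => by rw [h.glue.q1 i p hpU hp]
  have vL : ∀ p ∈ hL, G (zt τ p) = ∏ i, (X - zt τ p * gL i p) := by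
    intro p hp
    rcases lt_trichotomy p.2 0 with h0 | h0 | h0
    · have hpD : p ∈ hD := ⟨hp.2.2.1, h0, hp.1, by linarith [hp.2.1]⟩
      rw [vD p hpD]
      exact Finset.prod_congr rfl fun i _ => by rw [h.glue.q3 i p hpD hp]
    · rw [hG, hP]
      refine Finset.prod_congr rfl fun i _ => ?_
      rw [if_neg (by rw [h0]; exact lt_irrefl 0), if_neg (by rw [h0]; exact lt_irrefl 0),
        if_neg (not_lt.2 hp.2.1.le)]
    · have hpU : p ∈ hU := ⟨h0, hp.2.2.2, hp.1, by linarith [hp.2.1]⟩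
      rw [vU p hpU]
      exact Finset.prod_congr rfl fun i _ => by rw [h.glue.q2 i p hpU hp]
  have hb : ∀ p : ℝ × ℝ, ‖p‖ < 1 → -1 < p.1 ∧ p.1 < 1 ∧ -1 < p.2 ∧ p.2 < 1 := by
    intro p hp
    have h1 := abs_lt.1 ((norm_fst_le p).trans_lt hp)
    have h2 := abs_lt.1 ((norm_snd_le p).trans_lt hp)
    exact ⟨h1.1, h1.2, h2.1, h2.2⟩
  refine ⟨G, fun p hp0 hp1 => ?_, fun p hp1 => ?_⟩
  · obtain ⟨b1, b2, b3, b4⟩ := hb p hp1
    rcases lt_trichotomy p.2 0 with h0 | h0 | h0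
    · exact la3_gen τ hτ I X oD gD h.holD G vD p ⟨b3, h0, b1, b2⟩
    · rcases lt_trichotomy p.1 0 with h1 | h1 | h1
      · exact la3_gen τ hτ I X oL gL h.holL G vL p ⟨b1, h1, b3, b4⟩
      · exact absurd (Prod.ext h1 h0) hp0
      · exact la3_gen τ hτ I X oR gR h.holR G vR p ⟨h1, b2, b3, b4⟩
    · exact la3_gen τ hτ I X oU gU h.holU G vU p ⟨h0, b4, b1, b2⟩
  · obtain ⟨b1, b2, b3, b4⟩ := hb p hp1
    exact ⟨fun hs => vU p ⟨hs.1, b4, b1, b2⟩, fun hs => vR p ⟨hs.1, b2, b3, b4⟩,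
      fun hs => vL p ⟨b1, hs.1, b3, b4⟩, fun hs => vD p ⟨b3, hs.1, b1, b2⟩⟩

end Pool.Agent.Helper46.OF
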