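import Pool.Agent.Helper46.OF.LA1
import Pool.Agent.Helper46.OF.LA3

/-! # OFG-LA4 (1h): |g| ≤ C M |p|^(1/k - 1) on the k-sheeted punctured cone
K compact in HH: there are c1, c2 > 0 with c1 ‖p‖ ≤ ‖zt τ p‖ ≤ c2 ‖p‖ for τ ∈ K (im τ bounded below, |τ| bounded; K empty is trivial).  k := card I ≥ 1.  C1 from first_bound.
Fix τ ∈ K, i, p1 in the sector sU with ‖p1‖ < 1/4 (other sectors the same), z1 := zt τ p1, X := z1 * gU i p1; |X| ≤ B := c2 C1 M.  G from prod_hol for this X.  For p ≠ 0, ‖p‖ < 1/2 (every p ≠ 0 is in one of the sectors)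
|G (zt τ p)| ≤ (|X| + c2 ‖p‖ C1 M/‖p‖)^k ≤ (2B)^k, and G(z) → X^k as z → 0 (first_lim: all z g_i → 0; the product is continuous).  schwarz_punct with r0 := c1/2 (|z| < r0 => ‖p‖ < 1/2), B' := (2B)^k, G0 := X^k:
|G(z1) - X^k| ≤ (2 (2B)^k / r0) |z1| if |z1| < r0, and G(z1) = 0 (the factor i vanishes), so |X|^k ≤ (2 (2B)^k/r0) |z1|, |X| ≤ 2B (2|z1|/r0)^(1/k); if |z1| ≥ r0 this is trivial (|X| ≤ B).
So ‖gU i p1‖ = |X|/|z1| ≤ C M ‖p1‖^(1/k - 1).
Finally for all p ∈ hU with ‖p‖ < 1/2 (not only in the sector sU): if p is in sR, gU i p = gR i p by q1; if in sL, q2; so the bound holds on the whole half squares. -/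

set_option autoImplicit false
open MeasureTheory
namespace Pool.Agent.Helper46.OF
open Pool.Agent.Helper96.OF

open Filter Topology in
private theorem la4_core (τ : ℂ) (c1 c2 : ℝ) (hc1 : 0 < c1) (hc2 : 0 < c2)
    (hlo : ∀ p : ℝ × ℝ, c1 * ‖p‖ ≤ ‖zt τ p‖) (hhi : ∀ p : ℝ × ℝ, ‖zt τ p‖ ≤ c2 * ‖p‖)
    (hsurj : Function.Surjective (zt τ))
    (I : Type) [Fintype I] [Nonempty I] (A : ℝ) (hA : 0 ≤ A) (Vals : ℝ × ℝ → (I → ℂ) → Prop)
    (hex : ∀ p, p ≠ 0 → ‖p‖ < 1 / 2 → ∃ v, Vals p v)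
    (hbd : ∀ p v, ‖p‖ < 1 / 2 → Vals p v → ∀ i, ‖v i‖ ≤ A / ‖p‖)
    (hlim : ∀ i, ∀ ε : ℝ, 0 < ε → ∃ r : ℝ, 0 < r ∧ ∀ p v, ‖p‖ < r → Vals p v → ‖p‖ * ‖v i‖ ≤ ε)
    (hhol : ∀ X : ℂ, ∃ G : ℂ → ℂ, (∀ p : ℝ × ℝ, p ≠ 0 → ‖p‖ < 1 → DifferentiableAt ℂ G (zt τ p)) ∧
      ∀ p v, ‖p‖ < 1 → Vals p v → G (zt τ p) = ∏ i, (X - zt τ p * v i)) :
    ∀ p v, p ≠ 0 → ‖p‖ < 1 / 2 → Vals p v → ∀ i,
      ‖v i‖ ≤ (2 * c2 / c1 * (2 * c2 / (c1 / 2)) ^ (1 / (Fintype.card I : ℝ))) * A *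
        ‖p‖ ^ (1 / (Fintype.card I : ℝ) - 1) := by
  intro p1 v1 hp1 hp1' hv1 i1
  have hn1 : 0 < ‖p1‖ := norm_pos_iff.2 hp1
  have hz1 : 0 < ‖zt τ p1‖ := lt_of_lt_of_le (mul_pos hc1 hn1) (hlo p1)
  obtain ⟨X, hX⟩ : ∃ X, X = zt τ p1 * v1 i1 := ⟨_, rfl⟩
  obtain ⟨k, hk⟩ : ∃ k, k = Fintype.card I := ⟨_, rfl⟩
  have hk0 : k ≠ 0 := by rw [hk]; exact Fintype.card_ne_zero
  obtain ⟨Bd, hBd⟩ : ∃ Bd, Bd = c2 * A := ⟨_, rfl⟩
  have hBd0 : 0 ≤ Bd := by rw [hBd]; positivity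
  -- bound of `z v i`
  have hzv : ∀ p v, p ≠ 0 → ‖p‖ < 1 / 2 → Vals p v → ∀ i, ‖zt τ p * v i‖ ≤ Bd := by
    intro p v hp hp' hv i
    have hn : 0 < ‖p‖ := norm_pos_iff.2 hp
    rw [norm_mul, hBd]
    calc ‖zt τ p‖ * ‖v i‖ ≤ (c2 * ‖p‖) * (A / ‖p‖) :=
          mul_le_mul (hhi p) (hbd p v hp' hv i) (norm_nonneg _) (by positivity)
      _ = c2 * A := by field_simp
  have hXB : ‖X‖ ≤ Bd := by rw [hX]; exact hzv p1 v1 hp1 hp1' hv1 i1
  obtain ⟨G, hG1, hG2⟩ := hhol X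
  have hzero : ∀ p : ℝ × ℝ, zt τ p ≠ 0 → p ≠ 0 := by
    rintro p h rfl
    apply h
    simp [zt]
  have hsmall : ∀ (p : ℝ × ℝ) (r : ℝ), ‖zt τ p‖ < c1 * r → ‖p‖ < r := by
    intro p r h
    exact lt_of_mul_lt_mul_left ((hlo p).trans_lt h) hc1.le
  have key : ‖X‖ ^ k ≤ (2 * Bd) ^ k * (2 * ‖zt τ p1‖ / (c1 / 2)) := by
    rcases lt_or_ge ‖zt τ p1‖ (c1 / 2) with hlt | hge
    · have hd : ∀ z : ℂ, z ≠ 0 → ‖z‖ < c1 / 2 → DifferentiableAt ℂ G z := by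
        intro z hz hz'
        obtain ⟨p, rfl⟩ := hsurj z
        have h2 := hsmall p (1 / 2) (by linarith)
        exact hG1 p (hzero p hz) (by linarith)
      have hB : ∀ z : ℂ, z ≠ 0 → ‖z‖ < c1 / 2 → ‖G z‖ ≤ (2 * Bd) ^ k := by
        intro z hz hz'
        obtain ⟨p, rfl⟩ := hsurj z
        have h2 := hsmall p (1 / 2) (by linarith)
        have h0 := hzero p hz
        obtain ⟨v, hv⟩ := hex p h0 h2
        rw [hG2 p v (by linarith) hv, norm_prod]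
        calc ∏ i, ‖X - zt τ p * v i‖ ≤ ∏ _i : I, (2 * Bd) := by
              refine Finset.prod_le_prod (fun i _ => norm_nonneg _) fun i _ => ?_
              refine (norm_sub_le _ _).trans ?_
              have := hzv p v h0 h2 hv i
              linarith
          _ = (2 * Bd) ^ k := by rw [Finset.prod_const, Finset.card_univ, hk]
      have hl : Tendsto G (𝓝[≠] 0) (𝓝 (X ^ k)) := by
        rw [Metric.tendsto_nhdsWithin_nhds]
        intro ε hε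
        have hc : Continuous fun w : I → ℂ => ∏ i, (X - w i) := by fun_prop
        obtain ⟨δ1, hδ1, hδ⟩ := Metric.continuousAt_iff.1 (hc.continuousAt (x := 0)) ε hε
        have he : 0 < δ1 / (2 * c2) := by positivity
        choose r hr0 hr using fun i => hlim i (δ1 / (2 * c2)) he
        obtain ⟨i0, hi0⟩ := Finite.exists_min r
        refine ⟨min (c1 * r i0) (c1 / 2), lt_min (mul_pos hc1 (hr0 i0)) (half_pos hc1), ?_⟩
        intro z hz hz'
        have hz0 : z ≠ 0 := hz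
        rw [dist_zero_right] at hz'
        obtain ⟨p, rfl⟩ := hsurj z
        have h1 := hsmall p (r i0) (lt_of_lt_of_le hz' (min_le_left _ _))
        have h2 := hsmall p (1 / 2) (by
          have := lt_of_lt_of_le hz' (min_le_right _ _)
          linarith)
        have h0 := hzero p hz0
        obtain ⟨v, hv⟩ := hex p h0 h2
        have h3 : dist (fun i => zt τ p * v i) (0 : I → ℂ) < δ1 := by
          rw [dist_pi_lt_iff hδ1]
          intro i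
          rw [Pi.zero_apply, dist_zero_right, norm_mul]
          have h4 := hr i p v (lt_of_lt_of_le h1 (hi0 i)) hv
          calc ‖zt τ p‖ * ‖v i‖ ≤ (c2 * ‖p‖) * ‖v i‖ :=
                mul_le_mul_of_nonneg_right (hhi p) (norm_nonneg _)
            _ = c2 * (‖p‖ * ‖v i‖) := by ring
            _ ≤ c2 * (δ1 / (2 * c2)) := mul_le_mul_of_nonneg_left h4 hc2.le
            _ = δ1 / 2 := by field_simp
            _ < δ1 := by linarith
        have h5 := hδ h3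
        have h6 : ∏ i : I, (X - (0 : I → ℂ) i) = X ^ k := by
          simp only [Pi.zero_apply, sub_zero]
          rw [Finset.prod_const, Finset.card_univ, hk]
        rw [h6] at h5
        rw [hG2 p v (by linarith) hv]
        exact h5
      have h1 := schwarz_punct G (X ^ k) (c1 / 2) ((2 * Bd) ^ k) (half_pos hc1) hd hB hl
        (zt τ p1) (norm_pos_iff.1 hz1) hlt
      have h2 : G (zt τ p1) = 0 := by
        rw [hG2 p1 v1 (by linarith) hv1]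
        refine Finset.prod_eq_zero (Finset.mem_univ i1) ?_
        rw [hX, sub_self]
      rw [h2, zero_sub, norm_neg, norm_pow] at h1
      refine h1.trans (le_of_eq ?_)
      ring
    · have h1 : ‖X‖ ^ k ≤ (2 * Bd) ^ k :=
        pow_le_pow_left₀ (norm_nonneg _) (by linarith) k
      have h2 : 1 ≤ 2 * ‖zt τ p1‖ / (c1 / 2) := by
        rw [le_div_iff₀ (half_pos hc1)]
        linarith
      calc ‖X‖ ^ k ≤ (2 * Bd) ^ k * 1 := by rw [mul_one]; exact h1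
        _ ≤ _ := mul_le_mul_of_nonneg_left h2 (by positivity)
  -- extraction of the root
  have hs0 : 0 ≤ 2 * ‖zt τ p1‖ / (c1 / 2) := by positivity
  have hroot : ‖X‖ ≤ 2 * Bd * (2 * ‖zt τ p1‖ / (c1 / 2)) ^ (1 / (k : ℝ)) := by
    have h1 : (‖X‖ ^ k) ^ ((k : ℝ)⁻¹) ≤ ((2 * Bd) ^ k * (2 * ‖zt τ p1‖ / (c1 / 2))) ^ ((k : ℝ)⁻¹) :=
      Real.rpow_le_rpow (by positivity) key (by positivity)
    rw [Real.pow_rpow_inv_natCast (norm_nonneg _) hk0, Real.mul_rpow (by positivity) hs0,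
      Real.pow_rpow_inv_natCast (by positivity) hk0, ← one_div] at h1
    exact h1
  have hv1X : ‖v1 i1‖ = ‖X‖ / ‖zt τ p1‖ := by
    rw [hX, norm_mul]
    field_simp
  have hroot2 : ‖X‖ ≤ 2 * Bd * ((2 * c2 / (c1 / 2)) ^ (1 / (k : ℝ)) * ‖p1‖ ^ (1 / (k : ℝ))) := by
    refine hroot.trans (mul_le_mul_of_nonneg_left ?_ (by positivity))
    rw [← Real.mul_rpow (by positivity) hn1.le]
    refine Real.rpow_le_rpow hs0 ?_ (by positivity)
    rw [div_mul_eq_mul_div]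
    refine div_le_div_of_nonneg_right ?_ (half_pos hc1).le
    have := hhi p1
    nlinarith
  rw [hv1X, ← hk, Real.rpow_sub hn1, Real.rpow_one]
  calc ‖X‖ / ‖zt τ p1‖ ≤ (2 * Bd * ((2 * c2 / (c1 / 2)) ^ (1 / (k : ℝ)) * ‖p1‖ ^ (1 / (k : ℝ)))) /
        (c1 * ‖p1‖) := div_le_div₀ (by positivity) hroot2 (by positivity) (hlo p1)
    _ = _ := by
      rw [hBd]
      field_simp

/-- the values of the function at a point -/
private def La4Vals (I : Type) (gU gR gL gD : I → ℝ × ℝ → ℂ) (p : ℝ × ℝ) (v : I → ℂ) : Prop :=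
  (sU p ∧ v = fun i => gU i p) ∨ (sR p ∧ v = fun i => gR i p) ∨
    (sL p ∧ v = fun i => gL i p) ∨ (sD p ∧ v = fun i => gD i p)

private theorem la4_sector {p : ℝ × ℝ} (hp : p ≠ 0) : sU p ∨ sR p ∨ sL p ∨ sD p := by
  by_cases h : |p.1| ≤ |p.2|
  · rcases lt_trichotomy p.2 0 with h2 | h2 | h2
    · right; right; right
      exact ⟨h2, by rwa [abs_of_neg h2] at h⟩
    · exfalso
      rw [h2, abs_zero] at h
      have h3 : p.1 = 0 := abs_eq_zero.1 (le_antisymm h (abs_nonneg _))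
      exact hp (Prod.ext h3 h2)
    · left
      exact ⟨h2, by rwa [abs_of_pos h2] at h⟩
  · push Not at h
    rcases lt_trichotomy p.1 0 with h2 | h2 | h2
    · right; right; left
      exact ⟨h2, by rw [abs_of_neg h2] at h; exact h.le⟩
    · exfalso
      rw [h2, abs_zero] at h
      exact absurd h (not_lt.2 (abs_nonneg _))
    · right; left
      exact ⟨h2, by rw [abs_of_pos h2] at h; exact h.le⟩

theorem cone_bound (K : Set ℂ) (hK : IsCompact K) (hKH : K ⊆ HH) (I : Type) [Fintype I] [Nonempty I] :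
    ∃ C : ℝ, 0 < C ∧ ∀ τ ∈ K, ∀ (M : ℝ) (_ : 0 ≤ M) (σ : Equiv.Perm I) (gU gR gL gD : I → ℝ × ℝ → ℂ),
      ConeHol τ M I σ gU gR gL gD → ∀ i, ∀ p : ℝ × ℝ, p ≠ 0 → ‖p‖ < 1 / 2 →
        (p ∈ hU → ‖gU i p‖ ≤ C * M * ‖p‖ ^ (1 / (Fintype.card I : ℝ) - 1)) ∧
        (p ∈ hR → ‖gR i p‖ ≤ C * M * ‖p‖ ^ (1 / (Fintype.card I : ℝ) - 1)) ∧
        (p ∈ hL → ‖gL i p‖ ≤ C * M * ‖p‖ ^ (1 / (Fintype.card I : ℝ) - 1)) ∧
        (p ∈ hD → ‖gD i p‖ ≤ C * M * ‖p‖ ^ (1 / (Fintype.card I : ℝ) - 1)) := by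
  obtain ⟨T, hT0, hT⟩ : ∃ T : ℝ, 0 < T ∧ ∀ τ ∈ K, ‖τ‖ ≤ T := by
    obtain ⟨T, hT⟩ := hK.isBounded.exists_norm_le
    exact ⟨max T 1, by positivity, fun τ hτ => (hT τ hτ).trans (le_max_left _ _)⟩
  obtain ⟨w, hw0, hw⟩ : ∃ v : ℝ, 0 < v ∧ ∀ τ ∈ K, v ≤ τ.im := by
    rcases K.eq_empty_or_nonempty with he | hne
    · exact ⟨1, one_pos, fun τ hτ => by rw [he] at hτ; exact absurd hτ (Set.notMem_empty τ)⟩
    · obtain ⟨τ0, h0, h1⟩ := hK.exists_isMinOn hne Complex.continuous_im.continuousOn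
      exact ⟨τ0.im, hKH h0, fun τ hτ => h1 hτ⟩
  obtain ⟨C1, hC1, hfb⟩ := first_bound K hK hKH
  obtain ⟨c1, hc1⟩ : ∃ c, c = w / (w + 1 + T) := ⟨_, rfl⟩
  have hc10 : 0 < c1 := by rw [hc1]; positivity
  have hc20 : 0 < 1 + T := by positivity
  refine ⟨(2 * (1 + T) / c1 * (2 * (1 + T) / (c1 / 2)) ^ (1 / (Fintype.card I : ℝ))) * C1,
    by positivity, ?_⟩
  intro τ hτ M hM σ gU gR gL gD h
  have hτ0 : 0 < τ.im := hKH hτ
  have hhi : ∀ p : ℝ × ℝ, ‖zt τ p‖ ≤ (1 + T) * ‖p‖ := by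
    intro p
    have h1 : |p.1| ≤ ‖p‖ := norm_fst_le p
    have h2 : |p.2| ≤ ‖p‖ := norm_snd_le p
    calc ‖zt τ p‖ ≤ |p.1| + ‖τ‖ * |p.2| := by
          unfold zt
          refine (norm_add_le _ _).trans ?_
          rw [norm_mul, Complex.norm_real, Complex.norm_real, Real.norm_eq_abs, Real.norm_eq_abs]
      _ ≤ ‖p‖ + T * ‖p‖ := add_le_add h1 (mul_le_mul (hT τ hτ) h2 (abs_nonneg _) hT0.le)
      _ = _ := by ring
  have hlo : ∀ p : ℝ × ℝ, c1 * ‖p‖ ≤ ‖zt τ p‖ := by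
    intro p
    have him : (zt τ p).im = τ.im * p.2 := by simp [zt]
    have hre : (zt τ p).re = p.1 + τ.re * p.2 := by simp [zt]
    have h1 : |p.2| * w ≤ ‖zt τ p‖ := by
      have h3 := Complex.abs_im_le_norm (zt τ p)
      rw [him, abs_mul, abs_of_pos hτ0] at h3
      have h4 := mul_le_mul_of_nonneg_left (hw τ hτ) (abs_nonneg p.2)
      linarith
    have h2 : |p.1| ≤ ‖zt τ p‖ + T * |p.2| := by
      have e : p.1 = (zt τ p).re - τ.re * p.2 := by rw [hre]; ring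
      rw [e]
      refine (abs_sub _ _).trans ?_
      rw [abs_mul]
      exact add_le_add (Complex.abs_re_le_norm _)
        (mul_le_mul_of_nonneg_right ((Complex.abs_re_le_norm τ).trans (hT τ hτ)) (abs_nonneg _))
    have hz0 := norm_nonneg (zt τ p)
    have h5 : ‖p‖ * w ≤ ‖zt τ p‖ * (w + 1 + T) := by
      have h6 : |p.1| * w ≤ ‖zt τ p‖ * (w + 1 + T) := by
        have := mul_le_mul_of_nonneg_right h2 hw0.le
        have h7 := mul_le_mul_of_nonneg_left h1 hT0.le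
        nlinarith
      have h8 : |p.2| * w ≤ ‖zt τ p‖ * (w + 1 + T) := by
        nlinarith [mul_nonneg hz0 hw0.le, mul_nonneg hz0 hT0.le]
      rw [Prod.norm_def, Real.norm_eq_abs, Real.norm_eq_abs, max_mul_of_nonneg _ _ hw0.le]
      exact max_le h6 h8
    rw [hc1, div_mul_eq_mul_div, div_le_iff₀ (by positivity)]
    linarith
  have hsurj : Function.Surjective (zt τ) := by
    intro z
    refine ⟨(z.re - τ.re * (z.im / τ.im), z.im / τ.im), ?_⟩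
    apply Complex.ext
    · simp [zt]
    · simp [zt]
      field_simp
  have hcore := la4_core τ c1 (1 + T) hc10 hc20 hlo hhi hsurj I (C1 * M) (by positivity)
    (La4Vals I gU gR gL gD) ?_ ?_ ?_ ?_
  · -- conclusion
    have hU' : ∀ i, ∀ p : ℝ × ℝ, p ≠ 0 → ‖p‖ < 1 / 2 → sU p → ‖gU i p‖ ≤
        (2 * (1 + T) / c1 * (2 * (1 + T) / (c1 / 2)) ^ (1 / (Fintype.card I : ℝ))) * C1 * M *
          ‖p‖ ^ (1 / (Fintype.card I : ℝ) - 1) := by
      intro i p hp hp' hs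
      have := hcore p _ hp hp' (Or.inl ⟨hs, rfl⟩) i
      rwa [← mul_assoc] at this
    have hR' : ∀ i, ∀ p : ℝ × ℝ, p ≠ 0 → ‖p‖ < 1 / 2 → sR p → ‖gR i p‖ ≤
        (2 * (1 + T) / c1 * (2 * (1 + T) / (c1 / 2)) ^ (1 / (Fintype.card I : ℝ))) * C1 * M *
          ‖p‖ ^ (1 / (Fintype.card I : ℝ) - 1) := by
      intro i p hp hp' hs
      have := hcore p _ hp hp' (Or.inr (Or.inl ⟨hs, rfl⟩)) i
      rwa [← mul_assoc] at this
    have hL' : ∀ i, ∀ p : ℝ × ℝ, p ≠ 0 → ‖p‖ < 1 / 2 → sL p → ‖gL i p‖ ≤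
        (2 * (1 + T) / c1 * (2 * (1 + T) / (c1 / 2)) ^ (1 / (Fintype.card I : ℝ))) * C1 * M *
          ‖p‖ ^ (1 / (Fintype.card I : ℝ) - 1) := by
      intro i p hp hp' hs
      have := hcore p _ hp hp' (Or.inr (Or.inr (Or.inl ⟨hs, rfl⟩))) i
      rwa [← mul_assoc] at this
    have hD' : ∀ i, ∀ p : ℝ × ℝ, p ≠ 0 → ‖p‖ < 1 / 2 → sD p → ‖gD i p‖ ≤
        (2 * (1 + T) / c1 * (2 * (1 + T) / (c1 / 2)) ^ (1 / (Fintype.card I : ℝ))) * C1 * M *
          ‖p‖ ^ (1 / (Fintype.card I : ℝ) - 1) := by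
      intro i p hp hp' hs
      have := hcore p _ hp hp' (Or.inr (Or.inr (Or.inr ⟨hs, rfl⟩))) i
      rwa [← mul_assoc] at this
    intro i p hp hp'
    have b1 := abs_lt.1 ((norm_fst_le p).trans_lt hp')
    have b2 := abs_lt.1 ((norm_snd_le p).trans_lt hp')
    have hg := h.glue
    refine ⟨fun hm => ?_, fun hm => ?_, fun hm => ?_, fun hm => ?_⟩
    · rcases la4_sector hp with hs | hs | hs | hs
      · exact hU' i p hp hp' hs
      · rw [hg.q1 i p hm ⟨hs.1, by linarith, by linarith, by linarith⟩]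
        exact hR' i p hp hp' hs
      · rw [hg.q2 i p hm ⟨by linarith, hs.1, by linarith, by linarith⟩]
        exact hL' i p hp hp' hs
      · exact absurd hm.1 (not_lt.2 hs.1.le)
    · rcases la4_sector hp with hs | hs | hs | hs
      · rw [← hg.q1 i p ⟨hs.1, by linarith, by linarith, by linarith⟩ hm]
        exact hU' i p hp hp' hs
      · exact hR' i p hp hp' hs
      · exact absurd hm.1 (not_lt.2 hs.1.le)
      · have h1 := hg.q4 (σ.symm i) p ⟨by linarith, hs.1, by linarith, by linarith⟩ hm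
        rw [Equiv.apply_symm_apply] at h1
        rw [← h1]
        exact hD' _ p hp hp' hs
    · rcases la4_sector hp with hs | hs | hs | hs
      · rw [← hg.q2 i p ⟨hs.1, by linarith, by linarith, by linarith⟩ hm]
        exact hU' i p hp hp' hs
      · exact absurd hm.2.1 (not_lt.2 hs.1.le)
      · exact hL' i p hp hp' hs
      · rw [← hg.q3 i p ⟨by linarith, hs.1, by linarith, by linarith⟩ hm]
        exact hD' i p hp hp' hs
    · rcases la4_sector hp with hs | hs | hs | hs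
      · exact absurd hm.2.1 (not_lt.2 hs.1.le)
      · rw [hg.q4 i p hm ⟨hs.1, by linarith, by linarith, by linarith⟩]
        exact hR' _ p hp hp' hs
      · rw [hg.q3 i p hm ⟨by linarith, hs.1, by linarith, by linarith⟩]
        exact hL' i p hp hp' hs
      · exact hD' i p hp hp' hs
  · intro p hp hp'
    rcases la4_sector hp with hs | hs | hs | hs
    · exact ⟨_, Or.inl ⟨hs, rfl⟩⟩
    · exact ⟨_, Or.inr (Or.inl ⟨hs, rfl⟩)⟩
    · exact ⟨_, Or.inr (Or.inr (Or.inl ⟨hs, rfl⟩))⟩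
    · exact ⟨_, Or.inr (Or.inr (Or.inr ⟨hs, rfl⟩))⟩
  · intro p v hp' hv i
    obtain ⟨f1, f2, f3, f4⟩ := hfb τ hτ M hM I σ gU gR gL gD h i p hp'
    rcases hv with ⟨hs, rfl⟩ | ⟨hs, rfl⟩ | ⟨hs, rfl⟩ | ⟨hs, rfl⟩
    · exact f1 hs
    · exact f2 hs
    · exact f3 hs
    · exact f4 hs
  · intro i ε hε
    obtain ⟨r, hr, hr'⟩ := first_lim τ (hKH hτ) M I σ gU gR gL gD h i ε hε
    refine ⟨r, hr, fun p v hp' hv => ?_⟩
    obtain ⟨f1, f2, f3, f4⟩ := hr' p hp'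
    rcases hv with ⟨hs, rfl⟩ | ⟨hs, rfl⟩ | ⟨hs, rfl⟩ | ⟨hs, rfl⟩
    · exact f1 hs
    · exact f2 hs
    · exact f3 hs
    · exact f4 hs
  · intro X
    obtain ⟨G, hG1, hG2⟩ := prod_hol τ (hKH hτ) M I σ gU gR gL gD h X
    refine ⟨G, hG1, fun p v hp' hv => ?_⟩
    obtain ⟨f1, f2, f3, f4⟩ := hG2 p hp'
    rcases hv with ⟨hs, rfl⟩ | ⟨hs, rfl⟩ | ⟨hs, rfl⟩ | ⟨hs, rfl⟩
    · exact f1 hs
    · exact f2 hs
    · exact f3 hs
    · exact f4 hs

end Pool.Agent.Helper46.OF
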