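import Pool.Agent.Helper46.OF.LDefs

/-! # OFG-LA5 (1h): oscillation of a function on the punctured cone with gradient bound A |p|^(δ-1)
One half square first: F : ℝ × ℝ → ℂ with |∂x F|, |∂y F| ≤ A ‖p‖^(δ-1) on hU ∩ {‖p‖ < r0}, differentiable there.  For p = (x,y), p' = (x',y') in hU with ‖p‖, ‖p'‖ ≤ r < r0: go up from p to (x,r'), r' slightly
... (take r' = r, (x,r) is in hU with norm ≤ r), then horizontally to (x',r), then down to p'.  Vertical: φ(t) = F (x,t), |φ'(t)| ≤ A ‖(x,t)‖^(δ-1) ≤ A t^(δ-1) (0 < δ ≤ 1, δ - 1 ≤ 0), so |φ(r) - φ(y)| ≤ (A/δ)(r^δ - y^δ)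
(compare with (A/δ) t^δ: image_norm_le_of_norm_deriv_right_le_deriv_boundary, or norm_image_sub_le... ), horizontal: |∂x F (t,r)| ≤ A r^(δ-1), length ≤ 2r.  Total ≤ 2 A (1/δ + 1) r^δ.  The other half squares: same proof after a symmetry
(x,y) ↦ (y,x), (-y.. ), or copy.  Chain (`osc`): sheets i and half squares are connected: U_i ~ R_i on quadrant I (they agree at the point (r/2, r/2)), U_i ~ L_i, D_i ~ L_i, D_i ~ R_{σ i}; hence for i, i' in the same σ-orbit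
every two points of the sheets differ by at most (4 n + 3) * 2A(1/δ+1) r^δ, n ≤ card I steps.  Here it is stated for the power σ^n. -/

set_option autoImplicit false
open MeasureTheory
namespace Pool.Agent.Helper46.OF
open Pool.Agent.Helper96.OF

/-- gradient bound on a half square -/
def GrB (Ω : Set (ℝ × ℝ)) (r0 A δ : ℝ) (F : ℝ × ℝ → ℂ) : Prop :=
  ∀ p ∈ Ω, ‖p‖ < r0 → DifferentiableAt ℝ F p ∧ ‖fderiv ℝ F p (1, 0)‖ ≤ A * ‖p‖ ^ (δ - 1) ∧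
    ‖fderiv ℝ F p (0, 1)‖ ≤ A * ‖p‖ ^ (δ - 1)

private theorem la5_norm (x t : ℝ) : ‖((x, t) : ℝ × ℝ)‖ = max |x| |t| := by
  rw [Prod.norm_def]
  rfl

private theorem la5_vert {r0 A δ : ℝ} (hr0 : r0 ≤ 1) (hA : 0 ≤ A) (hδ : 0 < δ) (hδ1 : δ ≤ 1)
    {F : ℝ × ℝ → ℂ} (hF : GrB hU r0 A δ F) {r : ℝ} (hrr : r < r0) {x y : ℝ}
    (hx : |x| ≤ r) (hy : 0 < y) (hyr : y ≤ r) :
    ‖F (x, r) - F (x, y)‖ ≤ A * (1 / δ) * r ^ δ := by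
  have hmem : ∀ t ∈ Set.Icc y r, ((x, t) : ℝ × ℝ) ∈ hU ∧ ‖((x, t) : ℝ × ℝ)‖ < r0 ∧
      t ≤ ‖((x, t) : ℝ × ℝ)‖ := by
    intro t ht
    have ht0 : 0 < t := lt_of_lt_of_le hy ht.1
    have hxx := abs_le.1 hx
    refine ⟨⟨ht0, ?_, ?_, ?_⟩, ?_, ?_⟩
    · show t < 1
      linarith [ht.2]
    · show -1 < x
      linarith [hxx.1]
    · show x < 1
      linarith [hxx.2]
    · rw [la5_norm, max_lt_iff, abs_of_pos ht0]
      exact ⟨lt_of_le_of_lt hx hrr, lt_of_le_of_lt ht.2 hrr⟩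
    · rw [la5_norm, abs_of_pos ht0]
      exact le_max_right _ _
  have hder : ∀ t ∈ Set.Icc y r, HasDerivAt (fun s : ℝ => F (x, s)) (fderiv ℝ F (x, t) (0, 1)) t := by
    intro t ht
    have h1 : HasFDerivAt F (fderiv ℝ F (x, t)) (x, t) := (hF _ (hmem t ht).1 (hmem t ht).2.1).1.hasFDerivAt
    have h2 : HasDerivAt (fun s : ℝ => ((x, s) : ℝ × ℝ)) ((0 : ℝ), (1 : ℝ)) t :=
      (hasDerivAt_const t x).prodMk (hasDerivAt_id t)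
    exact h1.comp_hasDerivAt t h2
  have key := image_norm_le_of_norm_deriv_right_le_deriv_boundary' (a := y) (b := r)
    (f := fun s : ℝ => F (x, s) - F (x, y)) (f' := fun t => fderiv ℝ F (x, t) (0, 1))
    (fun t ht => ((hder t ht).sub_const _).continuousAt.continuousWithinAt)
    (fun t ht => ((hder t ⟨ht.1, ht.2.le⟩).sub_const _).hasDerivWithinAt)
    (B := fun t => A * (1 / δ) * (t ^ δ - y ^ δ)) (B' := fun t => A * t ^ (δ - 1))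
    (by simp)
    (by
      refine ContinuousOn.mul continuousOn_const (ContinuousOn.sub ?_ continuousOn_const)
      exact ContinuousOn.rpow_const continuousOn_id fun t _ => Or.inr hδ.le)
    (fun t ht => by
      have ht0 : 0 < t := lt_of_lt_of_le hy ht.1
      have h1 := ((Real.hasDerivAt_rpow_const (x := t) (p := δ) (Or.inl ht0.ne')).sub_const
        (y ^ δ)).const_mul (A * (1 / δ))
      refine HasDerivAt.hasDerivWithinAt ?_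
      have h2 : A * (1 / δ) * (δ * t ^ (δ - 1)) = A * t ^ (δ - 1) := by
        field_simp
      rw [h2] at h1
      exact h1)
    (fun t ht => by
      have ht' : t ∈ Set.Icc y r := ⟨ht.1, ht.2.le⟩
      have ht0 : 0 < t := lt_of_lt_of_le hy ht.1
      obtain ⟨h1, h2, h3⟩ := hmem t ht'
      refine ((hF _ h1 h2).2.2).trans (mul_le_mul_of_nonneg_left ?_ hA)
      exact Real.rpow_le_rpow_of_nonpos ht0 h3 (by linarith))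
    (Set.right_mem_Icc.2 hyr)
  refine key.trans ?_
  refine mul_le_mul_of_nonneg_left ?_ (mul_nonneg hA (by positivity))
  have : 0 ≤ y ^ δ := Real.rpow_nonneg hy.le _
  linarith

private theorem la5_hor {r0 A δ : ℝ} (hr0 : r0 ≤ 1) (hA : 0 ≤ A)
    {F : ℝ × ℝ → ℂ} (hF : GrB hU r0 A δ F) {r : ℝ} (hr : 0 < r) (hrr : r < r0) {x x' : ℝ}
    (hx : |x| ≤ r) (hx' : |x'| ≤ r) :
    ‖F (x, r) - F (x', r)‖ ≤ 2 * A * r ^ δ := by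
  have hmem : ∀ t ∈ Set.Icc (-r) r, ((t, r) : ℝ × ℝ) ∈ hU ∧ ‖((t, r) : ℝ × ℝ)‖ < r0 ∧
      ‖((t, r) : ℝ × ℝ)‖ = r := by
    intro t ht
    have hta : |t| ≤ r := abs_le.2 ⟨ht.1, ht.2⟩
    have hn : ‖((t, r) : ℝ × ℝ)‖ = r := by
      rw [la5_norm, abs_of_pos hr]
      exact max_eq_right hta
    refine ⟨⟨hr, ?_, ?_, ?_⟩, ?_, hn⟩
    · show r < 1
      linarith
    · show -1 < t
      linarith [ht.1]
    · show t < 1
      linarith [ht.2]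
    · rw [hn]
      exact hrr
  have hder : ∀ t ∈ Set.Icc (-r) r, HasDerivWithinAt (fun s : ℝ => F (s, r))
      (fderiv ℝ F (t, r) (1, 0)) (Set.Icc (-r) r) t := by
    intro t ht
    have h1 : HasFDerivAt F (fderiv ℝ F (t, r)) (t, r) := (hF _ (hmem t ht).1 (hmem t ht).2.1).1.hasFDerivAt
    have h2 : HasDerivAt (fun s : ℝ => ((s, r) : ℝ × ℝ)) ((1 : ℝ), (0 : ℝ)) t :=
      (hasDerivAt_id t).prodMk (hasDerivAt_const t r)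
    exact (h1.comp_hasDerivAt t h2).hasDerivWithinAt
  have key := Convex.norm_image_sub_le_of_norm_hasDerivWithin_le (C := A * r ^ (δ - 1)) hder
    (fun t ht => by
      obtain ⟨h1, h2, h3⟩ := hmem t ht
      have := (hF _ h1 h2).2.1
      rwa [h3] at this)
    (convex_Icc _ _) (abs_le.1 hx') (abs_le.1 hx)
  refine key.trans ?_
  have h1 : ‖x - x'‖ ≤ 2 * r := by
    rw [Real.norm_eq_abs]
    have h2 := abs_sub x x'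
    linarith
  have h2 : r ^ δ = r ^ (δ - 1) * r := by
    rw [Real.rpow_sub_one hr.ne', div_mul_cancel₀ _ hr.ne']
  have h3 : 0 ≤ A * r ^ (δ - 1) := mul_nonneg hA (Real.rpow_nonneg hr.le _)
  calc A * r ^ (δ - 1) * ‖x - x'‖ ≤ A * r ^ (δ - 1) * (2 * r) := mul_le_mul_of_nonneg_left h1 h3
    _ = 2 * A * r ^ δ := by
      rw [h2]
      ring

/-- oscillation on the upper half square -/
private theorem la5_half {r0 A δ : ℝ} (hr0 : r0 ≤ 1) (hA : 0 ≤ A) (hδ : 0 < δ) (hδ1 : δ ≤ 1)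
    {F : ℝ × ℝ → ℂ} (hF : GrB hU r0 A δ F) {r : ℝ} (hr : 0 < r) (hrr : r < r0) {p p' : ℝ × ℝ}
    (hp : p ∈ hU) (hpr : ‖p‖ ≤ r) (hp' : p' ∈ hU) (hpr' : ‖p'‖ ≤ r) :
    ‖F p - F p'‖ ≤ 2 * A * (1 / δ + 1) * r ^ δ := by
  obtain ⟨x, y⟩ := p
  obtain ⟨x', y'⟩ := p'
  rw [la5_norm, max_le_iff] at hpr hpr'
  have hy : 0 < y := hp.1
  have hy' : 0 < y' := hp'.1
  rw [abs_of_pos hy] at hpr
  rw [abs_of_pos hy'] at hpr'
  have h1 := la5_vert hr0 hA hδ hδ1 hF hrr hpr.1 hy hpr.2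
  have h2 := la5_vert hr0 hA hδ hδ1 hF hrr hpr'.1 hy' hpr'.2
  have h3 := la5_hor hr0 hA hF hr hrr hpr.1 hpr'.1
  have h4 : F (x, y) - F (x', y') =
      -(F (x, r) - F (x, y)) + (F (x, r) - F (x', r)) + (F (x', r) - F (x', y')) := by ring
  rw [h4]
  refine (norm_add_le _ _).trans ?_
  refine (add_le_add_left (norm_add_le _ _) _).trans ?_
  rw [norm_neg]
  have h5 : 2 * A * (1 / δ + 1) * r ^ δ =
      A * (1 / δ) * r ^ δ + 2 * A * r ^ δ + A * (1 / δ) * r ^ δ := by ring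
  rw [h5]
  exact add_le_add (add_le_add h1 h3) h2

/-- oscillation on the image of the upper half square by a symmetry -/
private theorem la5_sym {r0 A δ : ℝ} (hr0 : r0 ≤ 1) (hA : 0 ≤ A) (hδ : 0 < δ) (hδ1 : δ ≤ 1)
    (Ω : Set (ℝ × ℝ)) (T : ℝ × ℝ →L[ℝ] ℝ × ℝ) (hn : ∀ p, ‖T p‖ = ‖p‖) (hT : ∀ p ∈ hU, T p ∈ Ω)
    (hS : ∀ p ∈ Ω, ∃ u ∈ hU, T u = p)
    (hL : ∀ (L : ℝ × ℝ →L[ℝ] ℂ) (K : ℝ), ‖L (1, 0)‖ ≤ K → ‖L (0, 1)‖ ≤ K →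
      ‖L (T (1, 0))‖ ≤ K ∧ ‖L (T (0, 1))‖ ≤ K)
    {F : ℝ × ℝ → ℂ} (hF : GrB Ω r0 A δ F) {r : ℝ} (hr : 0 < r) (hrr : r < r0) {p p' : ℝ × ℝ}
    (hp : p ∈ Ω) (hpr : ‖p‖ ≤ r) (hp' : p' ∈ Ω) (hpr' : ‖p'‖ ≤ r) :
    ‖F p - F p'‖ ≤ 2 * A * (1 / δ + 1) * r ^ δ := by
  have hG : GrB hU r0 A δ (fun q => F (T q)) := by
    intro q hq hqn
    obtain ⟨h1, h2, h3⟩ := hF (T q) (hT q hq) (by rw [hn]; exact hqn)
    have h4 : HasFDerivAt (fun q => F (T q)) ((fderiv ℝ F (T q)).comp T) q :=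
      h1.hasFDerivAt.comp q T.hasFDerivAt
    rw [hn] at h2 h3
    have h5 := hL (fderiv ℝ F (T q)) _ h2 h3
    refine ⟨h4.differentiableAt, ?_, ?_⟩
    · rw [h4.fderiv]
      exact h5.1
    · rw [h4.fderiv]
      exact h5.2
  obtain ⟨u, hu, rfl⟩ := hS p hp
  obtain ⟨u', hu', rfl⟩ := hS p' hp'
  rw [hn] at hpr hpr'
  exact la5_half hr0 hA hδ hδ1 hG hr hrr hu hpr hu' hpr'

private theorem la5_R {r0 A δ : ℝ} (hr0 : r0 ≤ 1) (hA : 0 ≤ A) (hδ : 0 < δ) (hδ1 : δ ≤ 1)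
    {F : ℝ × ℝ → ℂ} (hF : GrB hR r0 A δ F) {r : ℝ} (hr : 0 < r) (hrr : r < r0) {p p' : ℝ × ℝ}
    (hp : p ∈ hR) (hpr : ‖p‖ ≤ r) (hp' : p' ∈ hR) (hpr' : ‖p'‖ ≤ r) :
    ‖F p - F p'‖ ≤ 2 * A * (1 / δ + 1) * r ^ δ := by
  refine la5_sym hr0 hA hδ hδ1 hR
    ((ContinuousLinearMap.snd ℝ ℝ ℝ).prod (ContinuousLinearMap.fst ℝ ℝ ℝ)) ?_ ?_ ?_ ?_ hF hr hrr
    hp hpr hp' hpr'
  · rintro ⟨x, y⟩
    show ‖((y, x) : ℝ × ℝ)‖ = ‖((x, y) : ℝ × ℝ)‖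
    rw [la5_norm, la5_norm, max_comm]
  · rintro ⟨x, y⟩ ⟨h1, h2, h3, h4⟩
    exact ⟨h1, h2, h3, h4⟩
  · rintro ⟨x, y⟩ ⟨h1, h2, h3, h4⟩
    exact ⟨(y, x), ⟨h1, h2, h3, h4⟩, rfl⟩
  · intro L K h1 h2
    exact ⟨h2, h1⟩

private theorem la5_L {r0 A δ : ℝ} (hr0 : r0 ≤ 1) (hA : 0 ≤ A) (hδ : 0 < δ) (hδ1 : δ ≤ 1)
    {F : ℝ × ℝ → ℂ} (hF : GrB hL r0 A δ F) {r : ℝ} (hr : 0 < r) (hrr : r < r0) {p p' : ℝ × ℝ}
    (hp : p ∈ hL) (hpr : ‖p‖ ≤ r) (hp' : p' ∈ hL) (hpr' : ‖p'‖ ≤ r) :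
    ‖F p - F p'‖ ≤ 2 * A * (1 / δ + 1) * r ^ δ := by
  refine la5_sym hr0 hA hδ hδ1 hL
    ((-ContinuousLinearMap.snd ℝ ℝ ℝ).prod (ContinuousLinearMap.fst ℝ ℝ ℝ)) ?_ ?_ ?_ ?_ hF hr hrr
    hp hpr hp' hpr'
  · rintro ⟨x, y⟩
    show ‖((-y, x) : ℝ × ℝ)‖ = ‖((x, y) : ℝ × ℝ)‖
    rw [la5_norm, la5_norm, max_comm, abs_neg]
  · rintro ⟨x, y⟩ ⟨h1, h2, h3, h4⟩
    refine ⟨?_, ?_, h3, h4⟩
    · show -1 < -y
      exact neg_lt_neg h2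
    · show -y < 0
      exact neg_neg_of_pos h1
  · rintro ⟨x, y⟩ ⟨h1, h2, h3, h4⟩
    refine ⟨(y, -x), ⟨?_, ?_, h3, h4⟩, ?_⟩
    · show 0 < -x
      exact neg_pos_of_neg h2
    · show -x < 1
      have : -1 < x := h1
      linarith
    · show ((-(-x), y) : ℝ × ℝ) = (x, y)
      rw [neg_neg]
  · intro L K h1 h2
    refine ⟨?_, ?_⟩
    · show ‖L ((-0 : ℝ), (1 : ℝ))‖ ≤ K
      rw [neg_zero]
      exact h2
    · show ‖L ((-1 : ℝ), (0 : ℝ))‖ ≤ K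
      have : ((-1 : ℝ), (0 : ℝ)) = -((1 : ℝ), (0 : ℝ)) := by simp
      rw [this, map_neg, norm_neg]
      exact h1

private theorem la5_D {r0 A δ : ℝ} (hr0 : r0 ≤ 1) (hA : 0 ≤ A) (hδ : 0 < δ) (hδ1 : δ ≤ 1)
    {F : ℝ × ℝ → ℂ} (hF : GrB hD r0 A δ F) {r : ℝ} (hr : 0 < r) (hrr : r < r0) {p p' : ℝ × ℝ}
    (hp : p ∈ hD) (hpr : ‖p‖ ≤ r) (hp' : p' ∈ hD) (hpr' : ‖p'‖ ≤ r) :
    ‖F p - F p'‖ ≤ 2 * A * (1 / δ + 1) * r ^ δ := by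
  refine la5_sym hr0 hA hδ hδ1 hD
    ((ContinuousLinearMap.fst ℝ ℝ ℝ).prod (-ContinuousLinearMap.snd ℝ ℝ ℝ)) ?_ ?_ ?_ ?_ hF hr hrr
    hp hpr hp' hpr'
  · rintro ⟨x, y⟩
    show ‖((x, -y) : ℝ × ℝ)‖ = ‖((x, y) : ℝ × ℝ)‖
    rw [la5_norm, la5_norm, abs_neg]
  · rintro ⟨x, y⟩ ⟨h1, h2, h3, h4⟩
    refine ⟨?_, ?_, h3, h4⟩
    · show -1 < -y
      exact neg_lt_neg h2
    · show -y < 0
      exact neg_neg_of_pos h1
  · rintro ⟨x, y⟩ ⟨h1, h2, h3, h4⟩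
    refine ⟨(x, -y), ⟨?_, ?_, h3, h4⟩, ?_⟩
    · show 0 < -y
      exact neg_pos_of_neg h2
    · show -y < 1
      have : -1 < y := h1
      linarith
    · show ((x, -(-y)) : ℝ × ℝ) = (x, y)
      rw [neg_neg]
  · intro L K h1 h2
    refine ⟨?_, ?_⟩
    · show ‖L ((1 : ℝ), (-0 : ℝ))‖ ≤ K
      rw [neg_zero]
      exact h1
    · show ‖L ((0 : ℝ), (-1 : ℝ))‖ ≤ K
      have : ((0 : ℝ), (-1 : ℝ)) = -((0 : ℝ), (1 : ℝ)) := by simp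
      rw [this, map_neg, norm_neg]
      exact h2

private theorem la5_corner {r : ℝ} (hr : 0 < r) (hr1 : r < 1) {a b : ℝ} (ha : a = r / 2 ∨ a = -(r / 2))
    (hb : b = r / 2 ∨ b = -(r / 2)) : ‖((a, b) : ℝ × ℝ)‖ ≤ r ∧ -1 < a ∧ a < 1 ∧ -1 < b ∧ b < 1 := by
  have h : ∀ c : ℝ, (c = r / 2 ∨ c = -(r / 2)) → |c| ≤ r ∧ -1 < c ∧ c < 1 := by
    rintro c (rfl | rfl)
    · rw [abs_of_pos (by linarith)]
      exact ⟨by linarith, by linarith, by linarith⟩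
    · rw [abs_neg, abs_of_pos (by linarith)]
      exact ⟨by linarith, by linarith, by linarith⟩
  rw [la5_norm]
  exact ⟨max_le (h a ha).1 (h b hb).1, (h a ha).2.1, (h a ha).2.2, (h b hb).2.1, (h b hb).2.2⟩

theorem osc (I : Type) (σ : Equiv.Perm I) (fU fR fL fD : I → ℝ × ℝ → ℂ) (h : Glue I σ fU fR fL fD)
    (r0 A δ : ℝ) (hr0 : r0 ≤ 1) (hA : 0 ≤ A) (hδ : 0 < δ) (hδ1 : δ ≤ 1)
    (hgU : ∀ i, GrB hU r0 A δ (fU i)) (hgR : ∀ i, GrB hR r0 A δ (fR i)) (hgL : ∀ i, GrB hL r0 A δ (fL i))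
    (hgD : ∀ i, GrB hD r0 A δ (fD i)) (r : ℝ) (hr : 0 < r) (hrr : r < r0) (i : I) (p : ℝ × ℝ) (hp : p ∈ hU)
    (hpr : ‖p‖ ≤ r) (n : ℕ) (q : ℝ × ℝ) (hq : ‖q‖ ≤ r) :
    (q ∈ hU → ‖fU ((σ ^ n) i) q - fU i p‖ ≤ (4 * n + 4) * (2 * A * (1 / δ + 1) * r ^ δ)) ∧
    (q ∈ hR → ‖fR ((σ ^ n) i) q - fU i p‖ ≤ (4 * n + 4) * (2 * A * (1 / δ + 1) * r ^ δ)) ∧
    (q ∈ hL → ‖fL ((σ ^ n) i) q - fU i p‖ ≤ (4 * n + 4) * (2 * A * (1 / δ + 1) * r ^ δ)) ∧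
    (q ∈ hD → ‖fD ((σ ^ n) i) q - fU i p‖ ≤ (4 * n + 4) * (2 * A * (1 / δ + 1) * r ^ δ)) := by
  set K : ℝ := 2 * A * (1 / δ + 1) * r ^ δ with hK
  have hK0 : 0 ≤ K := by
    rw [hK]
    have : 0 ≤ r ^ δ := Real.rpow_nonneg hr.le _
    have : 0 ≤ 1 / δ + 1 := by positivity
    positivity
  have hr1 : r < 1 := lt_of_lt_of_le hrr hr0
  have tri : ∀ (a b c : ℂ) (x y : ℝ), ‖a - b‖ ≤ x → ‖b - c‖ ≤ y → ‖a - c‖ ≤ x + y := by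
    intro a b c x y h1 h2
    have : a - c = (a - b) + (b - c) := by ring
    rw [this]
    exact (norm_add_le _ _).trans (add_le_add h1 h2)
  have cpp := la5_corner hr hr1 (a := r / 2) (b := r / 2) (Or.inl rfl) (Or.inl rfl)
  have cnp := la5_corner hr hr1 (a := -(r / 2)) (b := r / 2) (Or.inr rfl) (Or.inl rfl)
  have cnn := la5_corner hr hr1 (a := -(r / 2)) (b := -(r / 2)) (Or.inr rfl) (Or.inr rfl)
  have cpn := la5_corner hr hr1 (a := r / 2) (b := -(r / 2)) (Or.inl rfl) (Or.inr rfl)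
  have hp2 : 0 < r / 2 := by linarith
  have hn2 : -(r / 2) < 0 := by linarith
  have ppU : ((r / 2, r / 2) : ℝ × ℝ) ∈ hU := ⟨hp2, cpp.2.2.2.2, cpp.2.1, cpp.2.2.1⟩
  have ppR : ((r / 2, r / 2) : ℝ × ℝ) ∈ hR := ⟨hp2, cpp.2.2.2.2, cpp.2.1, cpp.2.2.1⟩
  have npU : ((-(r / 2), r / 2) : ℝ × ℝ) ∈ hU := ⟨hp2, cnp.2.2.2.2, cnp.2.1, cnp.2.2.1⟩
  have npL : ((-(r / 2), r / 2) : ℝ × ℝ) ∈ hL := ⟨cnp.2.1, hn2, cnp.2.2.2.1, cnp.2.2.2.2⟩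
  have nnL : ((-(r / 2), -(r / 2)) : ℝ × ℝ) ∈ hL := ⟨cnn.2.1, hn2, cnn.2.2.2.1, cnn.2.2.2.2⟩
  have nnD : ((-(r / 2), -(r / 2)) : ℝ × ℝ) ∈ hD := ⟨cnn.2.1, hn2, cnn.2.2.2.1, cnn.2.2.2.2⟩
  have pnD : ((r / 2, -(r / 2)) : ℝ × ℝ) ∈ hD := ⟨cpn.2.2.2.1, hn2, cpn.2.1, cpn.2.2.1⟩
  have pnR : ((r / 2, -(r / 2)) : ℝ × ℝ) ∈ hR := ⟨hp2, cpn.2.2.1, cpn.2.2.2.1, cpn.2.2.2.2⟩
  -- from the upper half square of sheet `j` to the left and to the lower one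
  have stepU : ∀ (j : I) (m : ℝ), (∀ q ∈ hU, ‖q‖ ≤ r → ‖fU j q - fU i p‖ ≤ m) →
      (∀ q ∈ hL, ‖q‖ ≤ r → ‖fL j q - fU i p‖ ≤ K + m) ∧
      (∀ q ∈ hD, ‖q‖ ≤ r → ‖fD j q - fU i p‖ ≤ K + (K + m)) := by
    intro j m hm
    have hLj : ∀ q ∈ hL, ‖q‖ ≤ r → ‖fL j q - fU i p‖ ≤ K + m := by
      intro q hq hqr
      have h1 := la5_L hr0 hA hδ hδ1 (hgL j) hr hrr hq hqr npL cnp.1
      have h2 := hm _ npU cnp.1
      rw [h.q2 j _ npU npL] at h2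
      exact tri _ _ _ _ _ h1 h2
    refine ⟨hLj, fun q hq hqr => ?_⟩
    have h1 := la5_D hr0 hA hδ hδ1 (hgD j) hr hrr hq hqr nnD cnn.1
    have h2 := hLj _ nnL cnn.1
    rw [← h.q3 j _ nnD nnL] at h2
    exact tri _ _ _ _ _ h1 h2
  have main : ∀ n : ℕ, (∀ q ∈ hU, ‖q‖ ≤ r → ‖fU ((σ ^ n) i) q - fU i p‖ ≤ (4 * n + 1) * K) ∧
      (∀ q ∈ hR, ‖q‖ ≤ r → ‖fR ((σ ^ n) i) q - fU i p‖ ≤ (4 * n + 2) * K) ∧
      (∀ q ∈ hL, ‖q‖ ≤ r → ‖fL ((σ ^ n) i) q - fU i p‖ ≤ (4 * n + 2) * K) ∧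
      (∀ q ∈ hD, ‖q‖ ≤ r → ‖fD ((σ ^ n) i) q - fU i p‖ ≤ (4 * n + 3) * K) := by
    intro n
    induction n with
    | zero =>
      simp only [pow_zero, Equiv.Perm.coe_one, id_eq, Nat.cast_zero, mul_zero, zero_add]
      have hUj : ∀ q ∈ hU, ‖q‖ ≤ r → ‖fU i q - fU i p‖ ≤ 1 * K := by
        intro q hq hqr
        rw [one_mul]
        exact la5_half hr0 hA hδ hδ1 (hgU i) hr hrr hq hqr hp hpr
      obtain ⟨h1, h2⟩ := stepU i _ hUj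
      refine ⟨hUj, fun q hq hqr => ?_, fun q hq hqr => ?_, fun q hq hqr => ?_⟩
      · have h3 := la5_R hr0 hA hδ hδ1 (hgR i) hr hrr hq hqr ppR cpp.1
        have h4 := hUj _ ppU cpp.1
        rw [h.q1 i _ ppU ppR] at h4
        refine (tri _ _ _ _ _ h3 h4).trans (le_of_eq ?_)
        ring
      · refine (h1 q hq hqr).trans (le_of_eq ?_)
        ring
      · refine (h2 q hq hqr).trans (le_of_eq ?_)
        ring
    | succ n ih =>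
      obtain ⟨-, -, -, ihD⟩ := ih
      have hs : (σ ^ (n + 1)) i = σ ((σ ^ n) i) := by
        rw [pow_succ', Equiv.Perm.mul_apply]
      rw [hs]
      set j := (σ ^ n) i with hj
      have hRj : ∀ q ∈ hR, ‖q‖ ≤ r → ‖fR (σ j) q - fU i p‖ ≤ (4 * n + 4) * K := by
        intro q hq hqr
        have h1 := la5_R hr0 hA hδ hδ1 (hgR (σ j)) hr hrr hq hqr pnR cpn.1
        have h2 := ihD _ pnD cpn.1
        rw [h.q4 j _ pnD pnR] at h2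
        refine (tri _ _ _ _ _ h1 h2).trans (le_of_eq ?_)
        ring
      have hUj : ∀ q ∈ hU, ‖q‖ ≤ r → ‖fU (σ j) q - fU i p‖ ≤ (4 * n + 5) * K := by
        intro q hq hqr
        have h1 := la5_half hr0 hA hδ hδ1 (hgU (σ j)) hr hrr hq hqr ppU cpp.1
        have h2 := hRj _ ppR cpp.1
        rw [← h.q1 (σ j) _ ppU ppR] at h2
        refine (tri _ _ _ _ _ h1 h2).trans (le_of_eq ?_)
        ring
      obtain ⟨h1, h2⟩ := stepU (σ j) _ hUj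
      push_cast
      refine ⟨fun q hq hqr => ?_, fun q hq hqr => ?_, fun q hq hqr => ?_, fun q hq hqr => ?_⟩
      · refine (hUj q hq hqr).trans (le_of_eq ?_)
        ring
      · refine (hRj q hq hqr).trans ?_
        have : (4 * ((n : ℝ) + 1) + 2) * K = (4 * n + 4) * K + 2 * K := by ring
        rw [this]
        linarith
      · refine (h1 q hq hqr).trans (le_of_eq ?_)
        ring
      · refine (h2 q hq hqr).trans (le_of_eq ?_)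
        ring
  obtain ⟨h1, h2, h3, h4⟩ := main n
  have hle : ∀ c : ℝ, c ≤ 4 → (4 * (n : ℝ) + c) * K ≤ (4 * n + 4) * K := by
    intro c hc
    exact mul_le_mul_of_nonneg_right (by linarith) hK0
  exact ⟨fun hh => (h1 q hh hq).trans (hle 1 (by norm_num)),
    fun hh => (h2 q hh hq).trans (hle 2 (by norm_num)),
    fun hh => (h3 q hh hq).trans (hle 2 (by norm_num)),
    fun hh => (h4 q hh hq).trans (hle 3 (by norm_num))⟩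

end Pool.Agent.Helper46.OF
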