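import Pool.Agent.Helper46.OF.LDefs
import Pool.Agent.Helper96.OF.FT6
import Pool.Agent.Helper80.OF.SDefs

/-!
# OFL/LBDefs (helper46): charts of the surface and push forward of functions on the charts
-/

set_option autoImplicit false

open MeasureTheory

namespace Pool.Agent.Helper46.OF

open Pool.Agent.Helper96.OF

variable {X : Type}

/-- row chart of `s`: the squares `α⁻¹ s, s, α s` -/
def Ro : Set (ℝ × ℝ) := {p | 0 < p.2 ∧ p.2 < 1 ∧ -1 < p.1 ∧ p.1 < 2}

/-- column chart of `s`: the squares `β⁻¹ s, s, β s` -/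
def Co : Set (ℝ × ℝ) := {p | 0 < p.1 ∧ p.1 < 1 ∧ -1 < p.2 ∧ p.2 < 2}

/-- a function on the squares read in the charts of `s` -/
noncomputable def chf (α β : Equiv.Perm X) (u : Sq X → ℂ) (s : X) : ℝ × ℝ → ℂ :=
  ext α β (fun s p => u (s, p)) s

open Classical in
/-- push forward of a function supported in the row chart of `s0` -/
noncomputable def pushR (α β : Equiv.Perm X) (s0 : X) (χ : ℝ × ℝ → ℂ) : X → ℝ × ℝ → ℂ :=
  ext α β fun s p => (if α⁻¹ s0 = s then χ (p.1 - 1, p.2) else 0) + (if s0 = s then χ p else 0) +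
    (if α s0 = s then χ (p.1 + 1, p.2) else 0)

/-- push forward of a function supported in the column chart of `s0` -/
noncomputable def pushC (α β : Equiv.Perm X) (s0 : X) (χ : ℝ × ℝ → ℂ) : X → ℝ × ℝ → ℂ :=
  rfN (pushR β α s0 fun p => χ (p.2, p.1))

end Pool.Agent.Helper46.OF
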