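import Pool.Agent.Helper96.OF.W1

/-!
# OFL/LDefs (helper46): the punctured neighbourhood of a corner as the union of four half squares

`hU, hR, hL, hD` = upper, right, left, lower half of the open square `(-1,1)²` in the coordinates `(x,y)`; `z_τ = x + τ y` (`zt τ`).
`ZHol τ Ω g`: `g` is `z_τ`-holomorphic on `Ω`.
`Cone τ I σ gU gR gL gD`: a function on the `card I`-sheeted punctured square, given by its restrictions to the half squares of the sheets; going once around the corner (quadrants I, II, III, IV) sheet `i` is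
continued by sheet `σ i`.
-/

set_option autoImplicit false

open MeasureTheory

namespace Pool.Agent.Helper46.OF

open Pool.Agent.Helper96.OF

def hU : Set (ℝ × ℝ) := {p | 0 < p.2 ∧ p.2 < 1 ∧ -1 < p.1 ∧ p.1 < 1}
def hR : Set (ℝ × ℝ) := {p | 0 < p.1 ∧ p.1 < 1 ∧ -1 < p.2 ∧ p.2 < 1}
def hL : Set (ℝ × ℝ) := {p | -1 < p.1 ∧ p.1 < 0 ∧ -1 < p.2 ∧ p.2 < 1}
def hD : Set (ℝ × ℝ) := {p | -1 < p.2 ∧ p.2 < 0 ∧ -1 < p.1 ∧ p.1 < 1}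

/-- `z_τ`-holomorphic on `Ω` -/
def ZHol (τ : ℂ) (Ω : Set (ℝ × ℝ)) (g : ℝ × ℝ → ℂ) : Prop :=
  ∃ G : ℂ → ℂ, DifferentiableOn ℂ G (zt τ '' Ω) ∧ ∀ p ∈ Ω, g p = G (zt τ p)

/-- gluing conditions of the four half squares of each sheet -/
structure Glue (I : Type) (σ : Equiv.Perm I) (gU gR gL gD : I → ℝ × ℝ → ℂ) : Prop where
  q1 : ∀ i, ∀ p : ℝ × ℝ, p ∈ hU → p ∈ hR → gU i p = gR i p
  q2 : ∀ i, ∀ p : ℝ × ℝ, p ∈ hU → p ∈ hL → gU i p = gL i p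
  q3 : ∀ i, ∀ p : ℝ × ℝ, p ∈ hD → p ∈ hL → gD i p = gL i p
  q4 : ∀ i, ∀ p : ℝ × ℝ, p ∈ hD → p ∈ hR → gD i p = gR (σ i) p

/-- a `z_τ`-holomorphic square integrable function on the punctured cone -/
structure ConeHol (τ : ℂ) (M : ℝ) (I : Type) (σ : Equiv.Perm I) (gU gR gL gD : I → ℝ × ℝ → ℂ) : Prop where
  glue : Glue I σ gU gR gL gD
  holU : ∀ i, ZHol τ hU (gU i)
  holR : ∀ i, ZHol τ hR (gR i)
  holL : ∀ i, ZHol τ hL (gL i)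
  holD : ∀ i, ZHol τ hD (gD i)
  intU : ∀ i, IntegrableOn (fun p => ‖gU i p‖ ^ 2) hU ∧ ∫ p in hU, ‖gU i p‖ ^ 2 ≤ M ^ 2
  intR : ∀ i, IntegrableOn (fun p => ‖gR i p‖ ^ 2) hR ∧ ∫ p in hR, ‖gR i p‖ ^ 2 ≤ M ^ 2
  intL : ∀ i, IntegrableOn (fun p => ‖gL i p‖ ^ 2) hL ∧ ∫ p in hL, ‖gL i p‖ ^ 2 ≤ M ^ 2
  intD : ∀ i, IntegrableOn (fun p => ‖gD i p‖ ^ 2) hD ∧ ∫ p in hD, ‖gD i p‖ ^ 2 ≤ M ^ 2

end Pool.Agent.Helper46.OF
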