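import Pool.Agent.Helper46.OF.GDefs

/-! # OFG-RA1 (0.4h): Lk Γ v is a retract
ρ := lft (Gm Γ v) (fun w => if Γ.Adj v w then og _ w else 1): the values commute for adjacent generators (og_comm or trivial). ρ x ∈ Lk: the preimage (comap) of Lk contains all og w
(mem_of_og).  ρ x = x on Lk: Subgroup.closure_induction (or: eqLocus contains the generators). -/

set_option autoImplicit false
namespace Pool.Agent.Helper46.OF
open Pool.Agent.Helper96.OF

theorem lk_retract {V : Type} (Γ : SimpleGraph V) (v : V) :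
    ∃ ρ : Raag (Gm Γ v) →* Raag (Gm Γ v), (∀ x, ρ x ∈ Lk Γ v) ∧ ∀ x ∈ Lk Γ v, ρ x = x := by
  classical
  let F : Vm v → Raag (Gm Γ v) := fun w => if Γ.Adj v (w : V) then og (Gm Γ v) w else 1
  have hF : ∀ a b, (Gm Γ v).Adj a b → F a * F b = F b * F a := by
    intro a b hab
    simp only [F]
    by_cases ha : Γ.Adj v (a : V)
    · by_cases hb : Γ.Adj v (b : V)
      · rw [if_pos ha, if_pos hb]
        exact og_comm (Gm Γ v) hab
      · rw [if_neg hb, mul_one, one_mul]
    · rw [if_neg ha, mul_one, one_mul]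
  refine ⟨lft (Gm Γ v) F hF, fun x => ?_, fun x hx => ?_⟩
  · have h1 : x ∈ (Lk Γ v).comap (lft (Gm Γ v) F hF) := by
      apply mem_of_og
      intro w
      rw [Subgroup.mem_comap, lft_og]
      simp only [F]
      split_ifs with h
      · exact Subgroup.subset_closure ⟨w, h, rfl⟩
      · exact one_mem _
    exact h1
  · have h2 : Lk Γ v ≤ (lft (Gm Γ v) F hF).eqLocus (MonoidHom.id _) := by
      unfold Lk
      rw [Subgroup.closure_le]
      rintro _ ⟨w, hw, rfl⟩
      show lft (Gm Γ v) F hF (og (Gm Γ v) w) = og (Gm Γ v) w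
      rw [lft_og]
      simp only [F, if_pos hw]
    exact h2 hx

end Pool.Agent.Helper46.OF
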