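import Pool.Agent.Helper46.OF.GDefs

/-! # OFG-RA2 (1h): Raag Γ ≅ F(B/L) ⋊ B, B = Raag (Gm Γ v), L = Lk Γ v
Θ := lft Γ (fun w => if h : w = v then inl (of (1 : B ⧸ L)) else inr (og _ ⟨w, h⟩)).  Relations: for adjacent w, w' ≠ v: og_comm.  For v adjacent to w: inr w * inl (of [1]) * inr w⁻¹ =
inl (actF w (of [1])) = inl (of (w • [1])) = inl (of [1]) since w ∈ L.
Inverse Ψ := SemidirectProduct.lift (FreeGroup.lift (Quotient.lift (fun β => inc β * og Γ v * (inc β)⁻¹) _)) (inc Γ v) _ : well defined since og Γ v commutes with inc l for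
l ∈ L (closure_induction from og_comm); compatibility: on generators of. Ψ ∘ Θ = id by hom_ext; Θ ∘ Ψ = id: check on inl (of [β]) and inr (SemidirectProduct.hom_ext, FreeGroup.ext_hom), inr β = Θ (inc β)
(hom_ext on B): inr β * inl (of [1]) * inr β⁻¹ = inl (of [β]).  (Θ g).right = ret Γ v g: two homs agreeing on generators. -/

set_option autoImplicit false
namespace Pool.Agent.Helper46.OF
open Pool.Agent.Helper96.OF

private theorem RA2_smul_of {V : Type} (Γ : SimpleGraph V) (v : V) (β γ : Raag (Gm Γ v)) :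
    (SemidirectProduct.inr β * SemidirectProduct.inl (FreeGroup.of (QuotientGroup.mk γ : Raag (Gm Γ v) ⧸ Lk Γ v))
      * (SemidirectProduct.inr β)⁻¹ : SD (Raag (Gm Γ v)) (Raag (Gm Γ v) ⧸ Lk Γ v)) =
    SemidirectProduct.inl (FreeGroup.of (QuotientGroup.mk (β * γ) : Raag (Gm Γ v) ⧸ Lk Γ v)) := by
  have h := SemidirectProduct.inl_aut (φ := actF (Raag (Gm Γ v)) (Raag (Gm Γ v) ⧸ Lk Γ v)) β
    (FreeGroup.of (QuotientGroup.mk γ : Raag (Gm Γ v) ⧸ Lk Γ v))
  rw [map_inv] at h
  rw [← h, actF_apply, FreeGroup.map.of]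
  rfl

private theorem RA2_rel {V : Type} (Γ : SimpleGraph V) (v : V) (w : Vm v) (h : Γ.Adj v (w : V)) :
    (SemidirectProduct.inl (FreeGroup.of (QuotientGroup.mk 1 : Raag (Gm Γ v) ⧸ Lk Γ v)) *
      SemidirectProduct.inr (og (Gm Γ v) w) : SD (Raag (Gm Γ v)) (Raag (Gm Γ v) ⧸ Lk Γ v)) =
    SemidirectProduct.inr (og (Gm Γ v) w) *
      SemidirectProduct.inl (FreeGroup.of (QuotientGroup.mk 1 : Raag (Gm Γ v) ⧸ Lk Γ v)) := by
  have h1 := RA2_smul_of Γ v (og (Gm Γ v) w) 1
  have h2 : (QuotientGroup.mk (og (Gm Γ v) w * 1) : Raag (Gm Γ v) ⧸ Lk Γ v) = QuotientGroup.mk 1 := by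
    rw [mul_one]
    apply QuotientGroup.eq.2
    rw [mul_one]
    exact (Lk Γ v).inv_mem (Subgroup.subset_closure ⟨w, h, rfl⟩)
  rw [h2, mul_inv_eq_iff_eq_mul] at h1
  exact h1.symm

open Classical in
/-- the homomorphism to the semidirect product -/
private noncomputable def RA2_theta {V : Type} (Γ : SimpleGraph V) (v : V) :
    Raag Γ →* SD (Raag (Gm Γ v)) (Raag (Gm Γ v) ⧸ Lk Γ v) :=
  lft Γ (fun w => if h : w = v then
      SemidirectProduct.inl (FreeGroup.of (QuotientGroup.mk 1 : Raag (Gm Γ v) ⧸ Lk Γ v))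
    else SemidirectProduct.inr (og (Gm Γ v) ⟨w, h⟩)) (by
    intro a b hab
    by_cases ha : a = v
    · by_cases hb : b = v
      · rw [dif_pos ha, dif_pos hb]
      · rw [dif_pos ha, dif_neg hb]
        subst ha
        exact RA2_rel Γ a ⟨b, hb⟩ hab
    · by_cases hb : b = v
      · rw [dif_neg ha, dif_pos hb]
        subst hb
        exact (RA2_rel Γ b ⟨a, ha⟩ hab.symm).symm
      · rw [dif_neg ha, dif_neg hb, ← map_mul, ← map_mul]
        exact congrArg _ (og_comm (Gm Γ v) (a := ⟨a, ha⟩) (b := ⟨b, hb⟩) hab))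

private theorem RA2_theta_v {V : Type} (Γ : SimpleGraph V) (v : V) :
    RA2_theta Γ v (og Γ v) =
      SemidirectProduct.inl (FreeGroup.of (QuotientGroup.mk 1 : Raag (Gm Γ v) ⧸ Lk Γ v)) := by
  simp [RA2_theta]

private theorem RA2_theta_ne {V : Type} (Γ : SimpleGraph V) (v : V) (w : Vm v) :
    RA2_theta Γ v (og Γ (w : V)) = SemidirectProduct.inr (og (Gm Γ v) w) := by
  have hw : (w : V) ≠ v := w.2
  simp [RA2_theta, hw]

private theorem RA2_theta_inc {V : Type} (Γ : SimpleGraph V) (v : V) (x : Raag (Gm Γ v)) :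
    RA2_theta Γ v (inc Γ v x) = SemidirectProduct.inr x := by
  have : (RA2_theta Γ v).comp (inc Γ v) = SemidirectProduct.inr := by
    apply hom_ext
    intro w
    rw [MonoidHom.comp_apply, inc_og, RA2_theta_ne]
  exact DFunLike.congr_fun this x

private theorem RA2_comm {V : Type} (Γ : SimpleGraph V) (v : V) (l : Raag (Gm Γ v)) (hl : l ∈ Lk Γ v) :
    inc Γ v l * og Γ v = og Γ v * inc Γ v l := by
  induction hl using Subgroup.closure_induction with
  | mem x hx =>
    obtain ⟨w, hw, rfl⟩ := hx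
    rw [inc_og]
    exact og_comm Γ hw.symm
  | one => simp
  | mul x y _ _ hx hy => rw [map_mul, mul_assoc, hy, ← mul_assoc, hx, mul_assoc]
  | inv x _ hx =>
    rw [map_inv, inv_mul_eq_iff_eq_mul, ← mul_assoc, hx, mul_inv_cancel_right]

/-- conjugates of the generator `v` -/
private noncomputable def RA2_q {V : Type} (Γ : SimpleGraph V) (v : V) :
    Raag (Gm Γ v) ⧸ Lk Γ v → Raag Γ :=
  Quotient.lift (fun β : Raag (Gm Γ v) => inc Γ v β * og Γ v * (inc Γ v β)⁻¹) (by
    intro a b hab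
    have h : a⁻¹ * b ∈ Lk Γ v := QuotientGroup.leftRel_apply.1 hab
    have h1 := RA2_comm Γ v _ h
    have hb : b = a * (a⁻¹ * b) := by group
    change inc Γ v a * og Γ v * (inc Γ v a)⁻¹ = inc Γ v b * og Γ v * (inc Γ v b)⁻¹
    rw [hb, map_mul, mul_inv_rev]
    generalize inc Γ v (a⁻¹ * b) = l at *
    rw [mul_assoc (inc Γ v a) l (og Γ v), h1]
    group)

private theorem RA2_q_mk {V : Type} (Γ : SimpleGraph V) (v : V) (β : Raag (Gm Γ v)) :
    RA2_q Γ v (QuotientGroup.mk β) = inc Γ v β * og Γ v * (inc Γ v β)⁻¹ := rfl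

/-- the inverse homomorphism -/
private noncomputable def RA2_psi {V : Type} (Γ : SimpleGraph V) (v : V) :
    SD (Raag (Gm Γ v)) (Raag (Gm Γ v) ⧸ Lk Γ v) →* Raag Γ :=
  SemidirectProduct.lift (FreeGroup.lift (RA2_q Γ v)) (inc Γ v) (by
    intro g
    apply FreeGroup.ext_hom
    intro x
    obtain ⟨γ, rfl⟩ := QuotientGroup.mk_surjective x
    rw [MonoidHom.comp_apply, MonoidHom.comp_apply]
    change FreeGroup.lift (RA2_q Γ v) (actF _ _ g (FreeGroup.of _)) =
      MulAut.conj (inc Γ v g) (FreeGroup.lift (RA2_q Γ v) (FreeGroup.of _))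
    rw [actF_apply, FreeGroup.map.of, FreeGroup.lift_apply_of, FreeGroup.lift_apply_of, MulAut.conj_apply]
    change RA2_q Γ v (QuotientGroup.mk (g * γ)) = _
    rw [RA2_q_mk, RA2_q_mk, map_mul]
    group)

theorem exists_theta {V : Type} (Γ : SimpleGraph V) (v : V) :
    ∃ Θ : Raag Γ ≃* SD (Raag (Gm Γ v)) (Raag (Gm Γ v) ⧸ Lk Γ v),
      (∀ x, Θ (inc Γ v x) = SemidirectProduct.inr x) ∧ (∀ g, (Θ g).right = ret Γ v g) := by
  have h1 : (RA2_psi Γ v).comp (RA2_theta Γ v) = MonoidHom.id _ := by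
    apply hom_ext
    intro w
    by_cases hw : w = v
    · subst hw
      rw [MonoidHom.comp_apply, RA2_theta_v, RA2_psi, SemidirectProduct.lift_inl,
        FreeGroup.lift_apply_of, RA2_q_mk]
      simp
    · have := RA2_theta_ne Γ v ⟨w, hw⟩
      rw [MonoidHom.comp_apply, this, RA2_psi, SemidirectProduct.lift_inr, inc_og]
      rfl
  have h2 : (RA2_theta Γ v).comp (RA2_psi Γ v) = MonoidHom.id _ := by
    apply SemidirectProduct.hom_ext
    · apply FreeGroup.ext_hom
      intro x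
      obtain ⟨γ, rfl⟩ := QuotientGroup.mk_surjective x
      simp only [MonoidHom.comp_apply, MonoidHom.id_apply, RA2_psi, SemidirectProduct.lift_inl,
        FreeGroup.lift_apply_of, RA2_q_mk, map_mul, map_inv, RA2_theta_inc, RA2_theta_v]
      rw [RA2_smul_of, mul_one]
    · apply MonoidHom.ext
      intro x
      simp only [MonoidHom.comp_apply, MonoidHom.id_apply, RA2_psi, SemidirectProduct.lift_inr,
        RA2_theta_inc]
  refine ⟨MonoidHom.toMulEquiv (RA2_theta Γ v) (RA2_psi Γ v) h1 h2, ?_, ?_⟩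
  · intro x
    exact RA2_theta_inc Γ v x
  · intro g
    have h3 : (SemidirectProduct.rightHom).comp (RA2_theta Γ v) = ret Γ v := by
      apply hom_ext
      intro w
      by_cases hw : w = v
      · subst hw
        rw [MonoidHom.comp_apply, RA2_theta_v, SemidirectProduct.rightHom_inl, ret_v]
      · have := RA2_theta_ne Γ v ⟨w, hw⟩
        rw [MonoidHom.comp_apply, this, SemidirectProduct.rightHom_inr, ret_ne Γ v w hw]
    exact DFunLike.congr_fun h3 g

end Pool.Agent.Helper46.OF
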