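import Pool.Agent.Helper46.OF.GDefs

/-! # OFG-RA3 (1h): deep finite quotients of a residually finite group with a retract L
Step 1 (separability): for β ∉ L there is N normal of finite index with β ∉ L·N: β * (ρ β)⁻¹ ≠ 1 (else β = ρ β ∈ L), RF gives N1 normal of finite index with β (ρ β)⁻¹ ∉ N1;
N := N1 ⊓ N1.comap ρ (normal, finite index). If β = l n (l ∈ L, n ∈ N): β (ρ β)⁻¹ = l n (ρ n)⁻¹ l⁻¹ ∈ N1 (ρ l = l, N1 normal), contradiction.
Step 2: finite intersections: for a finite set S' of elements ∉ L and a finite set S of elements ≠ 1 there is N normal of finite index with s' ∉ L·N for s' ∈ S' and s ∉ N for s ∈ S.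
Step 3: S' := {x.out⁻¹ * y.out | x ≠ y ∈ T}; Q := B ⧸ N (finite), q := QuotientGroup.mk' N, L_Q := L.map q, Y := Q ⧸ L_Q (finite), action: left multiplication (MulAction Q (Q ⧸ L_Q)),
p := Quotient.map of q (B ⧸ L → Q ⧸ L_Q, e.g. `Quotient.map' q _` or QuotientGroup / Subgroup.quotient API; p [b] = [q b]); equivariance clear. Injective on T:
[q x] = [q y] => q (x⁻¹ y) ∈ L.map q => x⁻¹ y ∈ L·N. Then q b ≠ 1 for b ∈ S. -/

set_option autoImplicit false
namespace Pool.Agent.Helper46.OF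

theorem ra3_inf {B α : Type} [Group B] (P : α → Subgroup B → Prop)
    (mono : ∀ a (N N' : Subgroup B), N' ≤ N → P a N → P a N') (S : Finset α)
    (h : ∀ a ∈ S, ∃ N : Subgroup B, N.Normal ∧ N.index ≠ 0 ∧ P a N) :
    ∃ N : Subgroup B, N.Normal ∧ N.index ≠ 0 ∧ ∀ a ∈ S, P a N := by
  classical
  induction S using Finset.induction_on with
  | empty => exact ⟨⊤, inferInstance, by simp, by simp⟩
  | insert a S ha ih =>
    obtain ⟨N1, h1, h2, h3⟩ := ih (fun b hb => h b (Finset.mem_insert_of_mem hb))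
    obtain ⟨N2, h4, h5, h6⟩ := h a (Finset.mem_insert_self _ _)
    refine ⟨N1 ⊓ N2, inferInstance, Subgroup.index_inf_ne_zero h2 h5, ?_⟩
    intro b hb
    rcases Finset.mem_insert.1 hb with rfl | hb
    · exact mono _ _ _ inf_le_right h6
    · exact mono _ _ _ inf_le_left (h3 b hb)

theorem ra3_sep {B : Type} [Group B] (hRF : RF B) (L : Subgroup B) (ρ : B →* B) (h1 : ∀ x, ρ x ∈ L)
    (h2 : ∀ x ∈ L, ρ x = x) (β : B) (hβ : β ∉ L) :
    ∃ N : Subgroup B, N.Normal ∧ N.index ≠ 0 ∧ ∀ l ∈ L, l⁻¹ * β ∉ N := by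
  have hne : β * (ρ β)⁻¹ ≠ 1 := by
    intro h
    rw [mul_inv_eq_one] at h
    exact hβ (h ▸ h1 β)
  obtain ⟨N1, hn, hi, hm⟩ := hRF _ hne
  have hfi2 : (N1.comap ρ).index ≠ 0 := by
    rw [Subgroup.index_comap]
    intro h0
    apply hi
    have h5 : N1.relIndex ρ.range ∣ N1.index := Subgroup.relIndex_dvd_index_of_normal N1 ρ.range
    rw [h0] at h5
    exact Nat.eq_zero_of_zero_dvd h5
  refine ⟨N1 ⊓ N1.comap ρ, inferInstance, Subgroup.index_inf_ne_zero hi hfi2, ?_⟩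
  intro l hl hmem
  obtain ⟨ha, hb⟩ := Subgroup.mem_inf.1 hmem
  rw [Subgroup.mem_comap, map_mul, map_inv, h2 l hl] at hb
  apply hm
  have h3 : l * ((l⁻¹ * β) * (l⁻¹ * ρ β)⁻¹) * l⁻¹ ∈ N1 := hn.conj_mem _ (N1.mul_mem ha (N1.inv_mem hb)) l
  have h4 : l * ((l⁻¹ * β) * (l⁻¹ * ρ β)⁻¹) * l⁻¹ = β * (ρ β)⁻¹ := by group
  rwa [h4] at h3

theorem deepQ {B : Type} [Group B] (hRF : RF B) (L : Subgroup B) (ρ : B →* B) (h1 : ∀ x, ρ x ∈ L)
    (h2 : ∀ x ∈ L, ρ x = x) (T : Finset (B ⧸ L)) (S : Finset B) (hS : ∀ b ∈ S, b ≠ 1) :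
    ∃ (Q Y : Type) (_ : Group Q) (_ : Finite Q) (_ : Finite Y) (_ : MulAction Q Y) (q : B →* Q)
      (p : B ⧸ L → Y), (∀ (b : B) (x : B ⧸ L), p (b • x) = q b • p x) ∧ Set.InjOn p (T : Set (B ⧸ L)) ∧
        ∀ b ∈ S, q b ≠ 1 := by
  classical
  obtain ⟨N1, hN1, hi1, hm1⟩ := ra3_inf (fun (b : B) (N : Subgroup B) => b ∉ N)
    (fun a N N' hle h h' => h (hle h')) S (fun b hb => hRF b (hS b hb))
  obtain ⟨N2, hN2, hi2, hm2⟩ := ra3_inf (fun (r : (B ⧸ L) × (B ⧸ L)) (N : Subgroup B) =>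
      ∀ l ∈ L, l⁻¹ * (r.1.out⁻¹ * r.2.out) ∉ N)
    (fun a N N' hle h l hl h' => h l hl (hle h')) ((T ×ˢ T).filter fun r => r.1 ≠ r.2) (by
      intro r hr
      apply ra3_sep hRF L ρ h1 h2
      intro hmem
      apply (Finset.mem_filter.1 hr).2
      have := QuotientGroup.eq.2 hmem
      rwa [QuotientGroup.out_eq', QuotientGroup.out_eq'] at this)
  have hN : (N1 ⊓ N2).Normal := inferInstance
  have hfi : (N1 ⊓ N2).FiniteIndex := ⟨Subgroup.index_inf_ne_zero hi1 hi2⟩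
  set N := N1 ⊓ N2 with hNdef
  have hQ : Finite (B ⧸ N) := Subgroup.finite_quotient_of_finiteIndex
  let LQ : Subgroup (B ⧸ N) := L.map (QuotientGroup.mk' N)
  have hp : ∀ a b : B, QuotientGroup.leftRel L a b →
      ((QuotientGroup.mk (QuotientGroup.mk' N a) : (B ⧸ N) ⧸ LQ)) = QuotientGroup.mk (QuotientGroup.mk' N b) := by
    intro a b hab
    rw [QuotientGroup.leftRel_apply] at hab
    apply QuotientGroup.eq.2
    rw [← map_inv, ← map_mul]
    exact Subgroup.mem_map_of_mem _ hab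
  let p : B ⧸ L → (B ⧸ N) ⧸ LQ := fun x => Quotient.liftOn' x
    (fun b => (QuotientGroup.mk (QuotientGroup.mk' N b) : (B ⧸ N) ⧸ LQ)) hp
  have hpm : ∀ b : B, p (QuotientGroup.mk b) = QuotientGroup.mk (QuotientGroup.mk' N b) := fun b => rfl
  refine ⟨B ⧸ N, (B ⧸ N) ⧸ LQ, inferInstance, hQ, inferInstance, inferInstance, QuotientGroup.mk' N, p, ?_, ?_, ?_⟩
  · intro b x
    obtain ⟨x, rfl⟩ := QuotientGroup.mk_surjective x
    have h3 : b • (QuotientGroup.mk x : B ⧸ L) = QuotientGroup.mk (b * x) := rfl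
    rw [h3, hpm, hpm, map_mul]
    rfl
  · intro x hx y hy hxy
    by_contra hne
    have h3 := hm2 (x, y) (Finset.mem_filter.2 ⟨Finset.mem_product.2 ⟨hx, hy⟩, hne⟩)
    have hx' : x = QuotientGroup.mk x.out := (QuotientGroup.out_eq' x).symm
    have hy' : y = QuotientGroup.mk y.out := (QuotientGroup.out_eq' y).symm
    rw [hx', hy', hpm, hpm] at hxy
    have h4 := QuotientGroup.eq.1 hxy
    rw [← map_inv, ← map_mul] at h4
    obtain ⟨l, hl, hl2⟩ := Subgroup.mem_map.1 h4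
    have h5 := (QuotientGroup.mk'_eq_mk' N).1 hl2
    obtain ⟨z, hz, hz2⟩ := h5
    apply h3 l hl
    have h6 : l⁻¹ * (x.out⁻¹ * y.out) = z := by rw [← hz2]; group
    rw [h6]
    exact (Subgroup.mem_inf.1 hz).2
  · intro b hb h
    apply hm1 b hb
    have h3 := (QuotientGroup.eq_one_iff (N := N) b).1 h
    exact (Subgroup.mem_inf.1 h3).1

end Pool.Agent.Helper46.OF
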