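import Pool.Agent.Helper46.OF.GDefs

/-! # OFG-SD3 (0.8h): passing to quotients
(1) w ≠ 1 in FreeGroup X. T := set of letters of wd w. If p : X → Y is injective on T then FreeGroup.map p w ≠ 1: there is r : Y → X with r (p x) = x on T
  (Function.invFunOn, X nonempty), and FreeGroup.map r (FreeGroup.map p w) = FreeGroup.map (r ∘ p) w = w (w = mk (wd w), FreeGroup.map on mk is List.map).
(2) TR w b, T := letters of wd w and of wd (actF b w) (= (wd w).map (b • ·)).  If p is injective on T and p (b • x) = q b • p x then the list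
  (wd w ++ wd (actF b w)).map p is reduced (IsReduced is a chain condition: neighbouring letters (a, s), (c, t) with s ≠ t have a ≠ c; injectivity keeps it), its first
  half is the reduced word of map p w, its second half the reduced word of actF (q b) (map p w) = map p (actF b w).  (reduced list L: wd (mk L) = L.) -/

set_option autoImplicit false
namespace Pool.Agent.Helper46.OF

private theorem isRed_map {X Y : Type} {L : List (X × Bool)} (hL : FreeGroup.IsReduced L) (p : X → Y)
    (hp : ∀ a ∈ L, ∀ b ∈ L, p a.1 = p b.1 → a.1 = b.1) :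
    FreeGroup.IsReduced (L.map fun x => (p x.1, x.2)) := by
  unfold FreeGroup.IsReduced at hL ⊢
  rw [List.isChain_map]
  refine List.IsChain.imp_of_mem_imp ?_ hL
  intro a b ha hb hab h
  exact hab (hp a ha b hb h)

private theorem wd_mk {X : Type} {L : List (X × Bool)} (h : FreeGroup.IsReduced L) :
    wd (FreeGroup.mk L) = L := by
  classical
  unfold wd
  rw [FreeGroup.toWord_mk]
  exact h.reduce_eq

private theorem wd_red {X : Type} (w : FreeGroup X) : FreeGroup.IsReduced (wd w) := by
  classical
  unfold wd
  exact FreeGroup.isReduced_toWord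

private theorem mk_wd {X : Type} (w : FreeGroup X) : FreeGroup.mk (wd w) = w := by
  classical
  unfold wd
  exact FreeGroup.mk_toWord

private theorem wd_map {X Y : Type} (w : FreeGroup X) (p : X → Y)
    (hp : ∀ a ∈ wd w, ∀ b ∈ wd w, p a.1 = p b.1 → a.1 = b.1) :
    wd (FreeGroup.map p w) = (wd w).map fun x => (p x.1, x.2) := by
  conv_lhs => rw [← mk_wd w, FreeGroup.map.mk]
  exact wd_mk (isRed_map (wd_red w) p hp)

private theorem wd_ne_nil {X : Type} {w : FreeGroup X} (hw : w ≠ 1) : wd w ≠ [] := by
  intro h
  apply hw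
  rw [← mk_wd w, h]
  rfl

theorem map_ne_one {X : Type} (w : FreeGroup X) (hw : w ≠ 1) :
    ∃ T : Finset X, ∀ (Y : Type) (p : X → Y), Set.InjOn p (T : Set X) → FreeGroup.map p w ≠ 1 := by
  classical
  refine ⟨((wd w).map Prod.fst).toFinset, fun Y p hp h => ?_⟩
  have h1 := wd_map w p (by
    intro a ha b hb hab
    refine hp ?_ ?_ hab
    · exact Finset.mem_coe.mpr (List.mem_toFinset.mpr (List.mem_map_of_mem ha))
    · exact Finset.mem_coe.mpr (List.mem_toFinset.mpr (List.mem_map_of_mem hb)))
  have h2 : wd (FreeGroup.map p w) = [] := by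
    rw [h]
    exact wd_mk (L := []) List.IsChain.nil
  rw [h2] at h1
  exact wd_ne_nil hw (List.map_eq_nil_iff.mp h1.symm)

theorem tr_map {B X : Type} [Group B] [MulAction B X] (w : FreeGroup X) (b : B) (h : TR w b) :
    ∃ T : Finset X, ∀ (C Y : Type) [Group C] [MulAction C Y] (q : B →* C) (p : X → Y),
      (∀ b x, p (b • x) = q b • p x) → Set.InjOn p (T : Set X) → TR (FreeGroup.map p w) (q b) := by
  classical
  refine ⟨((wd w ++ wd (actF B X b w)).map Prod.fst).toFinset, ?_⟩
  intro C Y _ _ q p hq hp
  have hinj : ∀ a ∈ wd w ++ wd (actF B X b w), ∀ c ∈ wd w ++ wd (actF B X b w), p a.1 = p c.1 → a.1 = c.1 := by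
    intro a ha c hc hac
    refine hp ?_ ?_ hac
    · exact Finset.mem_coe.mpr (List.mem_toFinset.mpr (List.mem_map_of_mem ha))
    · exact Finset.mem_coe.mpr (List.mem_toFinset.mpr (List.mem_map_of_mem hc))
  have h1 := wd_map w p (fun a ha c hc => hinj a (List.mem_append_left _ ha) c (List.mem_append_left _ hc))
  have h2 := wd_map (actF B X b w) p
    (fun a ha c hc => hinj a (List.mem_append_right _ ha) c (List.mem_append_right _ hc))
  have h3 : actF C Y (q b) (FreeGroup.map p w) = FreeGroup.map p (actF B X b w) := by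
    rw [actF_apply, actF_apply, FreeGroup.map.comp, FreeGroup.map.comp]
    congr 2
    funext x
    exact (hq b x).symm
  refine ⟨?_, ?_⟩
  · intro h0
    have h4 : wd (FreeGroup.map p w) = [] := by
      rw [h0]
      exact wd_mk (L := []) List.IsChain.nil
    rw [h4] at h1
    exact wd_ne_nil h.1 (List.map_eq_nil_iff.mp h1.symm)
  · rw [h3, h1, h2, ← List.map_append]
    exact isRed_map h.2 p hinj

end Pool.Agent.Helper46.OF
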