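import Pool.Agent.Helper46.OF.FG6
import Pool.Agent.Helper46.OF.SD3
import Pool.Agent.Helper46.OF.RA1
import Pool.Agent.Helper46.OF.RA2
import Pool.Agent.Helper46.OF.RA3

/-! # OFG-RA4: RAAGs of finite graphs are residually finite (helper83)
Induction on the number of vertices. -/

set_option autoImplicit false
namespace Pool.Agent.Helper46.OF
open Pool.Agent.Helper96.OF

private theorem comap_fin_ix {G H : Type} [Group G] [Group H] (f : G →* H) (N : Subgroup H)
    (hN : N.Normal) (hi : N.index ≠ 0) : (N.comap f).index ≠ 0 := by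
  rw [Subgroup.index_comap]
  intro h0
  have := Subgroup.relIndex_dvd_index_of_normal N f.range
  rw [h0] at this
  exact hi (zero_dvd_iff.1 this)

private theorem rf_raag_aux (n : ℕ) : ∀ (V : Type) [Finite V] (Γ : SimpleGraph V),
    Nat.card V = n → RF (Raag Γ) := by
  induction n using Nat.strong_induction_on with
  | _ n ih =>
    intro V _ Γ hn g hg
    rcases isEmpty_or_nonempty V with hV | ⟨⟨v⟩⟩
    · exact absurd (Subgroup.mem_bot.1 (mem_of_og Γ ⊥ (fun w => (hV.false w).elim) g)) hg
    · have hlt : Nat.card (Vm v) < n := by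
        rw [← hn]
        exact Finite.card_subtype_lt (p := fun w => w ≠ v) (x := v) (by simp)
      have hB : RF (Raag (Gm Γ v)) := ih _ hlt (Vm v) (Gm Γ v) rfl
      obtain ⟨Θ, hΘ1, hΘ2⟩ := exists_theta Γ v
      by_cases hb : ret Γ v g = 1
      · have hw : (Θ g).left ≠ 1 := by
          intro h0
          apply hg
          have h1 : Θ g = 1 := SemidirectProduct.ext h0 (by rw [hΘ2]; exact hb)
          exact (map_eq_one_iff Θ Θ.injective).1 h1
        obtain ⟨T, hT⟩ := map_ne_one _ hw
        obtain ⟨ρ, hρ1, hρ2⟩ := lk_retract Γ v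
        obtain ⟨Q, Y, _, _, _, _, q, p, hpq, hinj, _⟩ :=
          deepQ hB (Lk Γ v) ρ hρ1 hρ2 T ∅ (by simp)
        have hne : ((sdMap q p hpq).comp Θ.toMonoidHom) g ≠ 1 := by
          intro h0
          have := congrArg SemidirectProduct.left h0
          exact hT Y p hinj this
        obtain ⟨N', hN1, hN2, hN3⟩ := rf_sd Q Y _ hne
        exact ⟨N'.comap ((sdMap q p hpq).comp Θ.toMonoidHom), inferInstance,
          comap_fin_ix _ _ hN1 hN2, hN3⟩
      · obtain ⟨N', hN1, hN2, hN3⟩ := hB _ hb
        exact ⟨N'.comap (ret Γ v), inferInstance, comap_fin_ix _ _ hN1 hN2, hN3⟩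

theorem rf_raag {V : Type} [Finite V] (Γ : SimpleGraph V) : RF (Raag Γ) :=
  rf_raag_aux _ V Γ rfl

end Pool.Agent.Helper46.OF
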